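import Pool.Agent.TH432.Had.Miya

/-!
# Paley's first construction, prime powers
-/

set_option autoImplicit false

namespace Pool.Agent.V11295.PaleyOne

open Finset
open Pool.Agent.H108R3.Had (HasHad)
open Pool.Agent.TH432.Had (had_reindex sum_ne_zero chi_sq)

variable {F : Type} [Field F] [Fintype F] [DecidableEq F]

/-- the correlation sum -/
theorem sum_chi (hF : ringChar F ≠ 2) (x y : F) :
    ∑ z, quadraticChar F (x - z) * quadraticChar F (y - z) =
      quadraticChar F (-1) * 0 + ((if x = y then (Fintype.card F : ℤ) else 0) - 1) := by
  rw [mul_zero, zero_add]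
  have hneg : quadraticChar F (-1) * quadraticChar F (-1) = 1 := chi_sq (neg_ne_zero.2 one_ne_zero)
  have h1 : ∑ z, quadraticChar F (x - z) * quadraticChar F (y - z) =
      ∑ w, quadraticChar F w * quadraticChar F (w + (y - x)) := by
    rw [← Equiv.sum_comp (Equiv.subLeft x)]
    refine sum_congr rfl fun w _ => ?_
    simp only [Equiv.subLeft_apply]
    congr 2 <;> ring
  rw [h1]
  by_cases hxy : x = y
  · subst hxy
    rw [if_pos rfl]
    simp only [sub_self, add_zero]
    have h2 : ∀ w : F, quadraticChar F w * quadraticChar F w = if w = 0 then 0 else 1 := by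
      intro w
      by_cases hw : w = 0
      · subst hw; simp
      · rw [chi_sq hw, if_neg hw]
    rw [sum_congr rfl fun w _ => h2 w]
    have h3 : ∀ w : F, (if w = 0 then (0 : ℤ) else 1) = 1 - if w = 0 then 1 else 0 := by
      intro w; split_ifs <;> norm_num
    rw [sum_congr rfl fun w _ => h3 w, sum_sub_distrib]
    simp
  · rw [if_neg hxy, zero_sub]
    set d := y - x with hd
    have hd0 : d ≠ 0 := sub_ne_zero.2 (Ne.symm hxy)
    have h2 : ∑ w, quadraticChar F w * quadraticChar F (w + d) =
        ∑ w : {x : F // x ≠ 0}, quadraticChar F (1 + d / w) := by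
      rw [sum_ne_zero (fun w => quadraticChar F (1 + d / w))]
      have h3 : ∀ w : F, quadraticChar F w * quadraticChar F (w + d) =
          quadraticChar F (1 + d / w) - if w = 0 then 1 else 0 := by
        intro w
        by_cases hw : w = 0
        · subst hw; simp
        · rw [if_neg hw, sub_zero]
          have h4 : w + d = w * (1 + d / w) := by field_simp
          rw [h4, map_mul, ← mul_assoc, chi_sq hw, one_mul]
      rw [sum_congr rfl fun w _ => h3 w, sum_sub_distrib]
      simp
    rw [h2]
    let e : {x : F // x ≠ 0} ≃ {x : F // x ≠ 0} :=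
      { toFun := fun w => ⟨d / w, div_ne_zero hd0 w.2⟩
        invFun := fun w => ⟨d / w, div_ne_zero hd0 w.2⟩
        left_inv := fun w => by ext; simp [hd0]
        right_inv := fun w => by ext; simp [hd0] }
    have h5 : ∑ w : {x : F // x ≠ 0}, quadraticChar F (1 + d / w) =
        ∑ w : {x : F // x ≠ 0}, quadraticChar F (1 + w) :=
      Equiv.sum_comp e (fun w : {x : F // x ≠ 0} => quadraticChar F (1 + w))
    rw [h5, sum_ne_zero (fun w => quadraticChar F (1 + w))]
    have h6 : ∑ w : F, quadraticChar F (1 + w) = 0 := by
      have h7 := Equiv.sum_comp (Equiv.addLeft (1 : F)) (fun w => quadraticChar F w)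
      simp only [Equiv.coe_addLeft] at h7
      rw [h7]
      exact quadraticChar_sum_zero hF
    rw [h6]
    simp

theorem chi_neg (h4 : Fintype.card F % 4 = 3) (x : F) :
    quadraticChar F (-x) = - quadraticChar F x := by
  have h1 : quadraticChar F (-1) = -1 := by
    rw [quadraticChar_neg_one_iff_not_isSquare, FiniteField.isSquare_neg_one_iff]
    omega
  rw [← neg_one_mul, map_mul, h1, neg_one_mul]

/-- the matrix -/
def H : Option F → Option F → ℤ
  | none, _ => 1
  | some _, none => -1
  | some x, some y => quadraticChar F (x - y) + if x = y then 1 else 0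

theorem paley_field (h4 : Fintype.card F % 4 = 3) : HasHad (Fintype.card F + 1) := by
  have hF : ringChar F ≠ 2 := by
    intro h
    have h1 := FiniteField.even_card_of_char_two h
    omega
  have hrow : ∀ x : F, ∑ y, (quadraticChar F (x - y) + if x = y then 1 else 0) = 1 := by
    intro x
    rw [Finset.sum_add_distrib]
    have h7 := Equiv.sum_comp (Equiv.subLeft x) (fun w => quadraticChar F w)
    simp only [Equiv.subLeft_apply] at h7
    rw [h7, quadraticChar_sum_zero hF]
    simp
  have hcross : ∀ x x' : F, ∑ y, (quadraticChar F (x - y) + if x = y then 1 else 0) *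
      (quadraticChar F (x' - y) + if x' = y then 1 else 0) =
      (if x = x' then (Fintype.card F : ℤ) + 1 else 0) - 1 := by
    intro x x'
    have h1 : ∀ y, (quadraticChar F (x - y) + if x = y then 1 else 0) *
        (quadraticChar F (x' - y) + if x' = y then 1 else 0) =
        quadraticChar F (x - y) * quadraticChar F (x' - y) +
        (if x' = y then quadraticChar F (x - y) else 0) +
        (if x = y then quadraticChar F (x' - y) else 0) +
        (if x = y then (if x' = y then 1 else 0) else 0) := by
      intro y
      by_cases h : x = y <;> by_cases h' : x' = y <;> simp [h, h']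
    simp only [h1, Finset.sum_add_distrib, Finset.sum_ite_eq, Finset.mem_univ, if_true]
    have h5 : quadraticChar F (x' - x) = - quadraticChar F (x - x') := by
      rw [← chi_neg h4, neg_sub]
    rw [sum_chi hF, h5]
    by_cases h : x = x'
    · subst h; simp
    · have h' : ¬ x' = x := fun h' => h h'.symm
      simp only [h, h', if_false]
      ring
  apply had_reindex (ι := Option F) (by rw [Fintype.card_option]) H
  · intro i j
    rcases i with _ | x <;> rcases j with _ | y
    · left; rfl
    · left; rfl
    · right; rfl
    · change quadraticChar F (x - y) + (if x = y then 1 else 0) = 1 ∨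
        quadraticChar F (x - y) + (if x = y then 1 else 0) = -1
      by_cases h : x = y
      · subst h; simp
      · rw [if_neg h, add_zero]
        exact quadraticChar_dichotomy (sub_ne_zero.2 h)
  · intro i j
    rw [Fintype.sum_option]
    rcases i with _ | x <;> rcases j with _ | y
    · change (1 : ℤ) * 1 + ∑ _z : F, (1 : ℤ) * 1 = _
      rw [if_pos rfl]
      simp
      ring
    · change (1 : ℤ) * -1 + ∑ z : F, (1 : ℤ) * (quadraticChar F (y - z) + if y = z then 1 else 0) = _
      simp only [one_mul]
      rw [hrow, if_neg (by simp)]
      norm_num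
    · change (-1 : ℤ) * 1 + ∑ z : F, (quadraticChar F (x - z) + if x = z then 1 else 0) * 1 = _
      simp only [mul_one]
      rw [hrow, if_neg (by simp)]
      norm_num
    · change (-1 : ℤ) * -1 + ∑ z : F, (quadraticChar F (x - z) + if x = z then 1 else 0) *
        (quadraticChar F (y - z) + if y = z then 1 else 0) = _
      rw [hcross]
      by_cases h : x = y
      · subst h
        rw [if_pos rfl, if_pos rfl]
        push_cast
        ring
      · rw [if_neg h, if_neg (by simpa using h)]
        norm_num

/-- Paley's first construction, prime powers -/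
theorem paley_pow {q : ℕ} (hq : IsPrimePow q) (h4 : q % 4 = 3) : HasHad (q + 1) := by
  obtain ⟨p, k, hp, hk, rfl⟩ := hq
  have hp' : p.Prime := hp.nat_prime
  have : Fact p.Prime := ⟨hp'⟩
  have : Fintype (GaloisField p k) := Fintype.ofFinite _
  have hcard : Fintype.card (GaloisField p k) = p ^ k := by
    rw [← Nat.card_eq_fintype_card, GaloisField.card p k (by omega)]
  classical
  have h := paley_field (F := GaloisField p k) (by rw [hcard]; exact h4)
  rwa [hcard] at h

end Pool.Agent.V11295.PaleyOne
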