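import Pool.Agent.Y341.Had.Tower

/-!
# Hadamard matrices of order `u ^ 2 - 1` for the prime powers `u < 1283` with `u = 3` modulo `4`
-/

set_option autoImplicit false

namespace Pool.Agent.V11295.SmallOrders

open Pool.Agent.H108R3.Had (HasHad)

theorem p1 {q : ℕ} (hq : q.Prime) (h4 : q % 4 = 3) : HasHad (q + 1) :=
  Pool.Agent.Y341.Had.had_paley_one hq h4

theorem p2 {q : ℕ} (hq : IsPrimePow q) (h4 : q % 4 = 1) : HasHad (2 * (q + 1)) :=
  Pool.Agent.Y341.Had.had_paley_two hq h4

theorem ag {a b : ℕ} (ha : HasHad (2 * a)) (hb : HasHad (2 * b)) : HasHad (2 * a * b) := by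
  rw [mul_assoc]
  exact Pool.Agent.Y341.Had.agayan ha hb

/-- the prime powers below `1283` which are `3` modulo `4` -/
def L : List ℕ :=
  [3, 7, 11, 19, 23, 27, 31, 43, 47, 59, 67, 71, 79, 83, 103, 107, 127, 131, 139, 151, 163,
  167, 179, 191, 199, 211, 223, 227, 239, 243, 251, 263, 271, 283, 307, 311, 331, 343, 347,
  359, 367, 379, 383, 419, 431, 439, 443, 463, 467, 479, 487, 491, 499, 503, 523, 547, 563,
  571, 587, 599, 607, 619, 631, 643, 647, 659, 683, 691, 719, 727, 739, 743, 751, 787, 811,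
  823, 827, 839, 859, 863, 883, 887, 907, 911, 919, 947, 967, 971, 983, 991, 1019, 1031, 1039,
  1051, 1063, 1087, 1091, 1103, 1123, 1151, 1163, 1171, 1187, 1223, 1231, 1259, 1279]

theorem h3 : HasHad (3 ^ 2 - 1) :=
  (p1 (q := 7) (by norm_num) (by norm_num))

theorem h7 : HasHad (7 ^ 2 - 1) :=
  (p1 (q := 47) (by norm_num) (by norm_num))

theorem h11 : HasHad (11 ^ 2 - 1) :=
  (ag (a := 2) (b := 30) (p1 (q := 3) (by norm_num) (by norm_num))
    (p1 (q := 59) (by norm_num) (by norm_num)))

theorem h19 : HasHad (19 ^ 2 - 1) :=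
  (p1 (q := 359) (by norm_num) (by norm_num))

theorem h23 : HasHad (23 ^ 2 - 1) :=
  (ag (a := 2) (b := 132) (p1 (q := 3) (by norm_num) (by norm_num))
    (p1 (q := 263) (by norm_num) (by norm_num)))

theorem h27 : HasHad (27 ^ 2 - 1) :=
  (p1 (q := 727) (by norm_num) (by norm_num))

theorem h31 : HasHad (31 ^ 2 - 1) :=
  (ag (a := 2) (b := 240) (p1 (q := 3) (by norm_num) (by norm_num))
    (p1 (q := 479) (by norm_num) (by norm_num)))

theorem h43 : HasHad (43 ^ 2 - 1) :=
  (p1 (q := 1847) (by norm_num) (by norm_num))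

theorem h47 : HasHad (47 ^ 2 - 1) :=
  (p1 (q := 2207) (by norm_num) (by norm_num))

theorem h59 : HasHad (59 ^ 2 - 1) :=
  (ag (a := 6) (b := 290) (p1 (q := 11) (by norm_num) (by norm_num))
    (p2 (q := 17 ^ 2) ((Nat.Prime.isPrimePow (by norm_num)).pow (by norm_num)) (by norm_num)))

theorem h67 : HasHad (67 ^ 2 - 1) :=
  (ag (a := 2) (b := 1122) (p1 (q := 3) (by norm_num) (by norm_num))
    (p1 (q := 2243) (by norm_num) (by norm_num)))

theorem h71 : HasHad (71 ^ 2 - 1) :=
  (p1 (q := 5039) (by norm_num) (by norm_num))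

theorem h79 : HasHad (79 ^ 2 - 1) :=
  (ag (a := 2) (b := 1560) (p1 (q := 3) (by norm_num) (by norm_num))
    (p1 (q := 3119) (by norm_num) (by norm_num)))

theorem h83 : HasHad (83 ^ 2 - 1) :=
  (ag (a := 2) (b := 1722) (p1 (q := 3) (by norm_num) (by norm_num))
    (p2 (q := 1721) (Nat.Prime.isPrimePow (by norm_num)) (by norm_num)))

theorem h103 : HasHad (103 ^ 2 - 1) :=
  (p1 (q := 10607) (by norm_num) (by norm_num))

theorem h107 : HasHad (107 ^ 2 - 1) :=
  (p1 (q := 11447) (by norm_num) (by norm_num))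

theorem h127 : HasHad (127 ^ 2 - 1) :=
  (p1 (q := 16127) (by norm_num) (by norm_num))

theorem h131 : HasHad (131 ^ 2 - 1) :=
  (p1 (q := 17159) (by norm_num) (by norm_num))

theorem h139 : HasHad (139 ^ 2 - 1) :=
  (p1 (q := 19319) (by norm_num) (by norm_num))

theorem h151 : HasHad (151 ^ 2 - 1) :=
  (ag (a := 2) (b := 5700) (p1 (q := 3) (by norm_num) (by norm_num))
    (p1 (q := 11399) (by norm_num) (by norm_num)))

theorem h163 : HasHad (163 ^ 2 - 1) :=
  (ag (a := 6) (b := 2214) (p1 (q := 11) (by norm_num) (by norm_num))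
    (p2 (q := 2213) (Nat.Prime.isPrimePow (by norm_num)) (by norm_num)))

theorem h167 : HasHad (167 ^ 2 - 1) :=
  (ag (a := 2) (b := 6972) (p1 (q := 3) (by norm_num) (by norm_num))
    (ag (a := 2) (b := 3486) (p1 (q := 3) (by norm_num) (by norm_num))
    (p1 (q := 6971) (by norm_num) (by norm_num))))

theorem h179 : HasHad (179 ^ 2 - 1) :=
  (ag (a := 2) (b := 8010) (p1 (q := 3) (by norm_num) (by norm_num))
    (p2 (q := 8009) (Nat.Prime.isPrimePow (by norm_num)) (by norm_num)))

theorem h191 : HasHad (191 ^ 2 - 1) :=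
  (p1 (q := 36479) (by norm_num) (by norm_num))

theorem h199 : HasHad (199 ^ 2 - 1) :=
  (ag (a := 2) (b := 9900) (p1 (q := 3) (by norm_num) (by norm_num))
    (ag (a := 6) (b := 1650) (p1 (q := 11) (by norm_num) (by norm_num))
    (p1 (q := 3299) (by norm_num) (by norm_num))))

theorem h211 : HasHad (211 ^ 2 - 1) :=
  (p1 (q := 44519) (by norm_num) (by norm_num))

theorem h223 : HasHad (223 ^ 2 - 1) :=
  (p1 (q := 49727) (by norm_num) (by norm_num))

theorem h227 : HasHad (227 ^ 2 - 1) :=
  (ag (a := 2) (b := 12882) (p1 (q := 3) (by norm_num) (by norm_num))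
    (p1 (q := 25763) (by norm_num) (by norm_num)))

theorem h239 : HasHad (239 ^ 2 - 1) :=
  (p1 (q := 57119) (by norm_num) (by norm_num))

theorem h243 : HasHad (243 ^ 2 - 1) :=
  (ag (a := 22) (b := 1342) (p1 (q := 43) (by norm_num) (by norm_num))
    (p1 (q := 2683) (by norm_num) (by norm_num)))

theorem h251 : HasHad (251 ^ 2 - 1) :=
  (ag (a := 2) (b := 15750) (p1 (q := 3) (by norm_num) (by norm_num))
    (p2 (q := 15749) (Nat.Prime.isPrimePow (by norm_num)) (by norm_num)))

theorem h263 : HasHad (263 ^ 2 - 1) :=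
  (ag (a := 2) (b := 17292) (p1 (q := 3) (by norm_num) (by norm_num))
    (p1 (q := 34583) (by norm_num) (by norm_num)))

theorem h271 : HasHad (271 ^ 2 - 1) :=
  (ag (a := 2) (b := 18360) (p1 (q := 3) (by norm_num) (by norm_num))
    (ag (a := 2) (b := 9180) (p1 (q := 3) (by norm_num) (by norm_num))
    (ag (a := 18) (b := 510) (p2 (q := 17) (Nat.Prime.isPrimePow (by norm_num)) (by norm_num))
    (p1 (q := 1019) (by norm_num) (by norm_num)))))

theorem h283 : HasHad (283 ^ 2 - 1) :=
  (ag (a := 2) (b := 20022) (p1 (q := 3) (by norm_num) (by norm_num))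
    (p2 (q := 20021) (Nat.Prime.isPrimePow (by norm_num)) (by norm_num)))

theorem h307 : HasHad (307 ^ 2 - 1) :=
  (ag (a := 2) (b := 23562) (p1 (q := 3) (by norm_num) (by norm_num))
    (p1 (q := 47123) (by norm_num) (by norm_num)))

theorem h311 : HasHad (311 ^ 2 - 1) :=
  (ag (a := 2) (b := 24180) (p1 (q := 3) (by norm_num) (by norm_num))
    (ag (a := 2) (b := 12090) (p1 (q := 3) (by norm_num) (by norm_num))
    (p1 (q := 24179) (by norm_num) (by norm_num))))

theorem h331 : HasHad (331 ^ 2 - 1) :=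
  (ag (a := 2) (b := 27390) (p1 (q := 3) (by norm_num) (by norm_num))
    (p1 (q := 54779) (by norm_num) (by norm_num)))

theorem h343 : HasHad (343 ^ 2 - 1) :=
  (ag (a := 2) (b := 29412) (p1 (q := 3) (by norm_num) (by norm_num))
    (ag (a := 2) (b := 14706) (p1 (q := 3) (by norm_num) (by norm_num))
    (p1 (q := 29411) (by norm_num) (by norm_num))))

theorem h347 : HasHad (347 ^ 2 - 1) :=
  (ag (a := 174) (b := 346) (p1 (q := 347) (by norm_num) (by norm_num))
    (p1 (q := 691) (by norm_num) (by norm_num)))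

theorem h359 : HasHad (359 ^ 2 - 1) :=
  (p1 (q := 128879) (by norm_num) (by norm_num))

theorem h367 : HasHad (367 ^ 2 - 1) :=
  (ag (a := 2) (b := 33672) (p1 (q := 3) (by norm_num) (by norm_num))
    (p1 (q := 67343) (by norm_num) (by norm_num)))

theorem h379 : HasHad (379 ^ 2 - 1) :=
  (ag (a := 6) (b := 11970) (p1 (q := 11) (by norm_num) (by norm_num))
    (p2 (q := 11969) (Nat.Prime.isPrimePow (by norm_num)) (by norm_num)))

theorem h383 : HasHad (383 ^ 2 - 1) :=
  (ag (a := 2) (b := 36672) (p1 (q := 3) (by norm_num) (by norm_num))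
    (ag (a := 2) (b := 18336) (p1 (q := 3) (by norm_num) (by norm_num))
    (p1 (q := 36671) (by norm_num) (by norm_num))))

theorem h419 : HasHad (419 ^ 2 - 1) :=
  (ag (a := 2) (b := 43890) (p1 (q := 3) (by norm_num) (by norm_num))
    (p2 (q := 43889) (Nat.Prime.isPrimePow (by norm_num)) (by norm_num)))

theorem h431 : HasHad (431 ^ 2 - 1) :=
  (ag (a := 2) (b := 46440) (p1 (q := 3) (by norm_num) (by norm_num))
    (ag (a := 2) (b := 23220) (p1 (q := 3) (by norm_num) (by norm_num))
    (p1 (q := 46439) (by norm_num) (by norm_num))))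

theorem h439 : HasHad (439 ^ 2 - 1) :=
  (ag (a := 2) (b := 48180) (p1 (q := 3) (by norm_num) (by norm_num))
    (ag (a := 2) (b := 24090) (p1 (q := 3) (by norm_num) (by norm_num))
    (p1 (q := 48179) (by norm_num) (by norm_num))))

theorem h443 : HasHad (443 ^ 2 - 1) :=
  (p1 (q := 196247) (by norm_num) (by norm_num))

theorem h463 : HasHad (463 ^ 2 - 1) :=
  (ag (a := 2) (b := 53592) (p1 (q := 3) (by norm_num) (by norm_num))
    (p1 (q := 107183) (by norm_num) (by norm_num)))

theorem h467 : HasHad (467 ^ 2 - 1) :=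
  (p1 (q := 218087) (by norm_num) (by norm_num))

theorem h479 : HasHad (479 ^ 2 - 1) :=
  (ag (a := 2) (b := 57360) (p1 (q := 3) (by norm_num) (by norm_num))
    (ag (a := 2) (b := 28680) (p1 (q := 3) (by norm_num) (by norm_num))
    (ag (a := 12) (b := 2390) (p1 (q := 23) (by norm_num) (by norm_num))
    (p2 (q := 2389) (Nat.Prime.isPrimePow (by norm_num)) (by norm_num)))))

theorem h487 : HasHad (487 ^ 2 - 1) :=
  (ag (a := 2) (b := 59292) (p1 (q := 3) (by norm_num) (by norm_num))
    (p1 (q := 118583) (by norm_num) (by norm_num)))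

theorem h491 : HasHad (491 ^ 2 - 1) :=
  (p1 (q := 241079) (by norm_num) (by norm_num))

theorem h499 : HasHad (499 ^ 2 - 1) :=
  (ag (a := 6) (b := 20750) (p1 (q := 11) (by norm_num) (by norm_num))
    (p2 (q := 20749) (Nat.Prime.isPrimePow (by norm_num)) (by norm_num)))

theorem h503 : HasHad (503 ^ 2 - 1) :=
  (ag (a := 2) (b := 63252) (p1 (q := 3) (by norm_num) (by norm_num))
    (ag (a := 14) (b := 4518) (p2 (q := 13) (Nat.Prime.isPrimePow (by norm_num)) (by norm_num))
    (p2 (q := 4517) (Nat.Prime.isPrimePow (by norm_num)) (by norm_num))))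

theorem h523 : HasHad (523 ^ 2 - 1) :=
  (p1 (q := 273527) (by norm_num) (by norm_num))

theorem h547 : HasHad (547 ^ 2 - 1) :=
  (ag (a := 2) (b := 74802) (p1 (q := 3) (by norm_num) (by norm_num))
    (p1 (q := 149603) (by norm_num) (by norm_num)))

theorem h563 : HasHad (563 ^ 2 - 1) :=
  (ag (a := 2) (b := 79242) (p1 (q := 3) (by norm_num) (by norm_num))
    (p2 (q := 79241) (Nat.Prime.isPrimePow (by norm_num)) (by norm_num)))

theorem h571 : HasHad (571 ^ 2 - 1) :=
  (ag (a := 2) (b := 81510) (p1 (q := 3) (by norm_num) (by norm_num))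
    (p1 (q := 163019) (by norm_num) (by norm_num)))

theorem h587 : HasHad (587 ^ 2 - 1) :=
  (p1 (q := 344567) (by norm_num) (by norm_num))

theorem h599 : HasHad (599 ^ 2 - 1) :=
  (ag (a := 2) (b := 89700) (p1 (q := 3) (by norm_num) (by norm_num))
    (ag (a := 10) (b := 8970) (p1 (q := 19) (by norm_num) (by norm_num))
    (p1 (q := 17939) (by norm_num) (by norm_num))))

theorem h607 : HasHad (607 ^ 2 - 1) :=
  (p1 (q := 368447) (by norm_num) (by norm_num))

theorem h619 : HasHad (619 ^ 2 - 1) :=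
  (ag (a := 2) (b := 95790) (p1 (q := 3) (by norm_num) (by norm_num))
    (p1 (q := 191579) (by norm_num) (by norm_num)))

theorem h631 : HasHad (631 ^ 2 - 1) :=
  (ag (a := 2) (b := 99540) (p1 (q := 3) (by norm_num) (by norm_num))
    (ag (a := 6) (b := 16590) (p1 (q := 11) (by norm_num) (by norm_num))
    (p1 (q := 33179) (by norm_num) (by norm_num))))

theorem h643 : HasHad (643 ^ 2 - 1) :=
  (ag (a := 14) (b := 14766) (p2 (q := 13) (Nat.Prime.isPrimePow (by norm_num)) (by norm_num))
    (p1 (q := 29531) (by norm_num) (by norm_num)))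

theorem h647 : HasHad (647 ^ 2 - 1) :=
  (ag (a := 2) (b := 104652) (p1 (q := 3) (by norm_num) (by norm_num))
    (ag (a := 2) (b := 52326) (p1 (q := 3) (by norm_num) (by norm_num))
    (p1 (q := 104651) (by norm_num) (by norm_num))))

theorem h659 : HasHad (659 ^ 2 - 1) :=
  (ag (a := 6) (b := 36190) (p1 (q := 11) (by norm_num) (by norm_num))
    (p1 (q := 72379) (by norm_num) (by norm_num)))

theorem h683 : HasHad (683 ^ 2 - 1) :=
  (ag (a := 6) (b := 38874) (p1 (q := 11) (by norm_num) (by norm_num))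
    (p1 (q := 77747) (by norm_num) (by norm_num)))

theorem h691 : HasHad (691 ^ 2 - 1) :=
  (ag (a := 6) (b := 39790) (p1 (q := 11) (by norm_num) (by norm_num))
    (p1 (q := 79579) (by norm_num) (by norm_num)))

theorem h719 : HasHad (719 ^ 2 - 1) :=
  (p1 (q := 516959) (by norm_num) (by norm_num))

theorem h727 : HasHad (727 ^ 2 - 1) :=
  (p1 (q := 528527) (by norm_num) (by norm_num))

theorem h739 : HasHad (739 ^ 2 - 1) :=
  (ag (a := 2) (b := 136530) (p1 (q := 3) (by norm_num) (by norm_num))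
    (p1 (q := 273059) (by norm_num) (by norm_num)))

theorem h743 : HasHad (743 ^ 2 - 1) :=
  (p1 (q := 552047) (by norm_num) (by norm_num))

theorem h751 : HasHad (751 ^ 2 - 1) :=
  (p1 (q := 563999) (by norm_num) (by norm_num))

theorem h787 : HasHad (787 ^ 2 - 1) :=
  (ag (a := 2) (b := 154842) (p1 (q := 3) (by norm_num) (by norm_num))
    (p2 (q := 154841) (Nat.Prime.isPrimePow (by norm_num)) (by norm_num)))

theorem h811 : HasHad (811 ^ 2 - 1) :=
  (p1 (q := 657719) (by norm_num) (by norm_num))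

theorem h823 : HasHad (823 ^ 2 - 1) :=
  (ag (a := 2) (b := 169332) (p1 (q := 3) (by norm_num) (by norm_num))
    (ag (a := 6) (b := 28222) (p1 (q := 11) (by norm_num) (by norm_num))
    (p1 (q := 56443) (by norm_num) (by norm_num))))

theorem h827 : HasHad (827 ^ 2 - 1) :=
  (ag (a := 2) (b := 170982) (p1 (q := 3) (by norm_num) (by norm_num))
    (p1 (q := 341963) (by norm_num) (by norm_num)))

theorem h839 : HasHad (839 ^ 2 - 1) :=
  (ag (a := 2) (b := 175980) (p1 (q := 3) (by norm_num) (by norm_num))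
    (p1 (q := 351959) (by norm_num) (by norm_num)))

theorem h859 : HasHad (859 ^ 2 - 1) :=
  (ag (a := 2) (b := 184470) (p1 (q := 3) (by norm_num) (by norm_num))
    (p1 (q := 368939) (by norm_num) (by norm_num)))

theorem h863 : HasHad (863 ^ 2 - 1) :=
  (p1 (q := 744767) (by norm_num) (by norm_num))

theorem h883 : HasHad (883 ^ 2 - 1) :=
  (ag (a := 14) (b := 27846) (p2 (q := 13) (Nat.Prime.isPrimePow (by norm_num)) (by norm_num))
    (p1 (q := 55691) (by norm_num) (by norm_num)))

theorem h887 : HasHad (887 ^ 2 - 1) :=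
  (ag (a := 2) (b := 196692) (p1 (q := 3) (by norm_num) (by norm_num))
    (p1 (q := 393383) (by norm_num) (by norm_num)))

theorem h907 : HasHad (907 ^ 2 - 1) :=
  (ag (a := 2) (b := 205662) (p1 (q := 3) (by norm_num) (by norm_num))
    (p2 (q := 205661) (Nat.Prime.isPrimePow (by norm_num)) (by norm_num)))

theorem h911 : HasHad (911 ^ 2 - 1) :=
  (ag (a := 2) (b := 207480) (p1 (q := 3) (by norm_num) (by norm_num))
    (p1 (q := 414959) (by norm_num) (by norm_num)))

theorem h919 : HasHad (919 ^ 2 - 1) :=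
  (ag (a := 2) (b := 211140) (p1 (q := 3) (by norm_num) (by norm_num))
    (ag (a := 6) (b := 35190) (p1 (q := 11) (by norm_num) (by norm_num))
    (p1 (q := 70379) (by norm_num) (by norm_num))))

theorem h947 : HasHad (947 ^ 2 - 1) :=
  (ag (a := 2) (b := 224202) (p1 (q := 3) (by norm_num) (by norm_num))
    (p2 (q := 224201) (Nat.Prime.isPrimePow (by norm_num)) (by norm_num)))

theorem h967 : HasHad (967 ^ 2 - 1) :=
  (ag (a := 2) (b := 233772) (p1 (q := 3) (by norm_num) (by norm_num))
    (p1 (q := 467543) (by norm_num) (by norm_num)))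

theorem h971 : HasHad (971 ^ 2 - 1) :=
  (ag (a := 6) (b := 78570) (p1 (q := 11) (by norm_num) (by norm_num))
    (p2 (q := 78569) (Nat.Prime.isPrimePow (by norm_num)) (by norm_num)))

theorem h983 : HasHad (983 ^ 2 - 1) :=
  (ag (a := 6) (b := 80524) (p1 (q := 11) (by norm_num) (by norm_num))
    (p1 (q := 161047) (by norm_num) (by norm_num)))

theorem h991 : HasHad (991 ^ 2 - 1) :=
  (ag (a := 2) (b := 245520) (p1 (q := 3) (by norm_num) (by norm_num))
    (p1 (q := 491039) (by norm_num) (by norm_num)))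

theorem h1019 : HasHad (1019 ^ 2 - 1) :=
  (ag (a := 6) (b := 86530) (p1 (q := 11) (by norm_num) (by norm_num))
    (p1 (q := 173059) (by norm_num) (by norm_num)))

theorem h1031 : HasHad (1031 ^ 2 - 1) :=
  (ag (a := 2) (b := 265740) (p1 (q := 3) (by norm_num) (by norm_num))
    (ag (a := 2) (b := 132870) (p1 (q := 3) (by norm_num) (by norm_num))
    (p1 (q := 265739) (by norm_num) (by norm_num))))

theorem h1039 : HasHad (1039 ^ 2 - 1) :=
  (ag (a := 2) (b := 269880) (p1 (q := 3) (by norm_num) (by norm_num))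
    (ag (a := 2) (b := 134940) (p1 (q := 3) (by norm_num) (by norm_num))
    (p1 (q := 269879) (by norm_num) (by norm_num))))

theorem h1051 : HasHad (1051 ^ 2 - 1) :=
  (p1 (q := 1104599) (by norm_num) (by norm_num))

theorem h1063 : HasHad (1063 ^ 2 - 1) :=
  (ag (a := 2) (b := 282492) (p1 (q := 3) (by norm_num) (by norm_num))
    (p1 (q := 564983) (by norm_num) (by norm_num)))

theorem h1087 : HasHad (1087 ^ 2 - 1) :=
  (ag (a := 2) (b := 295392) (p1 (q := 3) (by norm_num) (by norm_num))
    (ag (a := 2) (b := 147696) (p1 (q := 3) (by norm_num) (by norm_num))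
    (ag (a := 4) (b := 36924) (p1 (q := 7) (by norm_num) (by norm_num))
    (p1 (q := 73847) (by norm_num) (by norm_num)))))

theorem h1091 : HasHad (1091 ^ 2 - 1) :=
  (p1 (q := 1190279) (by norm_num) (by norm_num))

theorem h1103 : HasHad (1103 ^ 2 - 1) :=
  (ag (a := 2) (b := 304152) (p1 (q := 3) (by norm_num) (by norm_num))
    (p1 (q := 608303) (by norm_num) (by norm_num)))

theorem h1123 : HasHad (1123 ^ 2 - 1) :=
  (ag (a := 2) (b := 315282) (p1 (q := 3) (by norm_num) (by norm_num))
    (p2 (q := 315281) (Nat.Prime.isPrimePow (by norm_num)) (by norm_num)))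

theorem h1151 : HasHad (1151 ^ 2 - 1) :=
  (ag (a := 2) (b := 331200) (p1 (q := 3) (by norm_num) (by norm_num))
    (ag (a := 2) (b := 165600) (p1 (q := 3) (by norm_num) (by norm_num))
    (ag (a := 4) (b := 41400) (p1 (q := 7) (by norm_num) (by norm_num))
    (p1 (q := 82799) (by norm_num) (by norm_num)))))

theorem h1163 : HasHad (1163 ^ 2 - 1) :=
  (ag (a := 2) (b := 338142) (p1 (q := 3) (by norm_num) (by norm_num))
    (p2 (q := 338141) (Nat.Prime.isPrimePow (by norm_num)) (by norm_num)))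

theorem h1171 : HasHad (1171 ^ 2 - 1) :=
  (ag (a := 6) (b := 114270) (p1 (q := 11) (by norm_num) (by norm_num))
    (p1 (q := 228539) (by norm_num) (by norm_num)))

theorem h1187 : HasHad (1187 ^ 2 - 1) :=
  (ag (a := 6) (b := 117414) (p1 (q := 11) (by norm_num) (by norm_num))
    (p2 (q := 117413) (Nat.Prime.isPrimePow (by norm_num)) (by norm_num)))

theorem h1223 : HasHad (1223 ^ 2 - 1) :=
  (p1 (q := 1495727) (by norm_num) (by norm_num))

theorem h1231 : HasHad (1231 ^ 2 - 1) :=
  (p1 (q := 1515359) (by norm_num) (by norm_num))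

theorem h1259 : HasHad (1259 ^ 2 - 1) :=
  (ag (a := 2) (b := 396270) (p1 (q := 3) (by norm_num) (by norm_num))
    (p2 (q := 396269) (Nat.Prime.isPrimePow (by norm_num)) (by norm_num)))

theorem h1279 : HasHad (1279 ^ 2 - 1) :=
  (ag (a := 2) (b := 408960) (p1 (q := 3) (by norm_num) (by norm_num))
    (p1 (q := 817919) (by norm_num) (by norm_num)))

theorem base : ∀ u ∈ L, HasHad (u ^ 2 - 1) := by
  unfold L
  simp only [List.forall_mem_cons, List.not_mem_nil, false_imp_iff, implies_true, and_true]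
  exact ⟨h3, h7, h11, h19, h23, h27, h31, h43, h47, h59, h67, h71, h79, h83, h103, h107,
    h127, h131, h139, h151, h163, h167, h179, h191, h199, h211, h223, h227, h239, h243, h251,
    h263, h271, h283, h307, h311, h331, h343, h347, h359, h367, h379, h383, h419, h431, h439,
    h443, h463, h467, h479, h487, h491, h499, h503, h523, h547, h563, h571, h587, h599, h607,
    h619, h631, h643, h647, h659, h683, h691, h719, h727, h739, h743, h751, h787, h811, h823,
    h827, h839, h859, h863, h883, h887, h907, h911, h919, h947, h967, h971, h983, h991, h1019,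
    h1031, h1039, h1051, h1063, h1087, h1091, h1103, h1123, h1151, h1163, h1171, h1187, h1223,
    h1231, h1259, h1279⟩

theorem split : ∀ u < 1283, u % 4 = 3 → u ∈ L ∨
    ∃ a < 36, 1 < a ∧ a ∣ u ∧ 1 < u / a ∧ Nat.gcd a (u / a) = 1 := by decide +kernel

theorem small {u : ℕ} (h : u < 1283) (hp : IsPrimePow u) (h4 : u % 4 = 3) : HasHad (u ^ 2 - 1) := by
  rcases split u h h4 with hu | ⟨a, -, ha, hd, hb, hg⟩
  · exact base u hu
  · exfalso
    obtain ⟨b, rfl⟩ := hd
    rw [Nat.mul_div_cancel_left b (by omega)] at hb hg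
    rcases (Nat.Coprime.isPrimePow_dvd_mul hg hp).1 dvd_rfl with h1 | h1
    · have := Nat.le_of_dvd (by omega) h1
      nlinarith
    · have := Nat.le_of_dvd (by omega) h1
      nlinarith

end Pool.Agent.V11295.SmallOrders
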