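import Pool.Agent.V11295.StrCov

/-!
# Finite sets of integers covered by few sets of small doubling and containing progressions
-/

set_option autoImplicit false

open Finset
open scoped Pointwise

namespace Pool.Agent.V11295.StrInt

/-- `A` is covered by at most `L` finite sets `D` with `|D + D| ≤ K |D|` and `|D| ≤ M` -/
def Str (K L M : ℝ) (A : Finset ℕ) : Prop :=
  ∃ 𝒟 : Finset (Finset ℕ), (𝒟.card : ℝ) ≤ L ∧
    (∀ D ∈ 𝒟, ((D + D).card : ℝ) ≤ K * D.card ∧ (D.card : ℝ) ≤ M) ∧ ∀ x ∈ A, ∃ D ∈ 𝒟, x ∈ D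

/-- `A` contains a `k`-term progression of difference `d` -/
def HasAP (k d : ℕ) (A : Finset ℕ) : Prop := ∃ a : ℕ, ∀ i : ℕ, i < k → a + i * d ∈ A

/-- embedding in `ℤ^1` -/
def emb : ℕ →+ (Fin 1 → ℤ) where
  toFun x := fun _ => (x : ℤ)
  map_zero' := by funext; simp
  map_add' x y := by funext; simp

theorem emb_inj : Function.Injective emb := by
  intro x y h
  have h1 : (x : ℤ) = y := congrFun h 0
  exact_mod_cast h1

theorem ineq (k : ℕ) : ∃ C : ℕ, ∀ R A : Finset ℕ, R.Nonempty → (∀ d ∈ R, HasAP (k + 1) d A) →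
    ∀ K L M : ℝ, Str K L M A → (R.card : ℝ) ^ k ≤ (K * L) ^ C * M ^ (k + 1) := by
  classical
  obtain ⟨C, hC⟩ := Pool.Agent.V11295.StrCov.disc k
  refine ⟨C, ?_⟩
  intro R A hR hP K L M hS
  obtain ⟨𝒟, hL, hD, hcov⟩ := hS
  choose! a ha using hP
  have key := hC 1 (R.image emb) (fun v => emb (a (v 0).toNat)) (hR.image _) K L M
    (𝒟.image fun D => D.image emb) (by
      refine le_trans ?_ hL
      exact_mod_cast Finset.card_image_le) (by
      intro E hE
      obtain ⟨D, hD1, rfl⟩ := Finset.mem_image.1 hE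
      rw [Finset.card_image_of_injective _ emb_inj, ← Finset.image_add,
        Finset.card_image_of_injective _ emb_inj]
      exact hD D hD1) (by
      intro v hv j hj
      obtain ⟨d, hd, rfl⟩ := Finset.mem_image.1 hv
      have h1 : ((emb d) 0).toNat = d := Int.toNat_natCast d
      obtain ⟨D, hD1, hD2⟩ := hcov _ (ha d hd j hj)
      refine ⟨D.image emb, Finset.mem_image.2 ⟨D, hD1, rfl⟩, ?_⟩
      refine Finset.mem_image.2 ⟨_, hD2, ?_⟩
      rw [h1, map_add]
      congr 1)
  rwa [Finset.card_image_of_injective _ emb_inj] at key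

/-- asymptotic form -/
theorem asym (k : ℕ) (s : ℝ) (hs : s * (k + 1) < k) : ∃ η : ℝ, 0 < η ∧
    ∀ R A : Finset ℕ, R.Nonempty → (∀ d ∈ R, HasAP (k + 1) d A) →
      Str ((R.card : ℝ) ^ η) ((R.card : ℝ) ^ η) ((R.card : ℝ) ^ η * A.card) A →
      (R.card : ℝ) ^ s ≤ A.card := by
  obtain ⟨C, hC⟩ := ineq k
  set g : ℝ := k - s * (k + 1) with hg
  have hgpos : 0 < g := by linarith
  have hden : (0 : ℝ) < 2 * C + (k + 1) + 1 := by positivity
  refine ⟨g / (2 * C + (k + 1) + 1), by positivity, ?_⟩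
  set η : ℝ := g / (2 * C + (k + 1) + 1) with hη
  have hη0 : 0 < η := by positivity
  have hηg : η * (2 * C + (k + 1)) < g := by
    have h1 : η * (2 * C + (k + 1) + 1) = g := by rw [hη]; field_simp
    nlinarith
  intro R A hR hP hS
  by_contra hcon
  push Not at hcon
  have key := hC R A hR hP _ _ _ hS
  have hR1 : 1 ≤ R.card := hR.card_pos
  have hR0 : (0 : ℝ) < R.card := by exact_mod_cast hR1
  -- A is nonempty
  obtain ⟨d, hd⟩ := hR
  obtain ⟨a, ha⟩ := hP d hd
  have hA1 : 1 ≤ A.card := Finset.card_pos.2 ⟨_, ha 0 (by omega)⟩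
  have hA1' : (1 : ℝ) ≤ A.card := by exact_mod_cast hA1
  rcases Nat.eq_or_lt_of_le hR1 with h1 | h1
  · rw [← h1, Nat.cast_one, Real.one_rpow] at hcon
    linarith
  · have h2 : (1 : ℝ) < R.card := by exact_mod_cast h1
    set T : ℝ := (R.card : ℝ) with hT
    have h3 : (T ^ η * (A.card : ℝ)) ^ (k + 1) ≤ (T ^ η * T ^ s) ^ (k + 1) :=
      pow_le_pow_left₀ (by positivity)
        (mul_le_mul_of_nonneg_left hcon.le (Real.rpow_nonneg hR0.le _)) _
    have h4 : T ^ (k : ℝ) ≤ T ^ (η * (2 * C + (k + 1)) + s * (k + 1)) := by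
      calc T ^ (k : ℝ) = T ^ k := Real.rpow_natCast _ _
        _ ≤ (T ^ η * T ^ η) ^ C * (T ^ η * (A.card : ℝ)) ^ (k + 1) := key
        _ ≤ (T ^ η * T ^ η) ^ C * (T ^ η * T ^ s) ^ (k + 1) :=
            mul_le_mul_of_nonneg_left h3 (by positivity)
        _ = T ^ (η * (2 * C + (k + 1)) + s * (k + 1)) := by
            rw [← Real.rpow_add hR0, ← Real.rpow_add hR0, ← Real.rpow_mul_natCast hR0.le,
              ← Real.rpow_mul_natCast hR0.le, ← Real.rpow_add hR0]
            congr 1
            push_cast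
            ring
    have h5 := (Real.rpow_le_rpow_left_iff h2).1 h4
    linarith

theorem card_pi {k : ℕ} (j : Fin k) (x H : ℕ) :
    (Fintype.piFinset fun i : Fin k => if i = j then ({x} : Finset ℕ) else Finset.range H).card
      = H ^ (k - 1) := by
  classical
  rw [Fintype.card_piFinset]
  have h1 : ∀ i : Fin k, (if i = j then ({x} : Finset ℕ) else Finset.range H).card
      = if i = j then 1 else H := by
    intro i
    split_ifs
    · exact Finset.card_singleton _
    · exact Finset.card_range _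
  rw [Finset.prod_congr rfl fun i _ => h1 i, Finset.prod_ite, Finset.prod_const_one, one_mul,
    Finset.prod_const]
  congr 1
  have h2 : ((Finset.univ : Finset (Fin k)).filter fun i => ¬ i = j) = Finset.univ.erase j := by
    ext i
    simp
  rw [h2, Finset.card_erase_of_mem (Finset.mem_univ _), Finset.card_univ, Fintype.card_fin]

/-- the number with digits `e` -/
def val {k : ℕ} (m : ℕ) (e : Fin k → ℕ) : ℕ := ∑ i, e i * m ^ (i : ℕ)

/-- the pieces of the example -/
def Dj {k : ℕ} (m : ℕ) (j : Fin k) : Finset ℕ :=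
  (Fintype.piFinset fun i : Fin k => if i = j then ({k * m} : Finset ℕ)
    else Finset.range (2 * k * m + 1)).image (val m)

theorem Dj_card_le {k : ℕ} {m : ℕ} (hm : 1 ≤ m) (j : Fin k) :
    (Dj m j).card ≤ ((2 * k + 1) * m) ^ (k - 1) := by
  refine Finset.card_image_le.trans ?_
  rw [card_pi]
  exact Nat.pow_le_pow_left (by nlinarith) _

theorem Dj_add_card {k : ℕ} {m : ℕ} (hm : 1 ≤ m) (j : Fin k) :
    (Dj m j + Dj m j).card ≤ ((4 * k + 1) * m) ^ (k - 1) := by
  classical
  have hsub : Dj m j + Dj m j ⊆ (Fintype.piFinset fun i : Fin k =>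
      if i = j then ({k * m + k * m} : Finset ℕ) else Finset.range (4 * k * m + 1)).image
        (val m) := by
    intro z hz
    obtain ⟨x, hx, y, hy, rfl⟩ := Finset.mem_add.1 hz
    obtain ⟨e, he, rfl⟩ := Finset.mem_image.1 hx
    obtain ⟨f, hf, rfl⟩ := Finset.mem_image.1 hy
    refine Finset.mem_image.2 ⟨e + f, ?_, ?_⟩
    · rw [Fintype.mem_piFinset] at he hf ⊢
      intro i
      have h1 := he i
      have h2 := hf i
      split_ifs at h1 h2 ⊢ with h
      · rw [Finset.mem_singleton] at *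
        rw [Pi.add_apply, h1, h2]
      · rw [Finset.mem_range] at *
        rw [Pi.add_apply]
        have h3 : 4 * k * m = 2 * k * m + 2 * k * m := by ring
        omega
    · unfold val
      rw [← Finset.sum_add_distrib]
      exact Finset.sum_congr rfl fun i _ => by rw [Pi.add_apply, add_mul]
  refine (Finset.card_le_card hsub).trans (Finset.card_image_le.trans ?_)
  rw [card_pi]
  exact Nat.pow_le_pow_left (by nlinarith) _

theorem le_Dj_card {k : ℕ} {m : ℕ} (hm : 1 ≤ m) (j : Fin k) : m ^ (k - 1) ≤ (Dj m j).card := by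
  classical
  have h0 : m ^ (k - 1) = (Fintype.piFinset fun i : Fin k =>
      if i = j then ({0} : Finset ℕ) else Finset.range m).card := (card_pi j 0 m).symm
  rw [h0]
  refine Finset.card_le_card_of_injOn (fun e => val m (fun i => if i = j then k * m else e i))
    ?_ ?_
  · intro e he
    rw [Finset.mem_coe, Fintype.mem_piFinset] at he
    refine Finset.mem_coe.2 (Finset.mem_image.2 ⟨_, ?_, rfl⟩)
    rw [Fintype.mem_piFinset]
    intro i
    have h1 := he i
    split_ifs at h1 ⊢ with h
    · exact Finset.mem_singleton.2 rfl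
    · rw [Finset.mem_range] at *
      have h2 : 1 ≤ k := by have := j.2; omega
      nlinarith
  · intro e he f hf h
    rw [Finset.mem_coe, Fintype.mem_piFinset] at he hf
    have hlt : ∀ (g : Fin k → ℕ), (∀ i, g i ∈ (if i = j then ({0} : Finset ℕ)
        else Finset.range m)) → ∀ i, g i < m := by
      intro g hg i
      have h1 := hg i
      split_ifs at h1 with h2
      · rw [Finset.mem_singleton] at h1
        omega
      · exact Finset.mem_range.1 h1
    have hval : ∀ (g : Fin k → ℕ), (∀ i, g i ∈ (if i = j then ({0} : Finset ℕ)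
        else Finset.range m)) →
        val m (fun i => if i = j then k * m else g i) = val m g + k * m * m ^ (j : ℕ) := by
      intro g hg
      have h1 := hg j
      rw [if_pos rfl, Finset.mem_singleton] at h1
      unfold val
      rw [← Finset.add_sum_erase _ _ (Finset.mem_univ j),
        ← Finset.add_sum_erase _ (fun i => g i * m ^ (i : ℕ)) (Finset.mem_univ j)]
      beta_reduce
      rw [if_pos rfl, h1, zero_mul, zero_add, add_comm]
      congr 1
      refine Finset.sum_congr rfl fun i hi => ?_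
      rw [if_neg (Finset.ne_of_mem_erase hi)]
    have h' : val m (fun i => if i = j then k * m else e i)
        = val m (fun i => if i = j then k * m else f i) := h
    rw [hval e he, hval f hf] at h'
    have h2 : val m e = val m f := Nat.add_right_cancel h'
    have h3 : finFunctionFinEquiv (fun i => (⟨e i, hlt e he i⟩ : Fin m))
        = finFunctionFinEquiv (fun i => (⟨f i, hlt f hf i⟩ : Fin m)) := by
      apply Fin.ext
      rw [finFunctionFinEquiv_apply, finFunctionFinEquiv_apply]
      exact h2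
    have h4 := finFunctionFinEquiv.injective h3
    funext i
    have h5 := congrFun h4 i
    exact congrArg Fin.val h5

/-- the example -/
theorem example_set (k : ℕ) (hk : 1 ≤ k) : ∃ c : ℝ, 0 < c ∧ ∀ m : ℕ, 1 ≤ m → ∃ A : Finset ℕ,
    (∀ d : ℕ, d < m ^ k → HasAP k d A) ∧ Str c k A.card A ∧ (A.card : ℝ) ≤ c * (m : ℝ) ^ (k - 1) := by
  classical
  refine ⟨((4 * k + 1 : ℕ) : ℝ) ^ (k - 1) * k, by positivity, fun m hm => ?_⟩
  have hk' : (1 : ℝ) ≤ k := by exact_mod_cast hk
  have hsubA : ∀ j : Fin k, Dj m j ⊆ Finset.univ.biUnion (Dj m (k := k)) := by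
    intro j x hx
    exact Finset.mem_biUnion.2 ⟨j, Finset.mem_univ _, hx⟩
  refine ⟨Finset.univ.biUnion (Dj m (k := k)), ?_, ?_, ?_⟩
  · intro d hd
    set r : Fin k → Fin m := finFunctionFinEquiv.symm ⟨d, hd⟩ with hr
    have hdr : d = ∑ i, (r i : ℕ) * m ^ (i : ℕ) := by
      have h1 : finFunctionFinEquiv r = ⟨d, hd⟩ := Equiv.apply_symm_apply _ _
      have h2 := finFunctionFinEquiv_apply r
      rw [h1] at h2
      exact h2
    have hle : ∀ i : Fin k, (i : ℕ) * (r i : ℕ) ≤ k * m := fun i =>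
      Nat.mul_le_mul i.2.le (r i).2.le
    refine ⟨val m fun i => k * m - (i : ℕ) * (r i : ℕ), fun j hj => ?_⟩
    refine Finset.mem_biUnion.2 ⟨⟨j, hj⟩, Finset.mem_univ _, ?_⟩
    refine Finset.mem_image.2 ⟨fun i => (k * m - (i : ℕ) * (r i : ℕ)) + j * (r i : ℕ), ?_, ?_⟩
    · rw [Fintype.mem_piFinset]
      intro i
      split_ifs with h
      · rw [Finset.mem_singleton, h]
        have h1 := hle ⟨j, hj⟩
        exact Nat.sub_add_cancel h1
      · rw [Finset.mem_range]
        have h1 : j * (r i : ℕ) ≤ k * m := Nat.mul_le_mul hj.le (r i).2.le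
        have h2 : 2 * k * m = k * m + k * m := by ring
        omega
    · unfold val
      conv_rhs => rw [hdr]
      rw [Finset.mul_sum, ← Finset.sum_add_distrib]
      exact Finset.sum_congr rfl fun i _ => by ring
  · refine ⟨(Finset.univ : Finset (Fin k)).image (Dj m), ?_, ?_, ?_⟩
    · have h1 : ((Finset.univ : Finset (Fin k)).image (Dj m)).card ≤ k := by
        refine Finset.card_image_le.trans ?_
        rw [Finset.card_univ, Fintype.card_fin]
      exact_mod_cast h1
    · intro D hD
      obtain ⟨j, _, rfl⟩ := Finset.mem_image.1 hD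
      constructor
      · have h1 : (((Dj m j + Dj m j).card : ℕ) : ℝ) ≤ ((4 * k + 1 : ℕ) : ℝ) ^ (k - 1)
            * ((m ^ (k - 1) : ℕ) : ℝ) := by
          have h2 := Dj_add_card hm j
          rw [mul_pow] at h2
          exact_mod_cast h2
        have h3 : ((m ^ (k - 1) : ℕ) : ℝ) ≤ (Dj m j).card := by exact_mod_cast le_Dj_card hm j
        calc (((Dj m j + Dj m j).card : ℕ) : ℝ) ≤ ((4 * k + 1 : ℕ) : ℝ) ^ (k - 1)
            * ((m ^ (k - 1) : ℕ) : ℝ) := h1
          _ ≤ ((4 * k + 1 : ℕ) : ℝ) ^ (k - 1) * ((Dj m j).card : ℝ) :=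
              mul_le_mul_of_nonneg_left h3 (by positivity)
          _ ≤ ((4 * k + 1 : ℕ) : ℝ) ^ (k - 1) * k * ((Dj m j).card : ℝ) := by
              refine mul_le_mul_of_nonneg_right ?_ (Nat.cast_nonneg _)
              exact le_mul_of_one_le_right (by positivity) hk'
      · exact_mod_cast Finset.card_le_card (hsubA j)
    · intro x hx
      obtain ⟨j, _, hxj⟩ := Finset.mem_biUnion.1 hx
      exact ⟨_, Finset.mem_image.2 ⟨j, Finset.mem_univ _, rfl⟩, hxj⟩
  · have h1 : (Finset.univ.biUnion (Dj m (k := k))).card ≤ k * ((2 * k + 1) * m) ^ (k - 1) := by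
      refine Finset.card_biUnion_le.trans ?_
      calc ∑ j : Fin k, (Dj m j).card ≤ ∑ _j : Fin k, ((2 * k + 1) * m) ^ (k - 1) :=
            Finset.sum_le_sum fun j _ => Dj_card_le hm j
        _ = k * ((2 * k + 1) * m) ^ (k - 1) := by
            rw [Finset.sum_const, Finset.card_univ, Fintype.card_fin, smul_eq_mul]
    have h2 : k * ((2 * k + 1) * m) ^ (k - 1) ≤ (4 * k + 1) ^ (k - 1) * k * m ^ (k - 1) := by
      rw [mul_pow]
      have h3 : (2 * k + 1) ^ (k - 1) ≤ (4 * k + 1) ^ (k - 1) := Nat.pow_le_pow_left (by omega) _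
      calc k * ((2 * k + 1) ^ (k - 1) * m ^ (k - 1))
          ≤ k * ((4 * k + 1) ^ (k - 1) * m ^ (k - 1)) :=
            Nat.mul_le_mul_left _ (Nat.mul_le_mul_right _ h3)
        _ = (4 * k + 1) ^ (k - 1) * k * m ^ (k - 1) := by ring
    exact_mod_cast h1.trans h2

end Pool.Agent.V11295.StrInt
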