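import Pool.Agent.V11295.StrCov5
import Pool.Agent.V11295.StrInt

/-!
# The one-scale bound is sharp for all `n` and `k`
-/

set_option autoImplicit false

open Finset Filter Topology
open scoped Pointwise

namespace Pool.Agent.V11295.StrCov

open Pool.Agent.W46.KK Pool.Agent.V11295.ProgAny
open Pool.Agent.V11295.StrInt (Dj Dj_card_le Dj_add_card le_Dj_card)

theorem dig {k m : ℕ} {d : ℕ} (hd : d < m ^ k) : ∃ a : ℕ, ∀ j : Fin k,
    a + (j : ℕ) * d ∈ Dj m j := by
  set r : Fin k → Fin m := finFunctionFinEquiv.symm ⟨d, hd⟩ with hr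
  have hdr : d = ∑ i, (r i : ℕ) * m ^ (i : ℕ) := by
    have h1 : finFunctionFinEquiv r = ⟨d, hd⟩ := Equiv.apply_symm_apply _ _
    have h2 := finFunctionFinEquiv_apply r
    rw [h1] at h2
    exact h2
  have hle : ∀ i : Fin k, (i : ℕ) * (r i : ℕ) ≤ k * m := fun i =>
    Nat.mul_le_mul i.2.le (r i).2.le
  refine ⟨StrInt.val m fun i => k * m - (i : ℕ) * (r i : ℕ), fun j => ?_⟩
  refine Finset.mem_image.2 ⟨fun i => (k * m - (i : ℕ) * (r i : ℕ)) + (j : ℕ) * (r i : ℕ), ?_, ?_⟩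
  · rw [Fintype.mem_piFinset]
    intro i
    split_ifs with h
    · rw [Finset.mem_singleton, h]
      exact Nat.sub_add_cancel (hle j)
    · rw [Finset.mem_range]
      have h1 : (j : ℕ) * (r i : ℕ) ≤ k * m := Nat.mul_le_mul j.2.le (r i).2.le
      have h2 : 2 * k * m = k * m + k * m := by ring
      omega
  · unfold StrInt.val
    conv_rhs => rw [hdr]
    rw [Finset.mul_sum, ← Finset.sum_add_distrib]
    exact Finset.sum_congr rfl fun i _ => by ring

/-- one coordinate of the pieces -/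
noncomputable def Gj {k : ℕ} (m : ℕ) (j : Fin k) : Finset ℤ :=
  (Dj m j).image (Nat.castAddMonoidHom ℤ) + Finset.Icc (0 : ℤ) k

/-- the pieces -/
noncomputable def Ej {k : ℕ} (n m : ℕ) (j : Fin k) : Finset (Fin n → ℤ) := Fintype.piFinset fun _ => Gj m j

theorem cast_inj : Function.Injective (Nat.castAddMonoidHom ℤ) := fun x y h => by
  have h1 : (x : ℤ) = y := h
  exact_mod_cast h1

theorem Icc_card (k : ℕ) : (Finset.Icc (0 : ℤ) k).card = k + 1 := by
  rw [Int.card_Icc]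
  omega

theorem Gj_card_le {k m : ℕ} (hm : 1 ≤ m) (j : Fin k) :
    (Gj m j).card ≤ ((2 * k + 1) * m) ^ (k - 1) * (k + 1) := by
  refine Finset.card_add_le.trans ?_
  rw [Icc_card, Finset.card_image_of_injective _ cast_inj]
  exact Nat.mul_le_mul_right _ (Dj_card_le hm j)

theorem Gj_add_card {k m : ℕ} (hm : 1 ≤ m) (j : Fin k) :
    (Gj m j + Gj m j).card ≤ ((4 * k + 1) ^ (k - 1) * ((k + 1) * (k + 1))) * (Gj m j).card := by
  have h1 : Gj m j + Gj m j = (Dj m j + Dj m j).image (Nat.castAddMonoidHom ℤ) +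
      (Finset.Icc (0 : ℤ) k + Finset.Icc (0 : ℤ) k) := by
    unfold Gj
    rw [add_add_add_comm, Finset.image_add]
  have h2 : (Dj m j).card ≤ (Gj m j).card := by
    have h3 : (Finset.Icc (0 : ℤ) k).Nonempty := ⟨0, by simp⟩
    calc (Dj m j).card = ((Dj m j).image (Nat.castAddMonoidHom ℤ)).card :=
          (Finset.card_image_of_injective _ cast_inj).symm
      _ ≤ (Gj m j).card := Finset.card_le_card_add_right h3
  rw [h1]
  calc ((Dj m j + Dj m j).image (Nat.castAddMonoidHom ℤ) +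
      (Finset.Icc (0 : ℤ) k + Finset.Icc (0 : ℤ) k)).card
      ≤ ((Dj m j + Dj m j).image (Nat.castAddMonoidHom ℤ)).card *
        (Finset.Icc (0 : ℤ) k + Finset.Icc (0 : ℤ) k).card := Finset.card_add_le
    _ ≤ (((4 * k + 1) * m) ^ (k - 1)) * ((k + 1) * (k + 1)) := by
        refine Nat.mul_le_mul (Finset.card_image_le.trans (Dj_add_card hm j)) ?_
        have := Finset.card_add_le (s := Finset.Icc (0 : ℤ) k) (t := Finset.Icc (0 : ℤ) k)
        rwa [Icc_card] at this
    _ = ((4 * k + 1) ^ (k - 1) * ((k + 1) * (k + 1))) * m ^ (k - 1) := by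
        rw [mul_pow]
        ring
    _ ≤ ((4 * k + 1) ^ (k - 1) * ((k + 1) * (k + 1))) * (Gj m j).card :=
        Nat.mul_le_mul_left _ ((le_Dj_card hm j).trans h2)

theorem Ej_add_card {k m : ℕ} (hm : 1 ≤ m) (n : ℕ) (j : Fin k) :
    (Ej n m j + Ej n m j).card ≤
      ((4 * k + 1) ^ (k - 1) * ((k + 1) * (k + 1))) ^ n * (Ej n m j).card := by
  classical
  have hsub : Ej n m j + Ej n m j ⊆ Fintype.piFinset fun _ : Fin n => Gj m j + Gj m j := by
    intro z hz
    obtain ⟨x, hx, y, hy, rfl⟩ := Finset.mem_add.1 hz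
    unfold Ej at hx hy
    rw [Fintype.mem_piFinset] at hx hy ⊢
    intro i
    exact Finset.mem_add.2 ⟨x i, hx i, y i, hy i, rfl⟩
  refine (Finset.card_le_card hsub).trans ?_
  unfold Ej
  rw [Fintype.card_piFinset, Fintype.card_piFinset, Finset.prod_const, Finset.prod_const,
    Finset.card_univ, Fintype.card_fin, ← mul_pow]
  exact Nat.pow_le_pow_left (Gj_add_card hm j) _

theorem Ej_card_le {k m : ℕ} (hm : 1 ≤ m) (n : ℕ) (j : Fin k) :
    (Ej n m j).card ≤ (((2 * k + 1) * m) ^ (k - 1) * (k + 1)) ^ n := by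
  unfold Ej
  rw [Fintype.card_piFinset, Finset.prod_const, Finset.card_univ, Fintype.card_fin]
  exact Nat.pow_le_pow_left (Gj_card_le hm j) _

theorem sharp_scale (n k : ℕ) (hk : 1 ≤ k) : ∃ c : ℝ, 0 < c ∧ ∀ δ : ℝ, 0 < δ → δ ≤ 1 →
    ∃ B : Set (EuclideanSpace ℝ (Fin n)), HasProgressions k B ∧
      Str c k (c * δ ^ (-((n : ℝ) - n / k))) δ B := by
  classical
  have hk0 : (0 : ℝ) < k := by exact_mod_cast hk
  set c₁ : ℝ := ((4 * (k : ℝ) + 1) ^ (k - 1) * ((k + 1) * (k + 1))) ^ n with hc1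
  set c₂ : ℝ := (((2 * (k : ℝ) + 1) * 2) ^ (k - 1) * (k + 1)) ^ n with hc2
  have hc1' : 0 < c₁ := by positivity
  have hc2' : 0 < c₂ := by positivity
  refine ⟨c₁ + c₂, by positivity, fun δ hδ hδ1 => ?_⟩
  have hinv : 1 ≤ 1 / δ := by rw [le_div_iff₀ hδ]; linarith
  set x : ℝ := (1 / δ) ^ (1 / (k : ℝ)) with hx
  have hx1 : 1 ≤ x := Real.one_le_rpow hinv (by positivity)
  have hxk : x ^ k = 1 / δ := by
    rw [hx, ← Real.rpow_natCast, ← Real.rpow_mul (by positivity), one_div_mul_cancel hk0.ne',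
      Real.rpow_one]
  set m : ℕ := ⌊x⌋₊ + 1 with hm
  have hm1 : 1 ≤ m := by omega
  have hxm : x < m := by
    rw [hm]
    push_cast
    exact Nat.lt_floor_add_one x
  have hmx : (m : ℝ) ≤ 2 * x := by
    rw [hm]
    push_cast
    have := Nat.floor_le (by linarith : 0 ≤ x)
    linarith
  have hmk : 1 / δ < (m : ℝ) ^ k := by
    rw [← hxk]
    exact pow_lt_pow_left₀ hxm (by linarith) (by omega)
  refine ⟨{y | ∃ j : Fin k, cell δ y ∈ Ej n m j}, ?_, ?_⟩
  · intro r hr
    have hd : ∀ i, ∃ d : ℕ, (d : ℤ) = ⌊r i / δ⌋ ∧ d < m ^ k := by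
      intro i
      have h0 : 0 ≤ ⌊r i / δ⌋ := Int.floor_nonneg.2 (div_nonneg (hr i).1 hδ.le)
      refine ⟨⌊r i / δ⌋.toNat, Int.toNat_of_nonneg h0, ?_⟩
      have h1 : ((⌊r i / δ⌋.toNat : ℕ) : ℤ) = ⌊r i / δ⌋ := Int.toNat_of_nonneg h0
      have h2 : (((⌊r i / δ⌋.toNat : ℕ) : ℤ) : ℝ) ≤ r i / δ := by
        rw [h1]
        exact Int.floor_le _
      have h3 : r i / δ ≤ 1 / δ := by
        rw [div_le_div_iff_of_pos_right hδ]
        exact (hr i).2
      have h4 : ((⌊r i / δ⌋.toNat : ℕ) : ℝ) < ((m ^ k : ℕ) : ℝ) := by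
        push_cast at h2 ⊢
        linarith
      exact_mod_cast h4
    choose d hd1 hd2 using hd
    choose a ha using fun i => dig (hd2 i)
    refine ⟨WithLp.toLp 2 fun i => δ * (a i : ℝ), fun j hj => ⟨⟨j, hj⟩, ?_⟩⟩
    unfold Ej
    rw [Fintype.mem_piFinset]
    intro i
    obtain ⟨e, he0, he1, he2⟩ := floor_add (α := ((a i : ℕ) : ℝ)) (ρ := r i / δ) j
    have h1 : cell δ ((WithLp.toLp 2 fun i => δ * (a i : ℝ) : EuclideanSpace ℝ (Fin n))
        + (j : ℝ) • r) i = ⌊((a i : ℕ) : ℝ) + j * (r i / δ)⌋ := by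
      have h2 : ((WithLp.toLp 2 fun i => δ * (a i : ℝ) : EuclideanSpace ℝ (Fin n))
          + (j : ℝ) • r) i / δ = ((a i : ℕ) : ℝ) + j * (r i / δ) := by
        rw [PiLp.add_apply, PiLp.smul_apply, smul_eq_mul]
        show (δ * (a i : ℝ) + (j : ℝ) * r i) / δ = _
        rw [add_div, mul_div_cancel_left₀ _ hδ.ne', mul_div_assoc]
      unfold cell
      rw [h2]
    rw [h1]
    unfold Gj
    refine Finset.mem_add.2 ⟨((a i + j * d i : ℕ) : ℤ), ?_, e, ?_, ?_⟩
    · exact Finset.mem_image.2 ⟨_, ha i ⟨j, hj⟩, rfl⟩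
    · rw [Finset.mem_Icc]
      constructor
      · exact he0
      · have : (j : ℤ) < k := by exact_mod_cast hj
        omega
    · rw [Int.floor_natCast, ← hd1 i] at he2
      push_cast
      linarith
  · refine ⟨(Finset.univ : Finset (Fin k)).image (Ej n m), ?_, ?_, ?_⟩
    · have h1 : ((Finset.univ : Finset (Fin k)).image (Ej n m)).card ≤ k := by
        refine Finset.card_image_le.trans ?_
        rw [Finset.card_univ, Fintype.card_fin]
      exact_mod_cast h1
    · intro D hD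
      obtain ⟨j, _, rfl⟩ := Finset.mem_image.1 hD
      constructor
      · calc ((Ej n m j + Ej n m j).card : ℝ)
            ≤ ((((4 * k + 1) ^ (k - 1) * ((k + 1) * (k + 1))) ^ n * (Ej n m j).card : ℕ) : ℝ) := by
              exact_mod_cast Ej_add_card hm1 n j
          _ = c₁ * (Ej n m j).card := by
              rw [hc1]
              push_cast
              ring
          _ ≤ (c₁ + c₂) * (Ej n m j).card :=
              mul_le_mul_of_nonneg_right (by linarith) (Nat.cast_nonneg _)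
      · have h1 : ((Ej n m j).card : ℝ) ≤ (((2 * (k : ℝ) + 1) * m) ^ (k - 1) * (k + 1)) ^ n := by
          exact_mod_cast Ej_card_le hm1 n j
        have h2 : (((2 * (k : ℝ) + 1) * m) ^ (k - 1) * (k + 1)) ^ n
            ≤ (((2 * (k : ℝ) + 1) * (2 * x)) ^ (k - 1) * (k + 1)) ^ n := by
          gcongr
        have h3 : (((2 * (k : ℝ) + 1) * (2 * x)) ^ (k - 1) * (k + 1)) ^ n
            = c₂ * (x ^ (k - 1)) ^ n := by
          rw [hc2, ← mul_pow, ← mul_assoc (2 * (k : ℝ) + 1) 2 x, mul_pow ((2 * (k : ℝ) + 1) * 2) x]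
          congr 1
          ring
        have h4 : (x ^ (k - 1)) ^ n = δ ^ (-((n : ℝ) - n / k)) := by
          rw [hx, ← Real.rpow_natCast, ← Real.rpow_natCast, ← Real.rpow_mul (by positivity),
            ← Real.rpow_mul (by positivity), one_div δ, Real.inv_rpow hδ.le, ← Real.rpow_neg hδ.le]
          congr 1
          rw [Nat.cast_sub hk]
          push_cast
          field_simp
        calc ((Ej n m j).card : ℝ) ≤ _ := h1.trans h2
          _ = c₂ * δ ^ (-((n : ℝ) - n / k)) := by rw [h3, h4]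
          _ ≤ (c₁ + c₂) * δ ^ (-((n : ℝ) - n / k)) :=
              mul_le_mul_of_nonneg_right (by linarith) (Real.rpow_nonneg hδ.le _)
    · rintro y ⟨j, hy⟩
      exact ⟨_, Finset.mem_image.2 ⟨j, Finset.mem_univ _, rfl⟩, hy⟩

end Pool.Agent.V11295.StrCov
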