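import Mathlib

/-! Pratt certificates checked by kernel computation. -/

namespace Pool.Agent.V11295

/-- binary powering modulo `n`; `fuel` bounds the number of binary digits of the exponent -/
def powMod (n : ℕ) : ℕ → ℕ → ℕ → ℕ → ℕ
  | 0, _, _, acc => acc
  | fuel + 1, a, e, acc =>
      powMod n fuel (a * a % n) (e / 2) (if e % 2 = 1 then acc * a % n else acc)

lemma powMod_spec (n : ℕ) : ∀ (fuel a e acc : ℕ), e < 2 ^ fuel →
    (powMod n fuel a e acc : ZMod n) = acc * (a : ZMod n) ^ e := by
  intro fuel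
  induction fuel with
  | zero =>
    intro a e acc he
    have : e = 0 := by simpa using he
    subst this
    simp [powMod]
  | succ fuel ih =>
    intro a e acc he
    have he2 : e / 2 < 2 ^ fuel := by
      rw [pow_succ] at he
      omega
    rw [powMod, ih _ _ _ he2]
    have hsq : (((a * a % n : ℕ)) : ZMod n) = (a : ZMod n) ^ 2 := by
      rw [ZMod.natCast_mod]; push_cast; ring
    rw [hsq, ← pow_mul]
    by_cases h : e % 2 = 1
    · rw [if_pos h, ZMod.natCast_mod]
      push_cast
      have h2 : e = 2 * (e / 2) + 1 := by omega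
      conv_rhs => rw [h2, pow_succ]
      ring
    · rw [if_neg h]
      have h2 : e = 2 * (e / 2) := by omega
      conv_rhs => rw [h2]

/-- check of a Pratt certificate -/
def prattCheck (p a fuel : ℕ) (l : List ℕ) : Bool :=
  (l.prod + 1 == p) && (1 < p) && (p < 2 ^ fuel) && (powMod p fuel a (p - 1) 1 % p == 1) &&
    l.all (fun q => decide (powMod p fuel a ((p - 1) / q) 1 % p ≠ 1))

theorem pratt (p a fuel : ℕ) (l : List ℕ) (hl : ∀ q ∈ l, q.Prime)
    (h : prattCheck p a fuel l = true) : p.Prime := by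
  simp only [prattCheck, Bool.and_eq_true, beq_iff_eq, decide_eq_true_eq, List.all_eq_true] at h
  obtain ⟨⟨⟨⟨hprod, hp1⟩, hpf⟩, hpow⟩, hq⟩ := h
  have hlt : p - 1 < 2 ^ fuel := by omega
  have key : ∀ e, e < 2 ^ fuel → (a : ZMod p) ^ e = ((powMod p fuel a e 1 % p : ℕ) : ZMod p) := by
    intro e he
    rw [ZMod.natCast_mod, powMod_spec p fuel a e 1 he]
    simp
  apply lucas_primality p (a : ZMod p)
  · rw [key _ hlt, hpow]; simp
  · intro q hqp hqd
    have hqd' : q ∣ l.prod := by
      have : p - 1 = l.prod := by omega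
      rwa [this] at hqd
    obtain ⟨x, hx, hqx⟩ := (Prime.dvd_prod_iff hqp.prime).mp hqd'
    have hqx' : q = x := (Nat.prime_dvd_prime_iff_eq hqp (hl x hx)).mp hqx
    subst hqx'
    have hne := hq q hx
    have hlt2 : (p - 1) / q < 2 ^ fuel := lt_of_le_of_lt (Nat.div_le_self _ _) hlt
    rw [key _ hlt2]
    intro hcon
    apply hne
    have h1 : ((powMod p fuel a ((p - 1) / q) 1 % p : ℕ) : ZMod p) = ((1 : ℕ) : ZMod p) := by
      rw [hcon]; simp
    rw [ZMod.natCast_eq_natCast_iff] at h1
    have h2 : (powMod p fuel a ((p - 1) / q) 1 % p) % p = 1 % p := h1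
    rw [Nat.mod_mod, Nat.mod_eq_of_lt hp1] at h2
    exact h2

end Pool.Agent.V11295
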