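import Pool.Agent.V11295.TwinMenon
import Pool.Agent.TH432.Had.Miya

/-!
# Regular Hadamard matrices of order `4 r ^ 2` from an affine plane of order `r` and a Hadamard
matrix of order `r ^ 2 - 1`, `r = 3` modulo `4`

`K` is a field with `r` elements. For a function `φ` on the `r + 1` directions of the affine plane
`K × K` let `hat φ q` be the sum of `φ m` over the lines `m` through the origin which contain `q`. For a
balanced sign function `c` the matrix `hat c (p - q)` is a symmetric core of order `r ^ 2`. Miyamoto's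
construction gives a Hadamard matrix of order `4 r ^ 2`; we find a sign vector which it maps to a
vector with all entries `± 2 r`.
-/

set_option autoImplicit false

namespace Pool.Agent.V11295.PlaneMenon

open Finset
open Pool.Agent.TH432.Had (Data sg sg_sq sg_cases had_transpose)
open Pool.Agent.H108R3.Had (HasHad)

section plane

variable {K : Type} [Field K] [Fintype K] [DecidableEq K]

/-- the indicator function of the line through the origin with direction `m` -/
def A (m : Option K) (q : K × K) : ℤ :=
  match m with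
  | none => if q.1 = 0 then 1 else 0
  | some a => if q.2 = a * q.1 then 1 else 0

omit [Fintype K] in
theorem A_neg (m : Option K) (q : K × K) : A m (-q) = A m q := by
  cases m with
  | none => simp [A]
  | some a =>
    have h : (-q.2 = a * -q.1) ↔ (q.2 = a * q.1) := by
      rw [mul_neg, neg_inj]
    simp only [A, Prod.fst_neg, Prod.snd_neg, h]

theorem A_sum (m : Option K) : ∑ q : K × K, A m q = Fintype.card K := by
  rw [Fintype.sum_prod_type]
  cases m with
  | none =>
    simp only [A]
    rw [Finset.sum_comm]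
    simp
  | some a =>
    simp only [A]
    simp

theorem A_pair (m m' : Option K) (p : K × K) : ∑ q : K × K, A m q * A m' (q - p) =
    if m = m' then Fintype.card K * A m p else 1 := by
  rw [Fintype.sum_prod_type]
  cases m with
  | none =>
    cases m' with
    | none =>
      simp only [A, Prod.fst_sub, if_true]
      rw [Finset.sum_comm]
      simp only [ite_mul, one_mul, zero_mul, Finset.sum_ite_eq', Finset.mem_univ, if_true]
      simp only [zero_sub, neg_eq_zero]
      simp
    | some b =>
      simp only [A, Prod.fst_sub, Prod.snd_sub, reduceCtorEq, if_false]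
      rw [Finset.sum_comm]
      simp only [ite_mul, one_mul, zero_mul, Finset.sum_ite_eq', Finset.mem_univ, if_true]
      simp only [sub_eq_iff_eq_add, Finset.sum_ite_eq', Finset.mem_univ, if_true]
  | some a =>
    cases m' with
    | none =>
      simp only [A, Prod.fst_sub, reduceCtorEq, if_false]
      simp only [ite_mul, one_mul, zero_mul, Finset.sum_ite_eq', Finset.mem_univ, if_true]
      simp only [sub_eq_zero, Finset.sum_ite_eq', Finset.mem_univ, if_true]
    | some b =>
      simp only [A, Prod.fst_sub, Prod.snd_sub]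
      simp only [ite_mul, one_mul, zero_mul, Finset.sum_ite_eq', Finset.mem_univ, if_true]
      by_cases h : a = b
      · subst h
        rw [if_pos rfl]
        have h1 : ∀ x : K, (a * x - p.2 = a * (x - p.1)) ↔ (p.2 = a * p.1) := by
          intro x
          constructor
          · intro h; linear_combination -h
          · intro h; linear_combination -h
        simp only [h1, Finset.sum_const, Finset.card_univ, nsmul_eq_mul]
      · rw [if_neg (by simpa using h)]
        have hab : a - b ≠ 0 := sub_ne_zero.2 h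
        have h1 : ∀ x : K, (a * x - p.2 = b * (x - p.1)) ↔ (x = (p.2 - b * p.1) / (a - b)) := by
          intro x
          rw [eq_div_iff hab]
          constructor
          · intro h; linear_combination h
          · intro h; linear_combination h
        simp only [h1, Finset.sum_ite_eq', Finset.mem_univ, if_true]

omit [Fintype K] in
theorem A_dir {q : K × K} (hq : q ≠ 0) : ∃ d : Option K, ∀ m, A m q = if m = d then 1 else 0 := by
  by_cases h : q.1 = 0
  · have h2 : q.2 ≠ 0 := fun h2 => hq (Prod.ext h h2)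
    refine ⟨none, fun m => ?_⟩
    cases m with
    | none => simp [A, h]
    | some a => simp [A, h, h2]
  · refine ⟨some (q.2 / q.1), fun m => ?_⟩
    cases m with
    | none => simp [A, h]
    | some a =>
      have h1 : (q.2 = a * q.1) ↔ (a = q.2 / q.1) := by
        rw [eq_div_iff h, eq_comm]
      simp only [A, h1, Option.some.injEq]

/-- the transform of a function on the directions -/
def hat (φ : Option K → ℤ) (q : K × K) : ℤ := ∑ m, φ m * A m q

theorem hat_neg (φ : Option K → ℤ) (q : K × K) : hat φ (-q) = hat φ q := by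
  simp only [hat, A_neg]

theorem hat_sub (φ : Option K → ℤ) (p q : K × K) : hat φ (p - q) = hat φ (q - p) := by
  rw [← neg_sub, hat_neg]

theorem hat_zero (φ : Option K → ℤ) : hat φ 0 = ∑ m, φ m := by
  have h : ∀ m : Option K, A m (0 : K × K) = 1 := by
    intro m
    cases m <;> simp [A]
  simp only [hat, h, mul_one]

theorem hat_of_ne (φ : Option K → ℤ) (hφ : ∀ m, φ m = 1 ∨ φ m = -1) {q : K × K} (hq : q ≠ 0) :
    hat φ q = 1 ∨ hat φ q = -1 := by
  obtain ⟨d, hd⟩ := A_dir hq
  have : hat φ q = φ d := by
    simp [hat, hd]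
  rw [this]
  exact hφ d

theorem hat_sum (φ : Option K → ℤ) (hφ : ∑ m, φ m = 0) : ∑ q, hat φ q = 0 := by
  simp only [hat]
  rw [Finset.sum_comm]
  simp only [← Finset.mul_sum, A_sum]
  rw [← Finset.sum_mul, hφ, zero_mul]

theorem hat_pair (φ ψ : Option K → ℤ) (hφ : ∑ m, φ m = 0) (p : K × K) :
    ∑ q, hat φ q * hat ψ (q - p) =
      Fintype.card K * hat (fun m => φ m * ψ m) p - ∑ m, φ m * ψ m := by
  have h1 : ∀ q, hat φ q * hat ψ (q - p) = ∑ m, ∑ m', φ m * ψ m' * (A m q * A m' (q - p)) := by
    intro q
    simp only [hat, Finset.sum_mul_sum]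
    refine Finset.sum_congr rfl fun m _ => Finset.sum_congr rfl fun m' _ => ?_
    ring
  simp only [h1]
  rw [Finset.sum_comm]
  have h2 : ∀ m, ∑ q : K × K, ∑ m', φ m * ψ m' * (A m q * A m' (q - p)) =
      φ m * (∑ m', ψ m') + (Fintype.card K * (φ m * ψ m * A m p) - φ m * ψ m) := by
    intro m
    rw [Finset.sum_comm]
    simp only [← Finset.mul_sum, A_pair]
    have h3 : ∀ m', φ m * ψ m' * (if m = m' then (Fintype.card K : ℤ) * A m p else 1) =
        φ m * ψ m' + (if m = m' then φ m * ψ m' * ((Fintype.card K : ℤ) * A m p - 1) else 0) := by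
      intro m'
      by_cases h : m = m'
      · rw [if_pos h, if_pos h]; ring
      · rw [if_neg h, if_neg h]; ring
    simp only [h3, Finset.sum_add_distrib, Finset.sum_ite_eq, Finset.mem_univ, if_true]
    rw [← Finset.mul_sum]
    ring
  simp only [h2, Finset.sum_add_distrib, Finset.sum_sub_distrib, ← Finset.sum_mul, hφ, zero_mul,
    zero_add, ← Finset.mul_sum, hat]

theorem hat_fun (φ : Option K → ℤ) (f : K → ℤ) (p : K × K) :
    ∑ q : K × K, hat φ (p - q) * f q.1 =
      Fintype.card K * φ none * f p.1 + (∑ a, φ (some a)) * ∑ x, f x := by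
  have h1 : ∀ q : K × K, hat φ (p - q) * f q.1 = ∑ m, φ m * (A m (q - p) * f q.1) := by
    intro q
    rw [hat_sub, hat, Finset.sum_mul]
    exact Finset.sum_congr rfl fun m _ => by ring
  simp only [h1]
  rw [Finset.sum_comm, Fintype.sum_option]
  congr 1
  · rw [← Finset.mul_sum, Fintype.sum_prod_type]
    have h2 : ∀ x y : K, A none ((x, y) - p) * f x = if x = p.1 then f x else 0 := by
      intro x y
      simp only [A, Prod.fst_sub, sub_eq_zero]
      by_cases h : x = p.1 <;> simp [h]
    simp only [h2, Finset.sum_const, Finset.card_univ, nsmul_eq_mul, ← Finset.mul_sum,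
      Finset.sum_ite_eq', Finset.mem_univ, if_true]
    ring
  · rw [Finset.sum_mul]
    refine Finset.sum_congr rfl fun a _ => ?_
    rw [← Finset.mul_sum, Fintype.sum_prod_type]
    congr 1
    refine Finset.sum_congr rfl fun x _ => ?_
    have h2 : ∀ y : K, A (some a) ((x, y) - p) * f x = if y = a * (x - p.1) + p.2 then f x else 0 := by
      intro y
      simp only [A, Prod.fst_sub, Prod.snd_sub, sub_eq_iff_eq_add]
      by_cases h : y = a * (x - p.1) + p.2 <;> simp [h]
    simp only [h2, Finset.sum_ite_eq', Finset.mem_univ, if_true]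

end plane

section data

variable {K : Type} [Field K] [Fintype K] [DecidableEq K]

theorem sum_ne (f : K × K → ℤ) : ∑ z : {x : K × K // x ≠ 0}, f z = ∑ z, f z - f 0 := by
  rw [Fintype.sum_eq_add_sum_subtype_ne f 0]
  ring

theorem hat_one (p : K × K) : hat (fun _ => 1) p = if p = 0 then (Fintype.card K : ℤ) + 1 else 1 := by
  by_cases h : p = 0
  · subst h
    rw [if_pos rfl, hat_zero]
    simp
  · rw [if_neg h]
    obtain ⟨d, hd⟩ := A_dir h
    simp [hat, hd]

theorem hat_sq (φ : Option K → ℤ) (hφ : ∀ m, φ m = 1 ∨ φ m = -1) (hs : ∑ m, φ m = 0) (p : K × K) :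
    ∑ q, hat φ q * hat φ (q - p) = (if p = 0 then (Fintype.card K : ℤ) ^ 2 else 0) - 1 := by
  have h1 : (fun m => φ m * φ m) = fun _ => 1 := by
    funext m
    rcases hφ m with h | h <;> rw [h] <;> norm_num
  rw [hat_pair φ φ hs, h1, hat_one]
  simp only [Finset.sum_const, Finset.card_univ, Fintype.card_option, nsmul_eq_mul, mul_one]
  push_cast
  by_cases h : p = 0
  · rw [if_pos h, if_pos h]; ring
  · rw [if_neg h, if_neg h]; ring

theorem hat_shift (φ : Option K → ℤ) (hs : ∑ m, φ m = 0) (x : K × K) :
    ∑ y, hat φ (x - y) = 0 := by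
  have := Equiv.sum_comp (Equiv.subLeft x) (fun w => hat φ w)
  simp only [Equiv.subLeft_apply] at this
  rw [this, hat_sum φ hs]

theorem hat_corr (φ : Option K → ℤ) (hφ : ∀ m, φ m = 1 ∨ φ m = -1) (hs : ∑ m, φ m = 0)
    (x y : K × K) :
    ∑ z, hat φ (x - z) * hat φ (y - z) = (if x = y then (Fintype.card K : ℤ) ^ 2 else 0) - 1 := by
  have h1 : ∑ z, hat φ (x - z) * hat φ (y - z) = ∑ w, hat φ w * hat φ (w - (x - y)) := by
    rw [← Equiv.sum_comp (Equiv.subLeft x)]
    refine Finset.sum_congr rfl fun w _ => ?_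
    simp only [Equiv.subLeft_apply]
    congr 2 <;> abel
  rw [h1, hat_sq φ hφ hs]
  simp only [sub_eq_zero]

/-- the data of an affine plane -/
def planeData (φ : Option K → ℤ) (hφ : ∀ m, φ m = 1 ∨ φ m = -1) (hs : ∑ m, φ m = 0)
    (H : {x : K × K // x ≠ 0} → {x : K × K // x ≠ 0} → ℤ) (H1 : ∀ x y, H x y = 1 ∨ H x y = -1)
    (hH : ∀ x y, ∑ z, H x z * H y z = if x = y then (Fintype.card K : ℤ) ^ 2 - 1 else 0)
    (hH' : ∀ x y, ∑ z, H z x * H z y = if x = y then (Fintype.card K : ℤ) ^ 2 - 1 else 0) :
    Data {x : K × K // x ≠ 0} where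
  P x y := hat φ (x - y)
  c x := hat φ x
  K := H
  k := (Fintype.card K : ℤ) ^ 2
  P0 x := by rw [sub_self, hat_zero, hs]
  P1 x y hxy := by
    apply hat_of_ne φ hφ
    rw [sub_ne_zero]
    exact fun h => hxy (Subtype.ext h)
  hc x := hat_of_ne φ hφ x.2
  hP x y := by
    rw [sum_ne (fun z => hat φ ((x : K × K) - z) * hat φ ((y : K × K) - z)), hat_corr φ hφ hs]
    simp only [sub_zero]
    by_cases h : x = y
    · subst h; simp
    · have h' : (x : K × K) ≠ y := fun h' => h (Subtype.ext h')
      simp [h, h']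
  hr x := by
    rw [sum_ne (fun z => hat φ ((x : K × K) - z)), hat_shift φ hs]
    simp
  hs x := by
    rw [sum_ne (fun z => hat φ ((x : K × K) - z) * hat φ z)]
    have h1 := hat_sq φ hφ hs (x : K × K)
    rw [if_neg x.2] at h1
    have h2 : ∑ z : K × K, hat φ (x - z) * hat φ z = -1 := by
      rw [zero_sub] at h1
      rw [← h1]
      refine Finset.sum_congr rfl fun z _ => ?_
      rw [hat_sub, mul_comm]
    rw [h2, hat_zero, hs]
    simp
  hcs := by
    rw [sum_ne (fun z => hat φ z), hat_sum φ hs, hat_zero, hs]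
    simp
  K1 := H1
  hK := hH
  hK' := hH'
  hcard := by
    rw [Fintype.card_subtype_compl]
    have h1 : 0 < Fintype.card K := Fintype.card_pos
    have h2 : 1 ≤ Fintype.card K * Fintype.card K := Nat.mul_pos h1 h1
    simp only [Fintype.card_prod, Fintype.card_subtype_eq]
    rw [Nat.cast_sub h2]
    push_cast
    ring

end data

/-! ### A vector with flat image -/

section vector

variable {α : Type} [Fintype α] [DecidableEq α] (D : Data α)

/-- the vector -/
def vecX (s f : ℤ) (g u : α → ℤ) : (Bool × Bool) ⊕ (Bool × Bool × α) → ℤ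
  | Sum.inl l => if l.2 then f else s
  | Sum.inr r => if r.1 then u r.2.2 else g r.2.2

/-- its image, divided by `2 r` -/
def vecZ (s f : ℤ) (g w : α → ℤ) : (Bool × Bool) ⊕ (Bool × Bool × α) → ℤ
  | Sum.inl i => if i.1 then -f else s * sg i.2
  | Sum.inr r => if r.1 then w r.2.2 else g r.2.2

theorem image {r s f : ℤ} {g u w : α → ℤ}
    (h1 : ∀ x, ∑ y, D.P x y * g y = r * g x - s - D.c x * f)
    (h2 : ∀ x, ∑ y, D.P x y * u y = r * w x)
    (h3 : ∑ y, g y = r * s - f) (h4 : ∑ y, D.c y * g y = r * f - s)
    (h5 : ∑ y, u y = 0) (h6 : ∑ y, D.c y * u y = 0) (p : (Bool × Bool) ⊕ (Bool × Bool × α)) :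
    ∑ q, D.M p q * vecX s f g u q = 2 * r * vecZ s f g w p := by
  rw [Fintype.sum_sum_type]
  rcases p with i | ⟨ε, t, x⟩
  · have e1 : ∀ (ε : Bool) (v : α → ℤ), ∑ y, Data.g i ε (D.c y) * v y =
        if i.1 = ε then sg i.2 * ∑ y, v y else - ∑ y, D.c y * v y := by
      intro ε v
      by_cases h : i.1 = ε
      · rw [if_pos h, Finset.mul_sum]
        refine Finset.sum_congr rfl fun y _ => ?_
        congr 1
        simp only [Data.g, h, true_and]
        rcases D.hc y with h' | h' <;> rcases sg_cases i.2 with h'' | h'' <;> rw [h', h''] <;> norm_num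
      · rw [if_neg h, ← Finset.sum_neg_distrib]
        refine Finset.sum_congr rfl fun y _ => ?_
        simp only [Data.g, h, false_and, if_false]
        ring
    have e2 : ∑ z : Bool × Bool × α, D.M (Sum.inl i) (Sum.inr z) * vecX s f g u (Sum.inr z) =
        2 * (∑ y, Data.g i true (D.c y) * u y) + 2 * ∑ y, Data.g i false (D.c y) * g y := by
      rw [Fintype.sum_prod_type]
      simp only [Fintype.sum_bool, Fintype.sum_prod_type, Data.M, Data.G, vecX, if_true,
        Bool.false_eq_true, if_false]
      ring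
    rw [e2, e1, e1, Fintype.sum_prod_type]
    simp only [Fintype.sum_bool, Data.M, vecX, vecZ, h3, h4, h5, h6]
    obtain ⟨i1, i2⟩ := i
    cases i1 <;> cases i2 <;> simp [Data.F, sg] <;> ring
  · have e2 : ∑ z : Bool × Bool × α, D.M (Sum.inr (ε, t, x)) (Sum.inr z) * vecX s f g u (Sum.inr z) =
        2 * ∑ y, D.P x y * (if ε then u y else g y) := by
      rw [Fintype.sum_prod_type]
      have h3 : ∀ ε' : Bool, ∑ z : Bool × α,
          D.M (Sum.inr (ε, t, x)) (Sum.inr (ε', z)) * vecX s f g u (Sum.inr (ε', z)) =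
          if ε = ε' then 2 * ∑ y, D.P x y * (if ε then u y else g y) else 0 := by
        intro ε'
        rw [Fintype.sum_prod_type]
        simp only [Fintype.sum_bool, Data.M, Data.X, Data.U, sg, vecX, if_true, Bool.false_eq_true,
          if_false]
        rw [← Finset.sum_add_distrib]
        by_cases h : ε = ε'
        · subst h
          simp only [if_true]
          rw [Finset.mul_sum]
          refine Finset.sum_congr rfl fun y _ => ?_
          ring
        · simp only [h, if_false]
          apply Finset.sum_eq_zero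
          intro y _
          ring
      rw [Finset.sum_congr rfl fun ε' _ => h3 ε', Finset.sum_ite_eq]
      simp
    rw [e2, Fintype.sum_prod_type]
    simp only [Fintype.sum_bool, Data.M, Data.G', vecX, vecZ]
    cases ε
    · simp only [Bool.false_eq_true, if_false, if_true, h1, sg]
      ring
    · simp only [Bool.false_eq_true, if_false, if_true, h2, sg]
      ring

end vector

/-! ### Sign functions -/

section signs

/-- two balanced sign functions with balanced product on a set whose cardinality is divisible by `4` -/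
theorem exists_signs {ι : Type} [Fintype ι] (h : 4 ∣ Fintype.card ι) (a : ι) :
    ∃ c w : ι → ℤ, (∀ m, c m = 1 ∨ c m = -1) ∧ (∀ m, w m = 1 ∨ w m = -1) ∧ ∑ m, c m = 0 ∧
      ∑ m, w m = 0 ∧ ∑ m, c m * w m = 0 ∧ c a = 1 := by
  obtain ⟨n, hn⟩ := h
  have hcard : Fintype.card ι = Fintype.card (Fin n × Bool × Bool) := by
    simp only [Fintype.card_prod, Fintype.card_fin, Fintype.card_bool, hn]
    ring
  let e : ι ≃ Fin n × Bool × Bool := Fintype.equivOfCardEq hcard
  have hsum : ∀ F : Bool → Bool → ℤ, F true true + F true false + (F false true + F false false) = 0 →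
      ∑ m, F (e m).2.1 (e m).2.2 = 0 := by
    intro F hF
    rw [Equiv.sum_comp e (fun z => F z.2.1 z.2.2), Fintype.sum_prod_type]
    apply Finset.sum_eq_zero
    intro i _
    rw [Fintype.sum_prod_type]
    simp only [Fintype.sum_bool]
    exact hF
  refine ⟨fun m => sg (e a).2.1 * sg (e m).2.1, fun m => sg (e m).2.2, ?_, fun m => sg_cases _,
    ?_, ?_, ?_, sg_sq _⟩
  · intro m
    rcases sg_cases (e a).2.1 with h | h <;> rcases sg_cases (e m).2.1 with h' | h' <;>
      simp only [h, h'] <;> norm_num
  · exact hsum (fun b _ => sg (e a).2.1 * sg b) (by simp only [sg]; norm_num)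
  · exact hsum (fun _ b => sg b) (by simp only [sg]; norm_num)
  · exact hsum (fun b b' => sg (e a).2.1 * sg b * sg b') (by simp only [sg]; norm_num)

/-- a sign function with sum `1` on a set of odd cardinality -/
theorem exists_one {ι : Type} [Fintype ι] (h : ¬ Even (Fintype.card ι)) :
    ∃ f : ι → ℤ, (∀ m, f m = 1 ∨ f m = -1) ∧ ∑ m, f m = 1 := by
  let e : ι ≃ Fin (Fintype.card ι) := Fintype.equivFin ι
  refine ⟨fun m => (-1) ^ ((e m : Fin _) : ℕ), fun m => neg_one_pow_eq_or ℤ _, ?_⟩
  rw [Equiv.sum_comp e (fun z : Fin (Fintype.card ι) => (-1 : ℤ) ^ (z : ℕ)), Fin.sum_neg_one_pow,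
    if_neg h]

end signs

/-- the regular Hadamard matrix -/
theorem plane_regular {K : Type} [Field K] [Fintype K] (h4 : Fintype.card K % 4 = 3)
    (hH : HasHad (Fintype.card K ^ 2 - 1)) :
    ∃ X : Matrix (Fin (4 * Fintype.card K ^ 2)) (Fin (4 * Fintype.card K ^ 2)) ℤ,
      (∀ i j, X i j = 1 ∨ X i j = -1) ∧ (∀ i, ∑ j, X i j = - (2 * Fintype.card K : ℤ)) ∧
      X * X.transpose = ((4 * Fintype.card K ^ 2 : ℕ) : ℤ) • 1 := by
  classical
  obtain ⟨H, hH1, hH2⟩ := hH
  have hH3 := had_transpose H hH2
  have hr : 0 < Fintype.card K := Fintype.card_pos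
  have hr2 : 1 ≤ Fintype.card K ^ 2 := Nat.one_le_pow _ _ hr
  have hc : Fintype.card {x : K × K // x ≠ 0} = Fintype.card K ^ 2 - 1 := by
    rw [Fintype.card_subtype_compl]
    simp [sq]
  let e : {x : K × K // x ≠ 0} ≃ Fin (Fintype.card K ^ 2 - 1) := Fintype.equivFinOfCardEq hc
  have hcast : ((Fintype.card K ^ 2 - 1 : ℕ) : ℤ) = (Fintype.card K : ℤ) ^ 2 - 1 := by
    rw [Nat.cast_sub hr2]; push_cast; ring
  obtain ⟨c, w, hc1, hw1, sc, sw, scw, c0⟩ := exists_signs (ι := Option K)
    (by rw [Fintype.card_option]; omega) none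
  obtain ⟨f, hf1, sf⟩ := exists_one (ι := K) (by rw [Nat.even_iff]; omega)
  let D : Data {x : K × K // x ≠ 0} := planeData c hc1 sc (fun x y => H (e x) (e y))
    (fun x y => hH1 _ _) (by
      intro x y
      rw [Equiv.sum_comp e (fun z => H (e x) z * H (e y) z)]
      have h2 := congrFun (congrFun hH2 (e x)) (e y)
      rw [Matrix.mul_apply] at h2
      simp only [Matrix.transpose_apply, Matrix.smul_apply, Matrix.one_apply] at h2
      rw [h2, hcast]
      by_cases hxy : x = y
      · subst hxy; simp
      · have : e x ≠ e y := fun h => hxy (e.injective h)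
        simp [hxy, this]) (by
      intro x y
      rw [Equiv.sum_comp e (fun z => H z (e x) * H z (e y))]
      have h2 := congrFun (congrFun hH3 (e x)) (e y)
      rw [Matrix.mul_apply] at h2
      simp only [Matrix.transpose_apply, Matrix.smul_apply, Matrix.one_apply] at h2
      rw [h2, hcast]
      by_cases hxy : x = y
      · subst hxy; simp
      · have : e x ≠ e y := fun h => hxy (e.injective h)
        simp [hxy, this])
  let g : {x : K × K // x ≠ 0} → ℤ := fun x => f (x : K × K).1
  let u : {x : K × K // x ≠ 0} → ℤ := fun x => hat w x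
  let v : {x : K × K // x ≠ 0} → ℤ := fun x => hat (fun m => c m * w m) x
  have hcw1 : ∀ m, c m * w m = 1 ∨ c m * w m = -1 := by
    intro m
    rcases hc1 m with h | h <;> rcases hw1 m with h' | h' <;> rw [h, h'] <;> norm_num
  have hg : ∀ x, g x = 1 ∨ g x = -1 := fun x => hf1 _
  have hu : ∀ x, u x = 1 ∨ u x = -1 := fun x => hat_of_ne w hw1 x.2
  have hv : ∀ x, v x = 1 ∨ v x = -1 := fun x => hat_of_ne _ hcw1 x.2
  have scs : ∑ a, c (some a) = -1 := by
    have := sc
    rw [Fintype.sum_option, c0] at this
    linarith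
  have hcf : ∀ p : K × K, ∑ q : K × K, hat c (p - q) * f q.1 = Fintype.card K * f p.1 - 1 := by
    intro p
    rw [hat_fun, c0, scs, sf]; ring
  have himg := image D (r := Fintype.card K) (s := 1) (f := f 0) (g := g) (u := u) (w := v)
    (by
      intro x
      change ∑ y : {x : K × K // x ≠ 0}, hat c ((x : K × K) - y) * f (y : K × K).1 =
        Fintype.card K * f (x : K × K).1 - 1 - hat c x * f 0
      rw [sum_ne (fun z => hat c ((x : K × K) - z) * f z.1), hcf, sub_zero]
      rfl)
    (by
      intro x
      change ∑ y : {x : K × K // x ≠ 0}, hat c ((x : K × K) - y) * hat w y =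
        Fintype.card K * hat (fun m => c m * w m) x
      rw [sum_ne (fun z => hat c ((x : K × K) - z) * hat w z), hat_zero w, sw, mul_zero, sub_zero]
      have h1 := hat_pair w c sw (x : K × K)
      have h2 : (fun m => w m * c m) = fun m => c m * w m := by funext m; ring
      rw [h2, scw, sub_zero] at h1
      rw [← h1]
      refine Finset.sum_congr rfl fun z _ => ?_
      rw [hat_sub, mul_comm])
    (by
      change ∑ y : {x : K × K // x ≠ 0}, f (y : K × K).1 = _
      rw [sum_ne (fun z => f z.1), Fintype.sum_prod_type]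
      simp only [Finset.sum_const, Finset.card_univ, nsmul_eq_mul, ← Finset.mul_sum, sf]
      rfl)
    (by
      change ∑ y : {x : K × K // x ≠ 0}, hat c y * f (y : K × K).1 = _
      rw [sum_ne (fun z => hat c z * f z.1), hat_zero c, sc, zero_mul, sub_zero]
      have h1 := hcf 0
      simp only [zero_sub, hat_neg] at h1
      exact h1)
    (by
      change ∑ y : {x : K × K // x ≠ 0}, hat w y = 0
      rw [sum_ne (fun z => hat w z), hat_sum w sw, hat_zero, sw, sub_zero])
    (by
      change ∑ y : {x : K × K // x ≠ 0}, hat c y * hat w y = 0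
      rw [sum_ne (fun z => hat c z * hat w z), hat_zero w, sw, mul_zero, sub_zero]
      have h1 := hat_pair c w sc (0 : K × K)
      rw [hat_zero, scw, mul_zero, sub_zero] at h1
      simpa only [sub_zero] using h1)
  set X : (Bool × Bool) ⊕ (Bool × Bool × {x : K × K // x ≠ 0}) → ℤ := vecX 1 (f 0) g u with hXdef
  set Z : (Bool × Bool) ⊕ (Bool × Bool × {x : K × K // x ≠ 0}) → ℤ := vecZ 1 (f 0) g v with hZdef
  have hX : ∀ q, X q = 1 ∨ X q = -1 := by
    rintro (l | ⟨ε, t, x⟩)
    · change (if l.2 then f 0 else 1) = 1 ∨ (if l.2 then f 0 else 1) = -1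
      cases l.2
      · left; rfl
      · exact hf1 0
    · cases ε
      · exact hg x
      · exact hu x
  have hZ : ∀ q, Z q = 1 ∨ Z q = -1 := by
    rintro (l | ⟨ε, t, x⟩)
    · change (if l.1 then - f 0 else 1 * sg l.2) = 1 ∨ (if l.1 then - f 0 else 1 * sg l.2) = -1
      cases l.1
      · rcases sg_cases l.2 with h | h <;> rw [h] <;> norm_num
      · rcases hf1 0 with h | h <;> rw [h] <;> norm_num
    · cases ε
      · exact hg x
      · exact hv x
  have hX2 : ∀ q, X q * X q = 1 := by
    intro q; rcases hX q with h | h <;> rw [h] <;> norm_num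
  have hZ2 : ∀ q, Z q * Z q = 1 := by
    intro q; rcases hZ q with h | h <;> rw [h] <;> norm_num
  have hcard : Fintype.card ((Bool × Bool) ⊕ (Bool × Bool × {x : K × K // x ≠ 0})) =
      4 * Fintype.card K ^ 2 := by
    simp only [Fintype.card_sum, Fintype.card_prod, Fintype.card_bool, hc]
    omega
  let E : Fin (4 * Fintype.card K ^ 2) ≃ (Bool × Bool) ⊕ (Bool × Bool × {x : K × K // x ≠ 0}) :=
    (Fintype.equivFinOfCardEq hcard).symm
  refine ⟨Matrix.of fun i j => - (Z (E i) * D.M (E i) (E j) * X (E j)), ?_, ?_, ?_⟩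
  · intro i j
    change - (Z (E i) * D.M (E i) (E j) * X (E j)) = 1 ∨ - (Z (E i) * D.M (E i) (E j) * X (E j)) = -1
    rcases hZ (E i) with h | h <;> rcases D.M_sign (E i) (E j) with h' | h' <;>
      rcases hX (E j) with h'' | h'' <;> rw [h, h', h''] <;> norm_num
  · intro i
    change ∑ j, - (Z (E i) * D.M (E i) (E j) * X (E j)) = _
    rw [Equiv.sum_comp E (fun q => - (Z (E i) * D.M (E i) q * X q))]
    have h1 : ∑ q, - (Z (E i) * D.M (E i) q * X q) = - (Z (E i) * ∑ q, D.M (E i) q * X q) := by
      rw [Finset.mul_sum, ← Finset.sum_neg_distrib]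
      exact Finset.sum_congr rfl fun q _ => by ring
    rw [h1, himg (E i)]
    linear_combination (- (2 * (Fintype.card K : ℤ))) * hZ2 (E i)
  · ext i j
    rw [Matrix.mul_apply, Matrix.smul_apply, Matrix.one_apply]
    change ∑ k, - (Z (E i) * D.M (E i) (E k) * X (E k)) * - (Z (E j) * D.M (E j) (E k) * X (E k)) = _
    rw [Equiv.sum_comp E (fun q => - (Z (E i) * D.M (E i) q * X q) * - (Z (E j) * D.M (E j) q * X q))]
    have h1 : ∑ q, - (Z (E i) * D.M (E i) q * X q) * - (Z (E j) * D.M (E j) q * X q) =
        Z (E i) * Z (E j) * ∑ q, D.M (E i) q * D.M (E j) q := by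
      rw [Finset.mul_sum]
      refine Finset.sum_congr rfl fun q _ => ?_
      linear_combination (Z (E i) * Z (E j) * D.M (E i) q * D.M (E j) q) * hX2 q
    rw [h1, D.main_row]
    by_cases h : i = j
    · subst h
      rw [if_pos rfl, if_pos rfl, hZ2]
      change 1 * (4 * (Fintype.card K : ℤ) ^ 2) = ((4 * Fintype.card K ^ 2 : ℕ) : ℤ) * 1
      push_cast
      ring
    · rw [if_neg h, if_neg fun h' => h (E.injective h')]
      simp

end Pool.Agent.V11295.PlaneMenon
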