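import Pool.Agent.W46.KK.Final

/-!
# Sets containing progressions whose common differences form an arbitrary set

Every sums-differences exponent `c` gives `N_δ(R) ≤ C N_δ(B) ^ c` at every scale `δ` for all bounded
sets `B` in `ℝ^n` that contain a `k`-term progression with every common difference in `R`; here
`k` depends only on the set of slopes (not on `n`), and `R` is arbitrary.
-/

set_option autoImplicit false

open Finset Filter Topology

namespace Pool.Agent.V11295.ProgAny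

open Pool.Agent.W46.KK

/-- Covering numbers of sets containing `k`-term progressions with all common differences in a
set `R`, against separated subsets of `R`. -/
theorem prog_any {c : ℝ} (h : SD c) (hc : 0 < c) :
    ∃ k : ℕ, 1 ≤ k ∧ ∀ n : ℕ, ∃ κ : ℝ, 0 < κ ∧ ∀ R B : Set (EuclideanSpace ℝ (Fin n)),
      (∀ r ∈ R, ∃ a : EuclideanSpace ℝ (Fin n), ∀ j : ℕ, j < k → a + (j : ℝ) • r ∈ B) →
      ∀ δ : ℝ, 0 < δ → ∀ (ι : Type) [Fintype ι] (U : ι → Set (EuclideanSpace ℝ (Fin n))),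
        (∀ i, ∀ x ∈ U i, ∀ y ∈ U i, dist x y ≤ δ) → B ⊆ ⋃ i, U i →
        ∀ Q : Finset (EuclideanSpace ℝ (Fin n)), (∀ r ∈ Q, r ∈ R) →
          (∀ x ∈ Q, ∀ y ∈ Q, x ≠ y → ∃ i, 2 * δ ≤ |x i - y i|) →
          (Q.card : ℝ) ≤ (κ * (Fintype.card ι : ℝ)) ^ c := by
  classical
  obtain ⟨S, hS⟩ := h
  -- times
  set sl : ℚ → ℚ := fun r => r / (1 + r) with hsl
  set η : ℕ := ∏ r ∈ S, (sl r).den with hη
  have hη1 : 1 ≤ η := by
    rw [hη]
    exact Finset.one_le_prod' fun r _ => (sl r).den_pos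
  have hint : ∀ r ∈ S, ∃ z : ℤ, (z : ℚ) = sl r * η := by
    intro r hr
    obtain ⟨m, hm⟩ := Finset.dvd_prod_of_mem (fun r => (sl r).den) hr
    refine ⟨(sl r).num * m, ?_⟩
    rw [← hη] at hm
    have h1 : (η : ℚ) = (sl r).den * m := by exact_mod_cast hm
    rw [h1, ← mul_assoc, Rat.mul_den_eq_num]
    push_cast
    ring
  choose! z hz using hint
  set t₀ : ℕ := ∑ r ∈ S, (z r).natAbs with ht₀
  have hle : ∀ r ∈ S, (z r).natAbs ≤ t₀ := fun r hr => by
    rw [ht₀]
    exact Finset.single_le_sum (f := fun r => (z r).natAbs) (fun _ _ => Nat.zero_le _) hr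
  set k : ℕ := 2 * t₀ + η + 1 with hk
  have hjr : ∀ r ∈ S, ∃ j : ℕ, j < k ∧ (j : ℝ) = (t₀ : ℝ) + (r : ℝ) / (1 + r) * (η : ℝ) := by
    intro r hr
    have h1 := hle r hr
    refine ⟨((t₀ : ℤ) + z r).toNat, by omega, ?_⟩
    have h2 : ((((t₀ : ℤ) + z r).toNat : ℤ)) = (t₀ : ℤ) + z r := Int.toNat_of_nonneg (by omega)
    have h3 : ((((t₀ : ℤ) + z r).toNat : ℝ)) = (t₀ : ℝ) + (z r : ℝ) := by exact_mod_cast h2
    rw [h3]
    have h4 : ((z r : ℚ) : ℝ) = ((sl r * η : ℚ) : ℝ) := by rw [hz r hr]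
    push_cast at h4
    rw [h4, hsl]
    push_cast
    ring
  refine ⟨k, by omega, fun n => ?_⟩
  obtain ⟨C, hC1, hcore⟩ := core hS hc.le n
  set D : ℝ := C * 3 ^ n with hD
  have hDpos : 0 < D := by positivity
  refine ⟨D, hDpos, ?_⟩
  intro R B hB δ hδ ι _ U hU hcov Q hQ hsep
  have hηR : (1 : ℝ) ≤ (η : ℝ) := by exact_mod_cast hη1
  have hηpos : (0 : ℝ) < (η : ℝ) := by linarith
  set V : Finset (Fin n → ℝ) := Q.image fun x => fun i => x i with hV
  have hVcard : V.card = Q.card := by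
    rw [hV]
    refine Finset.card_image_of_injective _ ?_
    intro x y hxy
    ext i
    exact congrFun hxy i
  -- base points
  have hex : ∀ v : Fin n → ℝ, ∃ a : Fin n → ℝ, (WithLp.toLp 2 v : EuclideanSpace ℝ (Fin n)) ∈ R →
      ∀ j : ℕ, j < k → WithLp.toLp 2 (fun i => a i + (j : ℝ) * v i) ∈ B := by
    intro v
    by_cases hv : (WithLp.toLp 2 v : EuclideanSpace ℝ (Fin n)) ∈ R
    · obtain ⟨a, ha⟩ := hB (WithLp.toLp 2 v) hv
      refine ⟨fun i => a i, fun _ j hj => ?_⟩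
      convert ha j hj using 1
      ext i
      simp
    · exact ⟨0, fun h' => absurd h' hv⟩
  choose p hp using hex
  have hVR : ∀ v ∈ V, (WithLp.toLp 2 v : EuclideanSpace ℝ (Fin n)) ∈ R := by
    intro v hv
    rw [hV, Finset.mem_image] at hv
    obtain ⟨x, hx, rfl⟩ := hv
    exact hQ x hx
  have hN : ∀ j : ℕ, j < k → ((V.image (pos δ p j)).card : ℝ) ≤ 3 ^ n * (Fintype.card ι : ℝ) := by
    intro j hj
    have h1 := card_cells (d := n) hδ (fun i => (WithLp.toLp 2) ⁻¹' (U i))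
      (fun i x hx y hy l => by
        have h2 := hU i _ hx _ hy
        refine le_trans ?_ h2
        rw [EuclideanSpace.dist_eq]
        have h3 : dist (x l) (y l) ^ 2 ≤ ∑ i, dist (x i) (y i) ^ 2 :=
          Finset.single_le_sum (f := fun i => dist (x i) (y i) ^ 2) (fun _ _ => sq_nonneg _)
            (Finset.mem_univ l)
        rw [← Real.dist_eq]
        exact Real.le_sqrt_of_sq_le h3)
      V (fun v i => p v i + (j : ℝ) * v i) (fun v hv => by
        have h2 := hp v (hVR v hv) j hj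
        have h3 := hcov h2
        rw [Set.mem_iUnion] at h3
        exact h3)
    exact_mod_cast h1
  have key := hcore δ hδ V p t₀ η hηpos (fun v hv w hw hne => by
      rw [hV, Finset.mem_image] at hv hw
      obtain ⟨x, hx, rfl⟩ := hv
      obtain ⟨y, hy, rfl⟩ := hw
      obtain ⟨i, hi⟩ := hsep x hx y hy (fun h' => hne (by rw [h']))
      refine ⟨i, le_trans ?_ hi⟩
      exact div_le_self (by positivity) hηR)
    (3 ^ n * (Fintype.card ι : ℝ))
    (by
      have := hN (t₀ + η) (by omega)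
      push_cast at this
      exact this)
    (by
      intro r hr
      obtain ⟨j, hj, hjr'⟩ := hjr r hr
      have := hN j hj
      rwa [hjr'] at this)
  rw [hVcard] at key
  refine key.trans (le_of_eq ?_)
  rw [hD, mul_assoc]

/-- the covering number is attained -/
theorem exists_cover {n : ℕ} {B : Set (EuclideanSpace ℝ (Fin n))} (hB : Bornology.IsBounded B)
    {δ : ℝ} (hδ : 0 < δ) : ∃ U : Fin (coverNum B δ) → Set (EuclideanSpace ℝ (Fin n)),
      (∀ i, ∀ x ∈ U i, ∀ y ∈ U i, dist x y ≤ δ) ∧ B ⊆ ⋃ i, U i :=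
  Nat.sInf_mem (cover_nonempty hB hδ)

/-- a set all of whose points are within `2 δ` in every coordinate of one of `m` points is covered
by `m (4 (n + 1)) ^ n` sets of diameter at most `δ` -/
theorem coverNum_le {n : ℕ} {R : Set (EuclideanSpace ℝ (Fin n))} {δ : ℝ} (hδ : 0 < δ)
    (Q : Finset (EuclideanSpace ℝ (Fin n)))
    (hQ : ∀ r ∈ R, ∃ q ∈ Q, ∀ i, |r i - q i| < 2 * δ) :
    coverNum R δ ≤ Q.card * (4 * (n + 1)) ^ n := by
  classical
  set m : ℕ := 4 * (n + 1) with hm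
  have hm0 : (0 : ℝ) < m := by
    have : 0 < m := by omega
    exact_mod_cast this
  set s : ℝ := 4 * δ / m with hs
  have hs0 : 0 < s := by positivity
  let cell : (Q × (Fin n → Fin m)) → Set (EuclideanSpace ℝ (Fin n)) := fun q =>
    {x | ∀ i, q.1.1 i - 2 * δ + (q.2 i : ℕ) * s ≤ x i ∧
      x i ≤ q.1.1 i - 2 * δ + ((q.2 i : ℕ) + 1) * s}
  have hcard : Fintype.card (Q × (Fin n → Fin m)) = Q.card * m ^ n := by
    rw [Fintype.card_prod, Fintype.card_coe, Fintype.card_pi, Finset.prod_const, Finset.card_univ,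
      Fintype.card_fin, Fintype.card_fin]
  let e := Fintype.equivFin (Q × (Fin n → Fin m))
  rw [← hcard]
  refine Nat.sInf_le ⟨fun i => cell (e.symm i), ?_, ?_⟩
  · intro i x hx y hy
    have h1 : ∀ l, |x l - y l| ≤ s := by
      intro l
      have h2 := hx l
      have h3 := hy l
      rw [abs_le]
      constructor
      · have := h2.1; have := h3.2; linarith
      · have := h2.2; have := h3.1; linarith
    rw [EuclideanSpace.dist_eq]
    have h4 : ∑ l, dist (x l) (y l) ^ 2 ≤ n * s ^ 2 := by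
      calc ∑ l, dist (x l) (y l) ^ 2 ≤ ∑ _l : Fin n, s ^ 2 := by
            refine Finset.sum_le_sum fun l _ => ?_
            rw [Real.dist_eq]
            exact pow_le_pow_left₀ (abs_nonneg _) (h1 l) 2
        _ = n * s ^ 2 := by
            rw [Finset.sum_const, Finset.card_univ, Fintype.card_fin, nsmul_eq_mul]
    refine Real.sqrt_le_iff.mpr ⟨hδ.le, h4.trans ?_⟩
    have h5 : s * (n + 1) = δ := by
      rw [hs, hm]
      push_cast
      field_simp
    have h6 : (n : ℝ) ≤ ((n : ℝ) + 1) ^ 2 := by nlinarith [Nat.cast_nonneg (α := ℝ) n]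
    calc (n : ℝ) * s ^ 2 ≤ ((n : ℝ) + 1) ^ 2 * s ^ 2 :=
          mul_le_mul_of_nonneg_right h6 (sq_nonneg _)
      _ = (s * (n + 1)) ^ 2 := by ring
      _ = δ ^ 2 := by rw [h5]
  · intro r hr
    obtain ⟨q, hq, hrq⟩ := hQ r hr
    have h1 : ∀ i, 0 ≤ (r i - q i + 2 * δ) / s ∧ (r i - q i + 2 * δ) / s < m := by
      intro i
      have h2 := abs_lt.mp (hrq i)
      constructor
      · refine div_nonneg ?_ hs0.le
        linarith [h2.1]
      · rw [div_lt_iff₀ hs0]
        have h3 : (m : ℝ) * s = 4 * δ := by rw [hs]; field_simp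
        rw [h3]
        linarith [h2.2]
    let l : Fin n → Fin m := fun i => ⟨⌊(r i - q i + 2 * δ) / s⌋₊, by
      have h2 := Nat.floor_lt (h1 i).1 |>.mpr (h1 i).2
      exact h2⟩
    rw [Set.mem_iUnion]
    refine ⟨e (⟨q, hq⟩, l), ?_⟩
    simp only [Equiv.symm_apply_apply]
    intro i
    have h2 := Nat.floor_le (h1 i).1
    have h3 := Nat.lt_floor_add_one ((r i - q i + 2 * δ) / s)
    rw [le_div_iff₀ hs0] at h2
    rw [div_lt_iff₀ hs0] at h3
    change q i - 2 * δ + (⌊(r i - q i + 2 * δ) / s⌋₊ : ℕ) * s ≤ r i ∧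
      r i ≤ q i - 2 * δ + ((⌊(r i - q i + 2 * δ) / s⌋₊ : ℕ) + 1) * s
    constructor <;> linarith

/-- Covering numbers at every scale, for arbitrary sets of common differences. -/
theorem cover_any {c : ℝ} (h : SD c) (hc : 0 < c) :
    ∃ k : ℕ, 1 ≤ k ∧ ∀ n : ℕ, ∃ C : ℝ, 0 < C ∧ ∀ R B : Set (EuclideanSpace ℝ (Fin n)),
      Bornology.IsBounded B →
      (∀ r ∈ R, ∃ a : EuclideanSpace ℝ (Fin n), ∀ j : ℕ, j < k → a + (j : ℝ) • r ∈ B) →
      ∀ δ : ℝ, 0 < δ → (coverNum R δ : ℝ) ≤ C * (coverNum B δ : ℝ) ^ c := by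
  classical
  obtain ⟨k, hk1, hk⟩ := prog_any h hc
  refine ⟨k, hk1, fun n => ?_⟩
  obtain ⟨κ, hκ, hmain⟩ := hk n
  refine ⟨((4 * (n + 1)) ^ n : ℕ) * κ ^ c, ?_, ?_⟩
  · have : 0 < (4 * (n + 1)) ^ n := by positivity
    have h1 : (0 : ℝ) < (((4 * (n + 1)) ^ n : ℕ) : ℝ) := by exact_mod_cast this
    have := Real.rpow_pos_of_pos hκ c
    positivity
  intro R B hB hR δ hδ
  obtain ⟨U, hU1, hU2⟩ := exists_cover hB hδ
  set N : ℝ := (coverNum B δ : ℝ) with hN
  have hN0 : 0 ≤ N := Nat.cast_nonneg _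
  set b : ℝ := (κ * N) ^ c with hb
  have hb0 : 0 ≤ b := Real.rpow_nonneg (by positivity) c
  let P : ℕ → Prop := fun m => ∃ Q : Finset (EuclideanSpace ℝ (Fin n)), (∀ r ∈ Q, r ∈ R) ∧
    (∀ x ∈ Q, ∀ y ∈ Q, x ≠ y → ∃ i, 2 * δ ≤ |x i - y i|) ∧ Q.card = m
  have hPb : ∀ m, P m → m ≤ ⌊b⌋₊ := by
    rintro m ⟨Q, h1, h2, rfl⟩
    have h3 := hmain R B hR δ hδ (Fin (coverNum B δ)) U hU1 hU2 Q h1 h2
    rw [Fintype.card_fin] at h3
    exact Nat.le_floor h3
  have hP0 : P 0 := ⟨∅, by simp, by simp, by simp⟩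
  set m₀ := Nat.findGreatest P ⌊b⌋₊ with hm₀
  have hPm : P m₀ := Nat.findGreatest_spec (P := P) (Nat.zero_le _) hP0
  obtain ⟨Q, hQ1, hQ2, hQ3⟩ := hPm
  have hnear : ∀ r ∈ R, ∃ q ∈ Q, ∀ i, |r i - q i| < 2 * δ := by
    intro r hr
    by_contra hcon
    push Not at hcon
    have hrQ : r ∉ Q := by
      intro hrQ
      obtain ⟨i, hi⟩ := hcon r hrQ
      rw [sub_self, abs_zero] at hi
      linarith
    have h1 : P (m₀ + 1) := by
      refine ⟨insert r Q, ?_, ?_, ?_⟩
      · intro x hx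
        rw [Finset.mem_insert] at hx
        rcases hx with rfl | hx
        · exact hr
        · exact hQ1 x hx
      · intro x hx y hy hxy
        rw [Finset.mem_insert] at hx hy
        rcases hx with rfl | hx
        · rcases hy with rfl | hy
          · exact absurd rfl hxy
          · exact hcon y hy
        · rcases hy with rfl | hy
          · obtain ⟨i, hi⟩ := hcon x hx
            refine ⟨i, ?_⟩
            rw [abs_sub_comm]
            exact hi
          · exact hQ2 x hx y hy hxy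
      · rw [Finset.card_insert_of_notMem hrQ, hQ3]
    have h2 := Nat.le_findGreatest (hPb _ h1) h1
    omega
  have h1 := coverNum_le hδ Q hnear
  have h2 : (m₀ : ℝ) ≤ b := by
    have h3 : m₀ ≤ ⌊b⌋₊ := Nat.findGreatest_le _
    exact le_trans (by exact_mod_cast h3) (Nat.floor_le hb0)
  calc (coverNum R δ : ℝ) ≤ ((Q.card * (4 * (n + 1)) ^ n : ℕ) : ℝ) := by exact_mod_cast h1
    _ = (m₀ : ℝ) * (((4 * (n + 1)) ^ n : ℕ) : ℝ) := by rw [hQ3, Nat.cast_mul]
    _ ≤ b * (((4 * (n + 1)) ^ n : ℕ) : ℝ) := mul_le_mul_of_nonneg_right h2 (Nat.cast_nonneg _)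
    _ = (((4 * (n + 1)) ^ n : ℕ) : ℝ) * κ ^ c * N ^ c := by
        rw [hb, Real.mul_rpow hκ.le hN0]
        ring

end Pool.Agent.V11295.ProgAny
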