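import Pool.Agent.V11295.ProgAny

/-!
# Minkowski dimensions of sets containing progressions, for arbitrary sets of common differences
-/

set_option autoImplicit false

open Finset Filter Topology

namespace Pool.Agent.V11295.ProgAny

open Pool.Agent.W46.KK

/-- Lower Minkowski dimension (lower box-counting dimension). -/
noncomputable def lowerMinkowski {n : ℕ} (B : Set (EuclideanSpace ℝ (Fin n))) : EReal :=
  liminf (fun δ : ℝ => ((Real.log (coverNum B δ) / Real.log (1 / δ) : ℝ) : EReal)) (𝓝[>] 0)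

/-- the ratio in the definition of the Minkowski dimensions -/
noncomputable def ratio {n : ℕ} (B : Set (EuclideanSpace ℝ (Fin n))) (δ : ℝ) : ℝ :=
  Real.log (coverNum B δ) / Real.log (1 / δ)

theorem log_inv_pos {δ : ℝ} (h0 : 0 < δ) (h1 : δ < 1) : 0 < Real.log (1 / δ) :=
  Real.log_pos (by rw [lt_div_iff₀ h0, one_mul]; exact h1)

theorem ratio_nonneg {n : ℕ} (B : Set (EuclideanSpace ℝ (Fin n))) {δ : ℝ} (h0 : 0 < δ)
    (h1 : δ < 1) : 0 ≤ ratio B δ := by
  unfold ratio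
  exact div_nonneg (Real.log_natCast_nonneg _) (log_inv_pos h0 h1).le

theorem eventually_small : ∀ᶠ δ : ℝ in 𝓝[>] (0 : ℝ), 0 < δ ∧ δ < 1 := Ioo_mem_nhdsGT one_pos

theorem eventually_log (A : ℝ) : ∀ᶠ δ : ℝ in 𝓝[>] (0 : ℝ), A < Real.log (1 / δ) := by
  have hlog : Tendsto Real.log (𝓝[>] 0) atBot := Real.tendsto_log_nhdsGT_zero
  filter_upwards [hlog.eventually (eventually_lt_atBot (-A))] with δ h
  rw [one_div, Real.log_inv]
  linarith

/-- comparison of the ratios -/
theorem ratio_le {n : ℕ} {c C : ℝ} (hc : 0 < c) (hC : 0 < C)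
    {R B : Set (EuclideanSpace ℝ (Fin n))}
    (h : ∀ δ : ℝ, 0 < δ → (coverNum R δ : ℝ) ≤ C * (coverNum B δ : ℝ) ^ c) {y ε : ℝ} (hy : 0 < y)
    (hε : 0 < ε) : ∀ᶠ δ : ℝ in 𝓝[>] (0 : ℝ), ratio B δ < y → ratio R δ ≤ c * y + ε := by
  filter_upwards [eventually_small, eventually_log (|Real.log C| / ε)] with δ h1 h2 h3
  have hL := log_inv_pos h1.1 h1.2
  unfold ratio at h3 ⊢
  rw [div_lt_iff₀ hL] at h3
  rw [div_le_iff₀ hL]
  rw [div_lt_iff₀ hε] at h2
  have h4 := h δ h1.1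
  rcases Nat.eq_zero_or_pos (coverNum R δ) with h5 | h5
  · rw [h5, Nat.cast_zero, Real.log_zero]
    positivity
  · have h6 : coverNum B δ ≠ 0 := by
      intro h7
      rw [h7, Nat.cast_zero, Real.zero_rpow hc.ne', mul_zero] at h4
      have : (0 : ℝ) < coverNum R δ := by exact_mod_cast h5
      linarith
    have h7 : (0 : ℝ) < coverNum B δ := by exact_mod_cast Nat.pos_of_ne_zero h6
    have h8 : Real.log (coverNum R δ) ≤ Real.log C + c * Real.log (coverNum B δ) := by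
      have h9 := Real.log_le_log (by exact_mod_cast h5) h4
      rwa [Real.log_mul hC.ne' (Real.rpow_pos_of_pos h7 c).ne', Real.log_rpow h7] at h9
    have h9 : Real.log C ≤ |Real.log C| := le_abs_self _
    have h10 : c * Real.log (coverNum B δ) ≤ c * (y * Real.log (1 / δ)) :=
      mul_le_mul_of_nonneg_left h3.le hc.le
    calc Real.log (coverNum R δ) ≤ Real.log C + c * Real.log (coverNum B δ) := h8
      _ ≤ Real.log (1 / δ) * ε + c * (y * Real.log (1 / δ)) := by linarith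
      _ = (c * y + ε) * Real.log (1 / δ) := by ring

/-- upper Minkowski dimension -/
theorem upper_of {n : ℕ} {c C : ℝ} (hc : 0 < c) (hC : 0 < C)
    {R B : Set (EuclideanSpace ℝ (Fin n))}
    (h : ∀ δ : ℝ, 0 < δ → (coverNum R δ : ℝ) ≤ C * (coverNum B δ : ℝ) ^ c) (s : ℝ)
    (hs : (s : EReal) ≤ upperMinkowski R) : ((s / c : ℝ) : EReal) ≤ upperMinkowski B := by
  by_contra hcon
  push Not at hcon
  obtain ⟨y, h1, h2⟩ := EReal.lt_iff_exists_real_btwn.mp hcon
  have h0 : (0 : EReal) ≤ upperMinkowski B := by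
    refine le_limsup_of_frequently_le (Eventually.frequently ?_) (by isBoundedDefault)
    filter_upwards [eventually_small] with δ hδ
    exact EReal.coe_nonneg.mpr (ratio_nonneg B hδ.1 hδ.2)
  have hy : 0 < y := by
    have := lt_of_le_of_lt h0 h1
    exact_mod_cast this
  have h2' : y < s / c := by exact_mod_cast h2
  rw [lt_div_iff₀ hc] at h2'
  have hε : 0 < (s - y * c) / 2 := by linarith
  have h3 : ∀ᶠ δ : ℝ in 𝓝[>] (0 : ℝ), ((ratio B δ : ℝ) : EReal) < y :=
    eventually_lt_of_limsup_lt h1 (by isBoundedDefault)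
  have h4 : upperMinkowski R ≤ ((c * y + (s - y * c) / 2 : ℝ) : EReal) := by
    refine limsup_le_of_le (by isBoundedDefault) ?_
    filter_upwards [h3, ratio_le hc hC h hy hε] with δ h5 h6
    exact EReal.coe_le_coe_iff.mpr (h6 (by exact_mod_cast h5))
  have h5 := hs.trans h4
  have h6 : s ≤ c * y + (s - y * c) / 2 := by exact_mod_cast h5
  linarith

/-- lower Minkowski dimension -/
theorem lower_of {n : ℕ} {c C : ℝ} (hc : 0 < c) (hC : 0 < C)
    {R B : Set (EuclideanSpace ℝ (Fin n))}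
    (h : ∀ δ : ℝ, 0 < δ → (coverNum R δ : ℝ) ≤ C * (coverNum B δ : ℝ) ^ c) (s : ℝ)
    (hs : (s : EReal) ≤ lowerMinkowski R) : ((s / c : ℝ) : EReal) ≤ lowerMinkowski B := by
  by_contra hcon
  push Not at hcon
  obtain ⟨y, h1, h2⟩ := EReal.lt_iff_exists_real_btwn.mp hcon
  have h0 : (0 : EReal) ≤ lowerMinkowski B := by
    refine le_liminf_of_le (by isBoundedDefault) ?_
    filter_upwards [eventually_small] with δ hδ
    exact EReal.coe_nonneg.mpr (ratio_nonneg B hδ.1 hδ.2)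
  have hy : 0 < y := by
    have := lt_of_le_of_lt h0 h1
    exact_mod_cast this
  have h2' : y < s / c := by exact_mod_cast h2
  rw [lt_div_iff₀ hc] at h2'
  have hε : 0 < (s - y * c) / 2 := by linarith
  have h3 : ∃ᶠ δ : ℝ in 𝓝[>] (0 : ℝ), ((ratio B δ : ℝ) : EReal) < y :=
    frequently_lt_of_liminf_lt (by isBoundedDefault) h1
  have h4 : lowerMinkowski R ≤ ((c * y + (s - y * c) / 2 : ℝ) : EReal) := by
    refine liminf_le_of_frequently_le ?_ (by isBoundedDefault)
    refine (h3.and_eventually (ratio_le hc hC h hy hε)).mono ?_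
    rintro δ ⟨h5, h6⟩
    exact EReal.coe_le_coe_iff.mpr (h6 (by exact_mod_cast h5))
  have h5 := hs.trans h4
  have h6 : s ≤ c * y + (s - y * c) / 2 := by exact_mod_cast h5
  linarith

/-- the unit cube -/
def cube (n : ℕ) : Set (EuclideanSpace ℝ (Fin n)) := {r | ∀ i, r i ∈ Set.Icc (0 : ℝ) 1}

theorem cube_bounded (n : ℕ) : Bornology.IsBounded (cube n) := by
  refine (Metric.isBounded_closedBall (x := (0 : EuclideanSpace ℝ (Fin n))) (r := n + 1)).subset ?_
  intro r hr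
  rw [Metric.mem_closedBall, dist_zero_right, EuclideanSpace.norm_eq]
  refine Real.sqrt_le_iff.mpr ⟨by positivity, ?_⟩
  calc ∑ i, ‖r i‖ ^ 2 ≤ ∑ _i : Fin n, (1 : ℝ) := by
        refine Finset.sum_le_sum fun i _ => ?_
        have h1 := hr i
        rw [Real.norm_eq_abs, sq_abs]
        nlinarith [h1.1, h1.2]
    _ = n := by simp
    _ ≤ ((n : ℝ) + 1) ^ 2 := by nlinarith [Nat.cast_nonneg (α := ℝ) n]

/-- covering numbers of the unit cube -/
theorem cube_cover (n : ℕ) {δ : ℝ} (hδ : 0 < δ) :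
    (1 / (2 * δ)) ^ n ≤ (coverNum (cube n) δ : ℝ) := by
  classical
  obtain ⟨U, hU1, hU2⟩ := exists_cover (cube_bounded n) hδ
  have hL : 0 < 2 * δ := by positivity
  refine (grid_card (d := n) hL).trans ?_
  have h1 : ∀ v : Fin n → ℝ, ∃ i : Fin (coverNum (cube n) δ), v ∈ grid n (2 * δ) →
      (WithLp.toLp 2 v : EuclideanSpace ℝ (Fin n)) ∈ U i := by
    intro v
    by_cases hv : v ∈ grid n (2 * δ)
    · have h2 : (WithLp.toLp 2 v : EuclideanSpace ℝ (Fin n)) ∈ cube n :=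
        fun i => grid_mem hL hv i
      obtain ⟨i, hi⟩ := Set.mem_iUnion.mp (hU2 h2)
      exact ⟨i, fun _ => hi⟩
    · have h2 : (0 : EuclideanSpace ℝ (Fin n)) ∈ cube n := by
        intro i
        simp
      obtain ⟨i, hi⟩ := Set.mem_iUnion.mp (hU2 h2)
      exact ⟨i, fun h => absurd h hv⟩
  choose f hf using h1
  have h2 : (grid n (2 * δ)).card ≤ (Finset.univ : Finset (Fin (coverNum (cube n) δ))).card := by
    refine Finset.card_le_card_of_injOn f (fun _ _ => Finset.mem_univ _) ?_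
    intro v hv w hw hvw
    by_contra hne
    obtain ⟨i, hi⟩ := grid_sep hL hv hw hne
    have h3 := hf v hv
    have h4 := hf w hw
    rw [← hvw] at h4
    have h5 := hU1 _ _ h3 _ h4
    have h6 : |v i - w i| ≤ δ := by
      refine le_trans ?_ h5
      rw [EuclideanSpace.dist_eq]
      have h7 : dist (v i) (w i) ^ 2 ≤ ∑ i, dist (v i) (w i) ^ 2 :=
        Finset.single_le_sum (f := fun i => dist (v i) (w i) ^ 2) (fun _ _ => sq_nonneg _)
          (Finset.mem_univ i)
      rw [← Real.dist_eq]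
      exact Real.le_sqrt_of_sq_le h7
    linarith
  rw [Finset.card_univ, Fintype.card_fin] at h2
  exact_mod_cast h2

/-- the unit cube has lower Minkowski dimension at least `n` -/
theorem cube_dim (n : ℕ) : ((n : ℝ) : EReal) ≤ lowerMinkowski (cube n) := by
  refine le_of_forall_lt fun x hx => ?_
  obtain ⟨y, hxy, hy⟩ := EReal.lt_iff_exists_real_btwn.mp hx
  refine lt_of_lt_of_le hxy ?_
  have hy' : y < (n : ℝ) := by exact_mod_cast hy
  refine le_liminf_of_le (by isBoundedDefault) ?_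
  filter_upwards [eventually_small, eventually_log (n * Real.log 2 / (n - y))] with δ h1 h2
  have hL := log_inv_pos h1.1 h1.2
  rw [EReal.coe_le_coe_iff, le_div_iff₀ hL]
  rw [div_lt_iff₀ (by linarith)] at h2
  have h3 := cube_cover n h1.1
  have h4 : 0 < (1 / (2 * δ)) ^ n := by
    have := h1.1
    positivity
  have h5 := Real.log_le_log h4 h3
  have h6 : Real.log ((1 / (2 * δ)) ^ n) = n * (Real.log (1 / δ) - Real.log 2) := by
    rw [Real.log_pow, show (1 / (2 * δ)) = (1 / δ) / 2 by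
      have := h1.1
      field_simp, Real.log_div (by have := h1.1; positivity) (by norm_num)]
  rw [h6] at h5
  nlinarith

theorem lower_le_upper {n : ℕ} (B : Set (EuclideanSpace ℝ (Fin n))) :
    lowerMinkowski B ≤ upperMinkowski B := by
  unfold lowerMinkowski upperMinkowski
  exact liminf_le_limsup (by isBoundedDefault) (by isBoundedDefault)

/-- All consequences of a sums-differences exponent `c`. -/
theorem main {c : ℝ} (h : SD c) (hc : 0 < c) :
    ∃ k₀ : ℕ, 1 ≤ k₀ ∧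
      (∀ n : ℕ, ∃ C : ℝ, 0 < C ∧ ∀ R B : Set (EuclideanSpace ℝ (Fin n)), Bornology.IsBounded B →
        (∀ r ∈ R, ∃ a : EuclideanSpace ℝ (Fin n), ∀ j : ℕ, j < k₀ → a + (j : ℝ) • r ∈ B) →
        (∀ δ : ℝ, 0 < δ → (coverNum R δ : ℝ) ≤ C * (coverNum B δ : ℝ) ^ c) ∧
        (∀ s : ℝ, (s : EReal) ≤ upperMinkowski R → ((s / c : ℝ) : EReal) ≤ upperMinkowski B) ∧
        (∀ s : ℝ, (s : EReal) ≤ lowerMinkowski R → ((s / c : ℝ) : EReal) ≤ lowerMinkowski B)) ∧
      (∀ n k : ℕ, k₀ ≤ k → ∀ B : Set (EuclideanSpace ℝ (Fin n)), Bornology.IsBounded B →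
        HasProgressions k B → (((n : ℝ) / c : ℝ) : EReal) ≤ lowerMinkowski B) ∧
      (∀ n k : ℕ, k₀ ≤ k → (((n : ℝ) / c : ℝ) : EReal) ≤ fM n k) := by
  obtain ⟨k₀, hk1, hk⟩ := cover_any h hc
  have hA : ∀ n : ℕ, ∃ C : ℝ, 0 < C ∧ ∀ R B : Set (EuclideanSpace ℝ (Fin n)),
      Bornology.IsBounded B →
      (∀ r ∈ R, ∃ a : EuclideanSpace ℝ (Fin n), ∀ j : ℕ, j < k₀ → a + (j : ℝ) • r ∈ B) →
      (∀ δ : ℝ, 0 < δ → (coverNum R δ : ℝ) ≤ C * (coverNum B δ : ℝ) ^ c) ∧
      (∀ s : ℝ, (s : EReal) ≤ upperMinkowski R → ((s / c : ℝ) : EReal) ≤ upperMinkowski B) ∧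
      (∀ s : ℝ, (s : EReal) ≤ lowerMinkowski R → ((s / c : ℝ) : EReal) ≤ lowerMinkowski B) := by
    intro n
    obtain ⟨C, hC, hn⟩ := hk n
    refine ⟨C, hC, fun R B hB hR => ?_⟩
    have h1 := hn R B hB hR
    exact ⟨h1, fun s hs => upper_of hc hC h1 s hs, fun s hs => lower_of hc hC h1 s hs⟩
  have hB : ∀ n k : ℕ, k₀ ≤ k → ∀ B : Set (EuclideanSpace ℝ (Fin n)), Bornology.IsBounded B →
      HasProgressions k B → (((n : ℝ) / c : ℝ) : EReal) ≤ lowerMinkowski B := by
    intro n k hkk B hB hP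
    obtain ⟨C, hC, hn⟩ := hA n
    refine (hn (cube n) B hB ?_).2.2 n (cube_dim n)
    intro r hr
    obtain ⟨a, ha⟩ := hP r hr
    exact ⟨a, fun j hj => ha j (lt_of_lt_of_le hj hkk)⟩
  refine ⟨k₀, hk1, hA, hB, fun n k hkk => ?_⟩
  unfold fM
  refine le_iInf fun B => le_iInf fun hB' => le_iInf fun hP => ?_
  exact (hB n k hkk B hB' hP).trans (lower_le_upper B)

end Pool.Agent.V11295.ProgAny
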