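import Pool.Agent.TH539.StrProjMain
import Pool.Agent.W46.KK.Core

/-!
# Progressions in sets covered by few sets of small doubling
-/

set_option autoImplicit false

open Finset
open scoped Pointwise

namespace Pool.Agent.V11295.StrCov

open Pool.Agent.H217R3.AK (proj projInf)
open Pool.Agent.TH539.StrProj (Structured)

/-- the additive map `z ↦ q ∑ z_i M^i` -/
def psi {d : ℕ} (M : ℤ) (q : ℚ) : (Fin d → ℤ) →+ ℚ where
  toFun z := q * ((∑ i, z i * M ^ (i : ℕ) : ℤ) : ℚ)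
  map_zero' := by simp
  map_add' x y := by
    rw [← mul_add, ← Int.cast_add, ← Finset.sum_add_distrib]
    congr 2
    exact Finset.sum_congr rfl fun i _ => by rw [Pi.add_apply, add_mul]

theorem psi_apply {d : ℕ} (M : ℤ) (q : ℚ) (z : Fin d → ℤ) :
    psi M q z = q * ((∑ i, z i * M ^ (i : ℕ) : ℤ) : ℚ) := rfl

theorem structured_image {d : ℕ} {K L M : ℝ} {N : ℤ} {q : ℚ} (hq : q ≠ 0)
    {𝒟 : Finset (Finset (Fin d → ℤ))} (hL : (𝒟.card : ℝ) ≤ L)
    (hD : ∀ D ∈ 𝒟, ((D + D).card : ℝ) ≤ K * D.card ∧ (D.card : ℝ) ≤ M)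
    (hinj : ∀ D ∈ 𝒟, ∀ z ∈ D, ∀ w ∈ D,
      ∑ i, z i * N ^ (i : ℕ) = ∑ i, w i * N ^ (i : ℕ) → z = w)
    {P : Finset ℚ} (hP : ∀ x ∈ P, ∃ D ∈ 𝒟, ∃ z ∈ D, psi N q z = x) : Structured K L M P := by
  classical
  refine ⟨𝒟.image fun D => D.image (psi N q), ?_, ?_, ?_⟩
  · refine le_trans ?_ hL
    exact_mod_cast Finset.card_image_le
  · intro E hE
    obtain ⟨D, hD1, rfl⟩ := Finset.mem_image.1 hE
    have h1 : (D.image (psi N q)).card = D.card := by
      refine Finset.card_image_of_injOn ?_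
      intro z hz w hw h
      have h' : psi N q z = psi N q w := h
      rw [psi_apply, psi_apply] at h'
      have h'' := mul_left_cancel₀ hq h'
      exact hinj D hD1 z hz w hw (by exact_mod_cast h'')
    have h2 : ((D.image (psi N q) + D.image (psi N q)).card : ℝ) ≤ (D + D).card := by
      rw [← Finset.image_add]
      exact_mod_cast Finset.card_image_le
    rw [h1]
    exact ⟨h2.trans (hD D hD1).1, (hD D hD1).2⟩
  · intro x hx
    obtain ⟨D, hD1, z, hz, rfl⟩ := hP x hx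
    exact ⟨D.image (psi N q), Finset.mem_image.2 ⟨D, hD1, rfl⟩, Finset.mem_image.2 ⟨z, hz, rfl⟩⟩

/-- The discrete inequality. -/
theorem disc (k : ℕ) : ∃ C : ℕ, ∀ (d : ℕ) (V : Finset (Fin d → ℤ))
    (a : (Fin d → ℤ) → (Fin d → ℤ)), V.Nonempty → ∀ (K L M : ℝ)
    (𝒟 : Finset (Finset (Fin d → ℤ))), (𝒟.card : ℝ) ≤ L →
    (∀ D ∈ 𝒟, ((D + D).card : ℝ) ≤ K * D.card ∧ (D.card : ℝ) ≤ M) →
    (∀ v ∈ V, ∀ j : ℕ, j < k + 1 → ∃ D ∈ 𝒟, a v + (j : ℤ) • v ∈ D) →
    (V.card : ℝ) ^ k ≤ (K * L) ^ C * M ^ (k + 1) := by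
  classical
  set S : Finset ℚ := (Finset.Icc 1 k).image fun j : ℕ => 1 / (j : ℚ) - 1 with hS
  have hScard : S.card = k := by
    rw [hS, Finset.card_image_of_injOn, Nat.card_Icc, Nat.add_sub_cancel]
    intro i hi j hj h
    have hi1 : 1 ≤ i := (Finset.mem_Icc.1 hi).1
    have hj1 : 1 ≤ j := (Finset.mem_Icc.1 hj).1
    have h1 : (1 : ℚ) / i - 1 = 1 / j - 1 := h
    have h2 : (i : ℚ) ≠ 0 := by positivity
    have h3 : (j : ℚ) ≠ 0 := by positivity
    have h4 : (i : ℚ) = j := by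
      field_simp at h1
      linarith
    exact_mod_cast h4
  have hS1 : (-1 : ℚ) ∉ S := by
    rw [hS]
    intro h
    obtain ⟨j, hj, h1⟩ := Finset.mem_image.1 h
    have hj1 : 1 ≤ j := (Finset.mem_Icc.1 hj).1
    have h3 : (j : ℚ) ≠ 0 := by positivity
    have h4 : (1 : ℚ) / j ≠ 0 := by positivity
    apply h4
    linarith
  obtain ⟨C, hC⟩ := Pool.Agent.TH539.StrProj.main1 S hS1
  refine ⟨C, ?_⟩
  intro d V a hV K L M 𝒟 hL hD hA
  obtain ⟨N, hN⟩ := Pool.Agent.W46.KK.exists_hom (V ∪ 𝒟.sup id)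
  let φ : (Fin d → ℤ) → ℤ := fun z => ∑ i, z i * N ^ (i : ℕ)
  have hφadd : ∀ z w, φ (z + w) = φ z + φ w := by
    intro z w
    simp only [φ, Pi.add_apply, add_mul, Finset.sum_add_distrib]
  have hφmul : ∀ (c : ℤ) z, φ (c • z) = c * φ z := by
    intro c z
    simp only [φ, Pi.smul_apply, smul_eq_mul, Finset.mul_sum, mul_assoc]
  have hinj : ∀ D ∈ 𝒟, ∀ z ∈ D, ∀ w ∈ D,
      ∑ i, z i * N ^ (i : ℕ) = ∑ i, w i * N ^ (i : ℕ) → z = w := by
    intro D hD1 z hz w hw h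
    have hsub : D ⊆ 𝒟.sup id := Finset.le_sup (f := id) hD1
    exact hN z (Finset.mem_union_right _ (hsub hz)) w (Finset.mem_union_right _ (hsub hw)) h
  set A : Finset (ℤ × ℤ) := V.image fun v => (φ (a v) + φ v, φ (a v)) with hAdef
  have h0 : Structured K L M (projInf A) := by
    refine structured_image (q := 1) one_ne_zero hL hD hinj ?_
    intro x hx
    obtain ⟨p, hp, rfl⟩ := Finset.mem_image.1 hx
    obtain ⟨v, hv, rfl⟩ := Finset.mem_image.1 hp
    obtain ⟨D, hD1, hD2⟩ := hA v hv 0 (by omega)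
    refine ⟨D, hD1, _, hD2, ?_⟩
    rw [psi_apply]
    simp [φ]
  have h1 : ∀ r ∈ S, Structured K L M (proj r A) := by
    intro r hr
    obtain ⟨j, hj, rfl⟩ := Finset.mem_image.1 hr
    have hj1 := Finset.mem_Icc.1 hj
    have h3 : (j : ℚ) ≠ 0 := by have := hj1.1; positivity
    refine structured_image (q := 1 / (j : ℚ)) (by positivity) hL hD hinj ?_
    intro x hx
    obtain ⟨p, hp, rfl⟩ := Finset.mem_image.1 hx
    obtain ⟨v, hv, rfl⟩ := Finset.mem_image.1 hp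
    obtain ⟨D, hD1, hD2⟩ := hA v hv j (by omega)
    refine ⟨D, hD1, _, hD2, ?_⟩
    rw [psi_apply]
    have h4 : (∑ i, (a v + (j : ℤ) • v) i * N ^ (i : ℕ)) = φ (a v) + (j : ℤ) * φ v := by
      have h5 : (∑ i, (a v + (j : ℤ) • v) i * N ^ (i : ℕ)) = φ (a v + (j : ℤ) • v) := rfl
      rw [h5, hφadd, hφmul]
    rw [h4]
    push_cast
    field_simp
    ring
  have hne : A.Nonempty := hV.image _
  have key := hC A hne K L M h0 h1
  rw [hScard] at key
  have hcard : (proj (-1) A).card = V.card := by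
    have h5 : proj (-1) A = V.image fun v => ((φ v : ℤ) : ℚ) := by
      unfold proj
      rw [hAdef, Finset.image_image]
      refine Finset.image_congr fun v _ => ?_
      simp
    rw [h5]
    refine Finset.card_image_of_injOn ?_
    intro v hv w hw h
    have h6 : ((φ v : ℤ) : ℚ) = (φ w : ℤ) := h
    exact hN v (Finset.mem_union_left _ hv) w (Finset.mem_union_left _ hw) (by exact_mod_cast h6)
  rwa [hcard] at key

end Pool.Agent.V11295.StrCov
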