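import Pool.Agent.V11295.StrCov
import Pool.Agent.V11295.ProgDim

/-!
# Sets in `ℝ^n` containing progressions and covered at some scale by few sets of small doubling
-/

set_option autoImplicit false

open Finset Filter Topology
open scoped Pointwise

namespace Pool.Agent.V11295.StrCov

open Pool.Agent.W46.KK Pool.Agent.V11295.ProgAny

/-- the cell of side `δ` containing `x` -/
noncomputable def cell {n : ℕ} (δ : ℝ) (x : EuclideanSpace ℝ (Fin n)) : Fin n → ℤ :=
  fun i => ⌊x i / δ⌋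

/-- the cells of side `δ` that meet `B` are covered by at most `L` finite sets `D` of cells with
`|D + D| ≤ K |D|` and `|D| ≤ M` -/
def Str {n : ℕ} (K L M δ : ℝ) (B : Set (EuclideanSpace ℝ (Fin n))) : Prop :=
  ∃ 𝒟 : Finset (Finset (Fin n → ℤ)), (𝒟.card : ℝ) ≤ L ∧
    (∀ D ∈ 𝒟, ((D + D).card : ℝ) ≤ K * D.card ∧ (D.card : ℝ) ≤ M) ∧
    ∀ x ∈ B, ∃ D ∈ 𝒟, cell δ x ∈ D

theorem floor_add {α ρ : ℝ} (j : ℕ) : ∃ e : ℤ, 0 ≤ e ∧ e ≤ j ∧
    ⌊α⌋ + (j : ℤ) * ⌊ρ⌋ = ⌊α + j * ρ⌋ - e := by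
  refine ⟨⌊α + j * ρ⌋ - (⌊α⌋ + (j : ℤ) * ⌊ρ⌋), ?_, ?_, by ring⟩
  · rw [sub_nonneg]
    refine Int.le_floor.2 ?_
    push_cast
    have h1 := Int.floor_le α
    have h2 := Int.floor_le ρ
    have h3 : (j : ℝ) * ⌊ρ⌋ ≤ j * ρ := mul_le_mul_of_nonneg_left h2 (Nat.cast_nonneg _)
    linarith
  · have h4 : ⌊α + j * ρ⌋ < ⌊α⌋ + (j : ℤ) * ⌊ρ⌋ + j + 1 := by
      refine Int.floor_lt.2 ?_
      push_cast
      have h1 := Int.lt_floor_add_one α
      have h2 := (Int.lt_floor_add_one ρ).le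
      have h3 : (j : ℝ) * ρ ≤ j * (⌊ρ⌋ + 1) := mul_le_mul_of_nonneg_left h2 (Nat.cast_nonneg _)
      linarith
    linarith

/-- one scale, arbitrary sets of common differences -/
theorem one_scale (k : ℕ) : ∃ C : ℕ, ∀ n : ℕ, ∃ b : ℝ, 0 < b ∧
    ∀ (R B : Set (EuclideanSpace ℝ (Fin n))),
      (∀ r ∈ R, ∃ a : EuclideanSpace ℝ (Fin n), ∀ j : ℕ, j < k + 1 → a + (j : ℝ) • r ∈ B) →
      ∀ δ K L M : ℝ, 0 < δ → Str K L M δ B →
      ∀ V : Finset (Fin n → ℤ), V.Nonempty → (∀ v ∈ V, ∃ r ∈ R, cell δ r = v) →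
        (V.card : ℝ) ^ k ≤ b * ((K * L) ^ C * M ^ (k + 1)) := by
  classical
  obtain ⟨C, hC⟩ := disc k
  refine ⟨C, fun n => ?_⟩
  set Box : Finset (Fin n → ℤ) := Fintype.piFinset fun _ => Finset.Icc (-(k : ℤ)) 0 with hBox
  have hBne : Box.Nonempty := ⟨0, by simp [hBox]⟩
  set s : ℝ := (Box.card : ℝ) with hs
  have hs0 : 0 < s := by
    have : 0 < Box.card := hBne.card_pos
    rw [hs]
    exact_mod_cast this
  refine ⟨(s ^ 2) ^ C * s ^ (k + 1), by positivity, ?_⟩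
  intro R B hB δ K L M hδ hStr V hV hVR
  obtain ⟨𝒟, hL, hD, hcov⟩ := hStr
  choose! r hrR hrv using hVR
  choose! a ha using hB
  have h1 : ∀ D ∈ 𝒟.image (· + Box), ((D + D).card : ℝ) ≤ (s ^ 2 * K) * D.card ∧
      (D.card : ℝ) ≤ s * M := by
    intro E hE
    obtain ⟨D, hD1, rfl⟩ := Finset.mem_image.1 hE
    obtain ⟨hK, hM⟩ := hD D hD1
    rcases D.eq_empty_or_nonempty with rfl | hne
    · have hM' : 0 ≤ M := by simpa using hM
      simp only [Finset.empty_add, Finset.card_empty, Nat.cast_zero, mul_zero, le_refl, true_and]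
      positivity
    · have h2 : (D.card : ℝ) ≤ ((D + Box).card : ℝ) := by
        exact_mod_cast Finset.card_le_card_add_right hBne
      have hDpos : (0 : ℝ) < D.card := by exact_mod_cast hne.card_pos
      have hDD : (0 : ℝ) < (D + D).card := by exact_mod_cast (hne.add hne).card_pos
      have hK0 : 0 < K := by
        by_contra hcon
        push Not at hcon
        have := mul_nonpos_of_nonpos_of_nonneg hcon hDpos.le
        linarith
      constructor
      · have h3 : ((D + Box + (D + Box)).card : ℝ) ≤ ((D + D).card : ℝ) * (s * s) := by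
          have e : D + Box + (D + Box) = (D + D) + (Box + Box) := by
            rw [add_add_add_comm]
          rw [e]
          calc (((D + D) + (Box + Box)).card : ℝ) ≤ ((D + D).card : ℝ) * (Box + Box).card := by
                exact_mod_cast Finset.card_add_le
            _ ≤ ((D + D).card : ℝ) * (s * s) := by
                refine mul_le_mul_of_nonneg_left ?_ (Nat.cast_nonneg _)
                rw [hs]
                exact_mod_cast Finset.card_add_le
        calc ((D + Box + (D + Box)).card : ℝ) ≤ ((D + D).card : ℝ) * (s * s) := h3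
          _ ≤ (K * D.card) * (s * s) := mul_le_mul_of_nonneg_right hK (by positivity)
          _ ≤ (K * (D + Box).card) * (s * s) :=
              mul_le_mul_of_nonneg_right (mul_le_mul_of_nonneg_left h2 hK0.le) (by positivity)
          _ = s ^ 2 * K * (D + Box).card := by ring
      · calc ((D + Box).card : ℝ) ≤ (D.card : ℝ) * Box.card := by exact_mod_cast Finset.card_add_le
          _ ≤ M * s := mul_le_mul_of_nonneg_right hM hs0.le
          _ = s * M := by ring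
  have h2 : ((𝒟.image (· + Box)).card : ℝ) ≤ L := by
    refine le_trans ?_ hL
    exact_mod_cast Finset.card_image_le
  have key := hC n V (fun v => cell δ (a (r v))) hV (s ^ 2 * K) L (s * M) (𝒟.image (· + Box)) h2 h1
    (by
      intro v hv j hj
      obtain ⟨D, hD1, hD2⟩ := hcov _ (ha (r v) (hrR v hv) j hj)
      refine ⟨D + Box, Finset.mem_image.2 ⟨D, hD1, rfl⟩, ?_⟩
      have h3 : ∀ i, ∃ e : ℤ, 0 ≤ e ∧ e ≤ j ∧
          (cell δ (a (r v)) + (j : ℤ) • v) i = cell δ (a (r v) + (j : ℝ) • r v) i - e := by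
        intro i
        obtain ⟨e, he0, he1, he2⟩ := floor_add (α := a (r v) i / δ) (ρ := r v i / δ) j
        refine ⟨e, he0, he1, ?_⟩
        have h4 : v i = ⌊r v i / δ⌋ := by
          conv_lhs => rw [← hrv v hv]
          rfl
        have h5 : (cell δ (a (r v)) + (j : ℤ) • v) i
            = ⌊a (r v) i / δ⌋ + (j : ℤ) * ⌊r v i / δ⌋ := by
          rw [Pi.add_apply, Pi.smul_apply, smul_eq_mul, h4]
          rfl
        have h6 : cell δ (a (r v) + (j : ℝ) • r v) i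
            = ⌊a (r v) i / δ + j * (r v i / δ)⌋ := by
          have h7 : (a (r v) + (j : ℝ) • r v) i / δ = a (r v) i / δ + j * (r v i / δ) := by
            rw [PiLp.add_apply, PiLp.smul_apply, smul_eq_mul]
            ring
          unfold cell
          rw [h7]
        rw [h5, h6, he2]
      choose e he0 he1 he2 using h3
      refine Finset.mem_add.2 ⟨_, hD2, fun i => -e i, ?_, ?_⟩
      · rw [hBox, Fintype.mem_piFinset]
        intro i
        rw [Finset.mem_Icc]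
        have := he0 i
        have := he1 i
        constructor <;> omega
      · funext i
        rw [he2 i, Pi.add_apply]
        ring)
  refine key.trans (le_of_eq ?_)
  rw [show s ^ 2 * K * L = s ^ 2 * (K * L) by ring, mul_pow (s ^ 2) (K * L) C, mul_pow s M (k + 1)]
  ring

/-- cells of the unit cube -/
theorem cube_cells (n : ℕ) {δ : ℝ} (hδ : 0 < δ) : ∃ V : Finset (Fin n → ℤ), V.Nonempty ∧
    (∀ v ∈ V, ∃ r ∈ cube n, cell δ r = v) ∧ (1 / δ) ^ n ≤ (V.card : ℝ) := by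
  classical
  have hf0 : 0 ≤ ⌊1 / δ⌋ := Int.floor_nonneg.2 (by positivity)
  refine ⟨Fintype.piFinset fun _ => Finset.Icc 0 ⌊1 / δ⌋, ?_, ?_, ?_⟩
  · refine ⟨0, Fintype.mem_piFinset.2 fun i => Finset.mem_Icc.2 ⟨le_refl _, hf0⟩⟩
  · intro v hv
    rw [Fintype.mem_piFinset] at hv
    refine ⟨WithLp.toLp 2 fun i => δ * (v i : ℝ), ?_, ?_⟩
    · intro i
      have h1 := Finset.mem_Icc.1 (hv i)
      have h2 : (0 : ℝ) ≤ v i := by exact_mod_cast h1.1
      have h3 : (v i : ℝ) ≤ 1 / δ := Int.le_floor.1 h1.2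
      refine ⟨by positivity, ?_⟩
      show δ * (v i : ℝ) ≤ 1
      calc δ * (v i : ℝ) ≤ δ * (1 / δ) := mul_le_mul_of_nonneg_left h3 hδ.le
        _ = 1 := by field_simp
    · funext i
      show ⌊δ * (v i : ℝ) / δ⌋ = v i
      rw [mul_div_cancel_left₀ _ hδ.ne', Int.floor_intCast]
  · rw [Fintype.card_piFinset, Finset.prod_const, Finset.card_univ, Fintype.card_fin, Int.card_Icc]
    push_cast
    refine pow_le_pow_left₀ (by positivity) ?_ n
    have h1 := (Int.lt_floor_add_one (1 / δ)).le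
    have h2 : ((⌊1 / δ⌋ + 1 - 0).toNat : ℤ) = ⌊1 / δ⌋ + 1 - 0 := Int.toNat_of_nonneg (by omega)
    have h3 : (((⌊1 / δ⌋ + 1 - 0).toNat : ℤ) : ℝ) = ((⌊1 / δ⌋ + 1 - 0 : ℤ) : ℝ) := by rw [h2]
    have h4 : (((⌊1 / δ⌋ + 1 - 0).toNat : ℕ) : ℝ) = ⌊1 / δ⌋ + 1 := by
      rw [← Int.cast_natCast, h3]
      push_cast
      ring
    rw [h4]
    exact h1

/-- one scale, all common differences in the cube, with exponents -/
theorem no_cover (n k : ℕ) (ε : ℝ) (hk : (n : ℝ) < ε * (k + 1)) : ∃ η : ℝ, 0 < η ∧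
    ∃ δ₀ : ℝ, 0 < δ₀ ∧ ∀ B : Set (EuclideanSpace ℝ (Fin n)), HasProgressions (k + 1) B →
      ∀ δ : ℝ, 0 < δ → δ < δ₀ →
        ¬ Str (δ ^ (-η)) (δ ^ (-η)) (δ ^ (-((n : ℝ) - ε))) δ B := by
  obtain ⟨C, hC⟩ := one_scale k
  obtain ⟨b, hb, h⟩ := hC n
  set g₀ : ℝ := ε * (k + 1) - n with hg₀
  have hg0 : 0 < g₀ := by linarith
  set η : ℝ := g₀ / (4 * C + 4) with hη
  have hC4 : (0 : ℝ) < 4 * C + 4 := by positivity
  have hη0 : 0 < η := by positivity
  have hηg : 2 * η * C < g₀ / 2 := by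
    have h1 : η * (4 * C + 4) = g₀ := by rw [hη]; field_simp
    nlinarith
  set g : ℝ := g₀ - 2 * η * C with hg
  have hgpos : 0 < g := by linarith
  refine ⟨η, hη0, (b + 1) ^ (-(1 / g)), by positivity, ?_⟩
  intro B hB δ hδ hδ0 hStr
  obtain ⟨V, hV, hVc, hVn⟩ := cube_cells n hδ
  have key := h (cube n) B (fun r hr => hB r hr) δ _ _ _ hδ hStr V hV hVc
  have h1 : ((1 / δ) ^ n) ^ k ≤ (V.card : ℝ) ^ k := pow_le_pow_left₀ (by positivity) hVn k
  have h2 : (δ ^ (-η) * δ ^ (-η)) ^ C * (δ ^ (-((n : ℝ) - ε))) ^ (k + 1)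
      = δ ^ (-(2 * η * C) - ((n : ℝ) - ε) * (k + 1)) := by
    rw [← Real.rpow_add hδ, ← Real.rpow_mul_natCast hδ.le, ← Real.rpow_mul_natCast hδ.le,
      ← Real.rpow_add hδ]
    congr 1
    push_cast
    ring
  have h3 : ((1 / δ) ^ n) ^ k = δ ^ (-((n : ℝ) * k)) := by
    rw [← pow_mul, one_div, inv_pow, ← Real.rpow_natCast, ← Real.rpow_neg hδ.le]
    congr 1
    push_cast
    ring
  rw [h2] at key
  rw [h3] at h1
  have h4 := h1.trans key
  have h5 : δ ^ (-((n : ℝ) * k)) = δ ^ (-g) *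
      δ ^ (-(2 * η * C) - ((n : ℝ) - ε) * (k + 1)) := by
    rw [← Real.rpow_add hδ]
    congr 1
    rw [hg, hg₀]
    ring
  rw [h5] at h4
  have h6 : 0 < δ ^ (-(2 * η * C) - ((n : ℝ) - ε) * (k + 1)) := Real.rpow_pos_of_pos hδ _
  have h7 : δ ^ (-g) ≤ b := le_of_mul_le_mul_right h4 h6
  have h8 : b + 1 < δ ^ (-g) := by
    have h9 : ((b + 1) ^ (-(1 / g))) ^ (-g) < δ ^ (-g) :=
      Real.rpow_lt_rpow_of_neg hδ hδ0 (by linarith)
    rw [← Real.rpow_mul (by positivity)] at h9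
    have h10 : -(1 / g) * -g = 1 := by field_simp
    rw [h10, Real.rpow_one] at h9
    exact h9
  linarith

end Pool.Agent.V11295.StrCov
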