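import Pool.Agent.V11295.StrCov2

/-!
# Minkowski dimension of sets containing progressions and structured at arbitrarily small scales
-/

set_option autoImplicit false

open Finset Filter Topology
open scoped Pointwise

namespace Pool.Agent.V11295.StrCov

open Pool.Agent.W46.KK Pool.Agent.V11295.ProgAny

/-- the number of cells meeting a bounded set -/
theorem ncard_cells {n : ℕ} {B : Set (EuclideanSpace ℝ (Fin n))} (hB : Bornology.IsBounded B)
    {δ : ℝ} (hδ : 0 < δ) : ((cell δ '' B).ncard : ℝ) ≤ 3 ^ n * (coverNum B δ : ℝ) := by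
  classical
  rcases (cell δ '' B).finite_or_infinite with hfin | hinf
  · obtain ⟨U, hU1, hU2⟩ := exists_cover hB hδ
    set V : Finset (Fin n → ℤ) := hfin.toFinset with hV
    have hex : ∀ v ∈ V, ∃ x ∈ B, cell δ x = v := by
      intro v hv
      rw [hV, Set.Finite.mem_toFinset] at hv
      exact hv
    choose! x hxB hxv using hex
    have h1 := card_cells (d := n) hδ (fun i => (WithLp.toLp 2) ⁻¹' (U i))
      (fun i x hx y hy l => by
        have h2 := hU1 i _ hx _ hy
        refine le_trans ?_ h2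
        rw [EuclideanSpace.dist_eq]
        have h3 : dist (x l) (y l) ^ 2 ≤ ∑ i, dist (x i) (y i) ^ 2 :=
          Finset.single_le_sum (f := fun i => dist (x i) (y i) ^ 2) (fun _ _ => sq_nonneg _)
            (Finset.mem_univ l)
        rw [← Real.dist_eq]
        exact Real.le_sqrt_of_sq_le h3)
      V (fun v i => x v i) (fun v hv => by
        have h3 := hU2 (hxB v hv)
        rw [Set.mem_iUnion] at h3
        exact h3)
    have h2 : (V.image fun v => fl δ (fun i => x v i)) = V := by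
      ext w
      rw [Finset.mem_image]
      constructor
      · rintro ⟨v, hv, rfl⟩
        have : fl δ (fun i => x v i) = v := hxv v hv
        rw [this]
        exact hv
      · intro hw
        exact ⟨w, hw, hxv w hw⟩
    rw [h2, Fintype.card_fin] at h1
    have h3 : (cell δ '' B).ncard = V.card := Set.ncard_eq_toFinset_card _ hfin
    rw [h3]
    exact_mod_cast h1
  · rw [hinf.ncard, Nat.cast_zero]
    positivity

theorem Str.mono {n : ℕ} {K L M K' L' M' δ : ℝ} {B : Set (EuclideanSpace ℝ (Fin n))}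
    (h : Str K L M δ B) (hK : K ≤ K') (hL : L ≤ L') (hM : M ≤ M') : Str K' L' M' δ B := by
  obtain ⟨𝒟, h1, h2, h3⟩ := h
  exact ⟨𝒟, h1.trans hL, fun D hD => ⟨(h2 D hD).1.trans
    (mul_le_mul_of_nonneg_right hK (Nat.cast_nonneg _)), (h2 D hD).2.trans hM⟩, h3⟩

theorem dim_structured (n k : ℕ) (ε : ℝ) (hk : (n : ℝ) < ε * (k + 1)) : ∃ η : ℝ, 0 < η ∧
    ∀ B : Set (EuclideanSpace ℝ (Fin n)), Bornology.IsBounded B → HasProgressions (k + 1) B →
      (∃ᶠ δ : ℝ in 𝓝[>] 0,
        Str (δ ^ (-η)) (δ ^ (-η)) (δ ^ (-η) * ((cell δ '' B).ncard : ℝ)) δ B) →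
      (((n : ℝ) - ε : ℝ) : EReal) ≤ upperMinkowski B := by
  obtain ⟨ε₁, h1, h2⟩ : ∃ ε₁ : ℝ, (n : ℝ) / (k + 1) < ε₁ ∧ ε₁ < ε := by
    refine exists_between ?_
    rw [div_lt_iff₀ (by positivity)]
    exact hk
  obtain ⟨η₁, hη₁, δ₀, hδ₀, hno⟩ := no_cover n k ε₁ (by
    rwa [div_lt_iff₀ (by positivity)] at h1)
  refine ⟨min η₁ ((ε - ε₁) / 2), lt_min hη₁ (by linarith), ?_⟩
  set η := min η₁ ((ε - ε₁) / 2) with hη
  have hη1 : η ≤ η₁ := min_le_left _ _
  have hη2 : η ≤ (ε - ε₁) / 2 := min_le_right _ _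
  intro B hB hP hfreq
  by_contra hcon
  push Not at hcon
  obtain ⟨y, hy1, hy2⟩ := EReal.lt_iff_exists_real_btwn.mp hcon
  have hy2' : y < (n : ℝ) - ε := by exact_mod_cast hy2
  have h3 : ∀ᶠ δ : ℝ in 𝓝[>] (0 : ℝ), ((ratio B δ : ℝ) : EReal) < y :=
    eventually_lt_of_limsup_lt hy1 (by isBoundedDefault)
  set g : ℝ := (n : ℝ) - ε₁ - η - y with hg
  have hgpos : 0 < g := by linarith
  have hsmall : ∀ᶠ δ : ℝ in 𝓝[>] (0 : ℝ), δ < δ₀ := by
    filter_upwards [Ioo_mem_nhdsGT hδ₀] with δ h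
    exact h.2
  have hev : ∀ᶠ δ : ℝ in 𝓝[>] (0 : ℝ),
      ¬ Str (δ ^ (-η)) (δ ^ (-η)) (δ ^ (-η) * ((cell δ '' B).ncard : ℝ)) δ B := by
    filter_upwards [h3, hsmall, eventually_small, eventually_log ((n * Real.log 3) / g)] with
      δ h4 h5 h6 h7 hStr
    have hδ := h6.1
    have hL := log_inv_pos h6.1 h6.2
    refine hno B hP δ hδ h5 (hStr.mono ?_ ?_ ?_)
    · exact Real.rpow_le_rpow_of_exponent_ge hδ h6.2.le (by linarith)
    · exact Real.rpow_le_rpow_of_exponent_ge hδ h6.2.le (by linarith)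
    · have h8 : ratio B δ < y := by exact_mod_cast h4
      have h9 : (coverNum B δ : ℝ) ≤ δ ^ (-y) := by
        rcases Nat.eq_zero_or_pos (coverNum B δ) with h10 | h10
        · rw [h10, Nat.cast_zero]
          positivity
        · have h11 : (0 : ℝ) < coverNum B δ := by exact_mod_cast h10
          unfold ratio at h8
          rw [div_lt_iff₀ hL, one_div, Real.log_inv] at h8
          rw [← Real.log_le_log_iff h11 (Real.rpow_pos_of_pos hδ _), Real.log_rpow hδ]
          linarith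
      have h10 : (3 : ℝ) ^ n ≤ δ ^ (-g) := by
        rw [← Real.log_le_log_iff (by positivity) (Real.rpow_pos_of_pos hδ _), Real.log_rpow hδ,
          Real.log_pow]
        rw [div_lt_iff₀ hgpos, one_div, Real.log_inv] at h7
        linarith
      calc δ ^ (-η) * ((cell δ '' B).ncard : ℝ)
          ≤ δ ^ (-η) * (3 ^ n * (coverNum B δ : ℝ)) :=
            mul_le_mul_of_nonneg_left (ncard_cells hB hδ) (Real.rpow_nonneg hδ.le _)
        _ ≤ δ ^ (-η) * (δ ^ (-g) * δ ^ (-y)) := by
            refine mul_le_mul_of_nonneg_left ?_ (Real.rpow_nonneg hδ.le _)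
            exact mul_le_mul h10 h9 (Nat.cast_nonneg _) (Real.rpow_nonneg hδ.le _)
        _ = δ ^ (-((n : ℝ) - ε₁)) := by
            rw [← Real.rpow_add hδ, ← Real.rpow_add hδ]
            congr 1
            rw [hg]
            ring
  exact hfreq hev

end Pool.Agent.V11295.StrCov
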