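import Pool.Agent.V11295.StrCov2

/-!
# Structured sets containing progressions: examples
-/

set_option autoImplicit false

open Finset Filter Topology
open scoped Pointwise

namespace Pool.Agent.V11295.StrCov

open Pool.Agent.W46.KK Pool.Agent.V11295.ProgAny

/-- the union of the coordinate subspaces `x_i = 0` (`i ≡ j` mod `k`), in a cube -/
def exB (n k : ℕ) : Set (EuclideanSpace ℝ (Fin n)) :=
  {x | (∀ i, |x i| ≤ k) ∧ ∃ j : ℕ, j < k ∧ ∀ i : Fin n, (i : ℕ) % k = j → x i = 0}

theorem exB_bounded (n k : ℕ) : Bornology.IsBounded (exB n k) := by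
  refine (Metric.isBounded_closedBall (x := (0 : EuclideanSpace ℝ (Fin n)))
    (r := n * k + k)).subset ?_
  intro x hx
  rw [Metric.mem_closedBall, dist_zero_right, EuclideanSpace.norm_eq]
  refine Real.sqrt_le_iff.mpr ⟨by positivity, ?_⟩
  have hk : (0 : ℝ) ≤ k := Nat.cast_nonneg k
  have hn : (0 : ℝ) ≤ n := Nat.cast_nonneg n
  calc ∑ i, ‖x i‖ ^ 2 ≤ ∑ _i : Fin n, (k : ℝ) ^ 2 := by
        refine Finset.sum_le_sum fun i _ => ?_
        rw [Real.norm_eq_abs]
        exact pow_le_pow_left₀ (abs_nonneg _) (hx.1 i) 2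
    _ = n * (k : ℝ) ^ 2 := by simp
    _ ≤ ((n : ℝ) * k + k) ^ 2 := by
        have h1 : (n : ℝ) * (k : ℝ) ^ 2 ≤ ((n : ℝ) + 1) ^ 2 * (k : ℝ) ^ 2 :=
          mul_le_mul_of_nonneg_right (by nlinarith) (by positivity)
        calc (n : ℝ) * (k : ℝ) ^ 2 ≤ ((n : ℝ) + 1) ^ 2 * (k : ℝ) ^ 2 := h1
          _ = ((n : ℝ) * k + k) ^ 2 := by ring

theorem exB_prog (n k : ℕ) : HasProgressions k (exB n k) := by
  intro r hr
  refine ⟨WithLp.toLp 2 fun i => -(((i : ℕ) % k : ℕ) : ℝ) * r i, fun j hj => ⟨fun i => ?_, j, hj,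
    fun i hi => ?_⟩⟩
  · have h1 : (WithLp.toLp 2 (fun i : Fin n => -(((i : ℕ) % k : ℕ) : ℝ) * r i)
        + (j : ℝ) • r : EuclideanSpace ℝ (Fin n)) i = ((j : ℝ) - (((i : ℕ) % k : ℕ) : ℝ)) * r i := by
      rw [PiLp.add_apply, PiLp.smul_apply, smul_eq_mul]
      show -(((i : ℕ) % k : ℕ) : ℝ) * r i + (j : ℝ) * r i = _
      ring
    rw [h1, abs_mul]
    have h2 : |r i| ≤ 1 := by
      rw [abs_le]
      have := hr i
      constructor <;> linarith [this.1, this.2]
    have h3 : |(j : ℝ) - (((i : ℕ) % k : ℕ) : ℝ)| ≤ k := by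
      have h4 : ((i : ℕ) % k) < k := Nat.mod_lt _ (by omega)
      have h5 : (((i : ℕ) % k : ℕ) : ℝ) ≤ k := by exact_mod_cast h4.le
      have h6 : (j : ℝ) ≤ k := by exact_mod_cast hj.le
      have h7 : (0 : ℝ) ≤ (((i : ℕ) % k : ℕ) : ℝ) := Nat.cast_nonneg _
      have h8 : (0 : ℝ) ≤ (j : ℝ) := Nat.cast_nonneg _
      rw [abs_le]
      constructor <;> linarith
    calc |(j : ℝ) - (((i : ℕ) % k : ℕ) : ℝ)| * |r i| ≤ k * 1 :=
          mul_le_mul h3 h2 (abs_nonneg _) (Nat.cast_nonneg _)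
      _ = k := mul_one _
  · rw [PiLp.add_apply, PiLp.smul_apply, smul_eq_mul]
    show -(((i : ℕ) % k : ℕ) : ℝ) * r i + (j : ℝ) * r i = 0
    rw [hi]
    ring

/-- the number of coordinates which are not `≡ j` mod `k` -/
theorem card_mod (n k j : ℕ) (hj : j < k) :
    ((Finset.univ : Finset (Fin n)).filter fun i : Fin n => ¬ ((i : ℕ) % k = j)).card ≤ n - n / k := by
  classical
  have h1 : n / k ≤ ((Finset.univ : Finset (Fin n)).filter fun i : Fin n => (i : ℕ) % k = j).card := by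
    have hlt : ∀ t, t < n / k → t * k + j < n := by
      intro t ht
      have h2 : (t + 1) * k ≤ n := (Nat.mul_le_mul_right k ht).trans (Nat.div_mul_le_self n k)
      rw [add_mul, one_mul] at h2
      omega
    have h3 := Finset.card_le_card_of_injOn (s := (Finset.univ : Finset (Fin (n / k))))
      (t := (Finset.univ : Finset (Fin n)).filter fun i : Fin n => (i : ℕ) % k = j)
      (fun t => (⟨t * k + j, hlt t t.2⟩ : Fin n)) (by
        intro t _
        refine Finset.mem_coe.2 (Finset.mem_filter.2 ⟨Finset.mem_univ _, ?_⟩)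
        show ((t : ℕ) * k + j) % k = j
        rw [Nat.mul_comm, Nat.mul_add_mod, Nat.mod_eq_of_lt hj]) (by
        intro t _ u _ h
        have h4 : (t : ℕ) * k + j = u * k + j := by
          have := congrArg Fin.val h
          exact this
        have h5 : (t : ℕ) * k = u * k := by omega
        exact Fin.ext (Nat.eq_of_mul_eq_mul_right (by omega) h5))
    rwa [Finset.card_univ, Fintype.card_fin] at h3
  have h2 := Finset.card_filter_add_card_filter_not (s := (Finset.univ : Finset (Fin n)))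
    (fun i : Fin n => (i : ℕ) % k = j)
  rw [Finset.card_univ, Fintype.card_fin] at h2
  omega

/-- the family of boxes -/
noncomputable def boxD (n k : ℕ) (H : ℤ) (j : ℕ) : Finset (Fin n → ℤ) :=
  Fintype.piFinset fun i => if (i : ℕ) % k = j then {0} else Finset.Icc (-H) H

theorem boxD_card {n k : ℕ} {H : ℤ} (hH : 0 ≤ H) {j : ℕ} (hj : j < k) :
    ((boxD n k H j).card : ℝ) ≤ (2 * (H : ℝ) + 1) ^ (n - n / k) := by
  classical
  have hH' : (0 : ℝ) ≤ H := by exact_mod_cast hH
  unfold boxD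
  rw [Fintype.card_piFinset]
  have h1 : ∀ i : Fin n, (if (i : ℕ) % k = j then ({0} : Finset ℤ) else Finset.Icc (-H) H).card
      = if (i : ℕ) % k = j then 1 else (H + 1 - -H).toNat := by
    intro i
    split_ifs
    · exact Finset.card_singleton _
    · exact Int.card_Icc _ _
  rw [Finset.prod_congr rfl fun i _ => h1 i, Finset.prod_ite, Finset.prod_const_one, one_mul,
    Finset.prod_const]
  have h2 : (((H + 1 - -H).toNat : ℕ) : ℝ) = 2 * (H : ℝ) + 1 := by
    have h3 : (((H + 1 - -H).toNat : ℕ) : ℤ) = 2 * H + 1 := by omega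
    have h4 : ((((H + 1 - -H).toNat : ℕ) : ℤ) : ℝ) = ((2 * H + 1 : ℤ) : ℝ) := by rw [h3]
    rw [← Int.cast_natCast, h4]
    push_cast
    ring
  rw [Nat.cast_pow, h2]
  exact pow_le_pow_right₀ (by linarith) (card_mod n k j hj)

theorem boxD_add {n k : ℕ} {H : ℤ} (hH : 0 ≤ H) {j : ℕ} :
    (((boxD n k H j) + (boxD n k H j)).card : ℝ) ≤ 2 ^ n * (boxD n k H j).card := by
  classical
  have hsub : boxD n k H j + boxD n k H j ⊆
      Fintype.piFinset fun i : Fin n => if (i : ℕ) % k = j then ({0} : Finset ℤ)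
        else Finset.Icc (-(2 * H)) (2 * H) := by
    intro z hz
    obtain ⟨x, hx, y, hy, rfl⟩ := Finset.mem_add.1 hz
    unfold boxD at hx hy
    rw [Fintype.mem_piFinset] at hx hy ⊢
    intro i
    have h1 := hx i
    have h2 := hy i
    split_ifs at h1 h2 ⊢ with h
    · rw [Finset.mem_singleton] at *
      rw [Pi.add_apply, h1, h2, add_zero]
    · rw [Finset.mem_Icc] at *
      rw [Pi.add_apply]
      constructor <;> omega
  have h1 : (boxD n k H j + boxD n k H j).card ≤ 2 ^ n * (boxD n k H j).card := by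
    refine (Finset.card_le_card hsub).trans ?_
    unfold boxD
    rw [Fintype.card_piFinset, Fintype.card_piFinset]
    have h2 : (2 : ℕ) ^ n = ∏ _i : Fin n, 2 := by simp
    rw [h2, ← Finset.prod_mul_distrib]
    refine Finset.prod_le_prod' fun i _ => ?_
    split_ifs
    · simp
    · rw [Int.card_Icc, Int.card_Icc]
      omega
  exact_mod_cast h1

/-- the example is structured at every scale -/
theorem exB_str (n k : ℕ) {δ : ℝ} (hδ : 0 < δ) (hδ1 : δ ≤ 1) :
    Str (2 ^ n) k ((2 * k + 3) ^ n * (1 / δ) ^ (n - n / k)) δ (exB n k) := by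
  classical
  set H : ℤ := ⌈(k : ℝ) / δ⌉ with hHdef
  have hH : 0 ≤ H := Int.ceil_nonneg (by positivity)
  have hH2 : 2 * (H : ℝ) + 1 ≤ (2 * k + 3) * (1 / δ) := by
    have h1 : (H : ℝ) < k / δ + 1 := Int.ceil_lt_add_one _
    have h2 : 1 ≤ 1 / δ := by rw [le_div_iff₀ hδ]; linarith
    calc 2 * (H : ℝ) + 1 ≤ 2 * (k / δ + 1) + 1 := by linarith
      _ = 2 * k * (1 / δ) + 3 * 1 := by ring
      _ ≤ 2 * k * (1 / δ) + 3 * (1 / δ) := by linarith
      _ = (2 * k + 3) * (1 / δ) := by ring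
  refine ⟨(Finset.range k).image (boxD n k H), ?_, ?_, ?_⟩
  · have h1 : ((Finset.range k).image (boxD n k H)).card ≤ k := by
      refine Finset.card_image_le.trans ?_
      rw [Finset.card_range]
    exact_mod_cast h1
  · intro D hD
    obtain ⟨j, hj, rfl⟩ := Finset.mem_image.1 hD
    rw [Finset.mem_range] at hj
    refine ⟨boxD_add hH, (boxD_card hH hj).trans ?_⟩
    have hH' : (0 : ℝ) ≤ H := by exact_mod_cast hH
    calc (2 * (H : ℝ) + 1) ^ (n - n / k) ≤ ((2 * k + 3) * (1 / δ)) ^ (n - n / k) :=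
          pow_le_pow_left₀ (by positivity) hH2 _
      _ = (2 * (k : ℝ) + 3) ^ (n - n / k) * (1 / δ) ^ (n - n / k) := mul_pow _ _ _
      _ ≤ (2 * (k : ℝ) + 3) ^ n * (1 / δ) ^ (n - n / k) := by
          refine mul_le_mul_of_nonneg_right ?_ (by positivity)
          refine pow_le_pow_right₀ ?_ (Nat.sub_le _ _)
          have : (0 : ℝ) ≤ k := Nat.cast_nonneg k
          linarith
  · intro x hx
    obtain ⟨hx1, j, hj, hx2⟩ := hx
    refine ⟨_, Finset.mem_image.2 ⟨j, Finset.mem_range.2 hj, rfl⟩, ?_⟩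
    unfold boxD
    rw [Fintype.mem_piFinset]
    intro i
    split_ifs with h
    · rw [Finset.mem_singleton]
      unfold cell
      rw [hx2 i h, zero_div, Int.floor_zero]
    · rw [Finset.mem_Icc]
      have h1 := abs_le.mp (hx1 i)
      unfold cell
      have h2 : (k : ℝ) / δ ≤ H := Int.le_ceil _
      constructor
      · refine Int.le_floor.2 ?_
        push_cast
        calc -(H : ℝ) ≤ -(k / δ) := by linarith
          _ = -k / δ := by ring
          _ ≤ x i / δ := by
            rw [div_le_div_iff_of_pos_right hδ]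
            exact h1.1
      · have h3 : ((⌊x i / δ⌋ : ℤ) : ℝ) ≤ H := by
          calc ((⌊x i / δ⌋ : ℤ) : ℝ) ≤ x i / δ := Int.floor_le _
            _ ≤ k / δ := by
              rw [div_le_div_iff_of_pos_right hδ]
              exact h1.2
            _ ≤ H := h2
        exact_mod_cast h3

end Pool.Agent.V11295.StrCov
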