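import Pool.Agent.V11295.StrCov3
import Pool.Agent.V11295.StrCov4

/-!
# The least Minkowski dimension of structured sets containing progressions
-/

set_option autoImplicit false

open Finset Filter Topology
open scoped Pointwise

namespace Pool.Agent.V11295.StrCov

open Pool.Agent.W46.KK Pool.Agent.V11295.ProgAny

/-- covering numbers of structured sets -/
theorem Str.coverNum_le {n : ℕ} {K L M δ : ℝ} {B : Set (EuclideanSpace ℝ (Fin n))}
    (hδ : 0 < δ) (hM : 0 ≤ M) (h : Str K L M δ B) :
    (coverNum B δ : ℝ) ≤ (L * M) * (4 * ((n : ℝ) + 1)) ^ n := by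
  classical
  obtain ⟨𝒟, h1, h2, h3⟩ := h
  set Q : Finset (EuclideanSpace ℝ (Fin n)) :=
    (𝒟.biUnion id).image fun v => WithLp.toLp 2 fun i => δ * (v i : ℝ) with hQ
  have h4 : (Q.card : ℝ) ≤ L * M := by
    calc (Q.card : ℝ) ≤ ((𝒟.biUnion id).card : ℝ) := by exact_mod_cast Finset.card_image_le
      _ ≤ ((∑ D ∈ 𝒟, D.card : ℕ) : ℝ) := by exact_mod_cast Finset.card_biUnion_le
      _ = ∑ D ∈ 𝒟, (D.card : ℝ) := by push_cast; rfl
      _ ≤ ∑ _D ∈ 𝒟, M := Finset.sum_le_sum fun D hD => (h2 D hD).2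
      _ = 𝒟.card * M := by rw [Finset.sum_const, nsmul_eq_mul]
      _ ≤ L * M := mul_le_mul_of_nonneg_right h1 hM
  have h5 : coverNum B δ ≤ Q.card * (4 * (n + 1)) ^ n := by
    refine Pool.Agent.V11295.ProgAny.coverNum_le hδ Q fun r hr => ?_
    obtain ⟨D, hD, hr'⟩ := h3 r hr
    refine ⟨WithLp.toLp 2 fun i => δ * (cell δ r i : ℝ), ?_, fun i => ?_⟩
    · rw [hQ]
      exact Finset.mem_image.2 ⟨cell δ r, Finset.mem_biUnion.2 ⟨D, hD, hr'⟩, rfl⟩
    · show |r i - δ * (⌊r i / δ⌋ : ℝ)| < 2 * δ
      have h6 := Int.floor_le (r i / δ)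
      have h7 := Int.lt_floor_add_one (r i / δ)
      rw [le_div_iff₀ hδ] at h6
      rw [div_lt_iff₀ hδ] at h7
      rw [abs_lt]
      constructor <;> nlinarith
  calc (coverNum B δ : ℝ) ≤ ((Q.card * (4 * (n + 1)) ^ n : ℕ) : ℝ) := by exact_mod_cast h5
    _ = (Q.card : ℝ) * (4 * ((n : ℝ) + 1)) ^ n := by push_cast; ring
    _ ≤ (L * M) * (4 * ((n : ℝ) + 1)) ^ n := mul_le_mul_of_nonneg_right h4 (by positivity)

/-- the dimension of the example -/
theorem exB_dim (n k : ℕ) :
    upperMinkowski (exB n k) ≤ (((n - n / k : ℕ) : ℝ) : EReal) := by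
  by_contra hcon
  push Not at hcon
  obtain ⟨y, hy1, hy2⟩ := EReal.lt_iff_exists_real_btwn.mp hcon
  have hy1' : ((n - n / k : ℕ) : ℝ) < y := by exact_mod_cast hy1
  set s : ℕ := n - n / k with hs
  set b : ℝ := (k + 1) * (2 * k + 3) ^ n * (4 * ((n : ℝ) + 1)) ^ n with hb
  have hb0 : 0 < b := by positivity
  refine absurd hy2 (not_lt.2 ?_)
  refine limsup_le_of_le (by isBoundedDefault) ?_
  filter_upwards [eventually_small, eventually_log (Real.log b / (y - s))] with δ h1 h2
  have hδ := h1.1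
  have hL := log_inv_pos h1.1 h1.2
  rw [EReal.coe_le_coe_iff, div_le_iff₀ hL]
  rw [div_lt_iff₀ (by linarith)] at h2
  have h3 := (exB_str n k hδ h1.2.le).coverNum_le hδ (by positivity)
  rcases Nat.eq_zero_or_pos (coverNum (exB n k) δ) with h4 | h4
  · rw [h4, Nat.cast_zero, Real.log_zero]
    have : (0 : ℝ) ≤ s := Nat.cast_nonneg _
    exact mul_nonneg (by linarith) hL.le
  · have h5 : (0 : ℝ) < coverNum (exB n k) δ := by exact_mod_cast h4
    have h6 : (coverNum (exB n k) δ : ℝ) ≤ b * (1 / δ) ^ s := by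
      refine h3.trans ?_
      have h7 : (k : ℝ) * ((2 * k + 3) ^ n * (1 / δ) ^ s) * (4 * ((n : ℝ) + 1)) ^ n
          ≤ (k + 1) * ((2 * k + 3) ^ n * (1 / δ) ^ s) * (4 * ((n : ℝ) + 1)) ^ n := by
        refine mul_le_mul_of_nonneg_right ?_ (by positivity)
        refine mul_le_mul_of_nonneg_right (by linarith) (by positivity)
      refine h7.trans (le_of_eq ?_)
      rw [hb]
      ring
    have h8 := Real.log_le_log h5 h6
    rw [Real.log_mul hb0.ne' (by positivity), Real.log_pow] at h8
    nlinarith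

/-- the example is structured relative to its size at every scale -/
theorem exB_str2 (n k : ℕ) {δ : ℝ} (hδ : 0 < δ) :
    Str (2 ^ n) k (3 ^ n * ((cell δ '' exB n k).ncard : ℝ)) δ (exB n k) := by
  classical
  have hk0 : (0 : ℝ) ≤ k / δ := by positivity
  set H : ℤ := ⌈(k : ℝ) / δ⌉ with hHdef
  set H' : ℤ := ⌊(k : ℝ) / δ⌋ with hHdef'
  have hH : 0 ≤ H := Int.ceil_nonneg hk0
  have hH' : 0 ≤ H' := Int.floor_nonneg.2 hk0
  have hHH : H ≤ H' + 1 := Int.ceil_le_floor_add_one _
  -- the cells of the example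
  have hcells : cell δ '' exB n k ⊆ ((Finset.range k).biUnion (boxD n k H) : Finset (Fin n → ℤ)) := by
    rintro _ ⟨x, hx, rfl⟩
    obtain ⟨hx1, j, hj, hx2⟩ := hx
    rw [Finset.mem_coe, Finset.mem_biUnion]
    refine ⟨j, Finset.mem_range.2 hj, ?_⟩
    unfold boxD
    rw [Fintype.mem_piFinset]
    intro i
    split_ifs with h
    · rw [Finset.mem_singleton]
      unfold cell
      rw [hx2 i h, zero_div, Int.floor_zero]
    · rw [Finset.mem_Icc]
      have h1 := abs_le.mp (hx1 i)
      unfold cell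
      have h2 : (k : ℝ) / δ ≤ H := Int.le_ceil _
      constructor
      · refine Int.le_floor.2 ?_
        push_cast
        calc -(H : ℝ) ≤ -(k / δ) := by linarith
          _ = -k / δ := by ring
          _ ≤ x i / δ := by
            rw [div_le_div_iff_of_pos_right hδ]
            exact h1.1
      · have h3 : ((⌊x i / δ⌋ : ℤ) : ℝ) ≤ H := by
          calc ((⌊x i / δ⌋ : ℤ) : ℝ) ≤ x i / δ := Int.floor_le _
            _ ≤ k / δ := by
              rw [div_le_div_iff_of_pos_right hδ]
              exact h1.2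
            _ ≤ H := h2
        exact_mod_cast h3
  have hfin : (cell δ '' exB n k).Finite := (Finset.finite_toSet _).subset hcells
  refine ⟨(Finset.range k).image (boxD n k H), ?_, ?_, ?_⟩
  · have h1 : ((Finset.range k).image (boxD n k H)).card ≤ k := by
      refine Finset.card_image_le.trans ?_
      rw [Finset.card_range]
    exact_mod_cast h1
  · intro D hD
    obtain ⟨j, hj, rfl⟩ := Finset.mem_image.1 hD
    rw [Finset.mem_range] at hj
    refine ⟨boxD_add hH, ?_⟩
    -- the smaller box consists of cells of the example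
    have h1 : (boxD n k H' j : Set (Fin n → ℤ)) ⊆ cell δ '' exB n k := by
      intro v hv
      rw [Finset.mem_coe] at hv
      unfold boxD at hv
      rw [Fintype.mem_piFinset] at hv
      refine ⟨WithLp.toLp 2 fun i => δ * (v i : ℝ), ⟨fun i => ?_, j, hj, fun i hi => ?_⟩, ?_⟩
      · show |δ * (v i : ℝ)| ≤ k
        have h2 := hv i
        have h3 : |(v i : ℝ)| ≤ H' := by
          split_ifs at h2 with h
          · rw [Finset.mem_singleton] at h2
            rw [h2, Int.cast_zero, abs_zero]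
            exact_mod_cast hH'
          · rw [Finset.mem_Icc] at h2
            rw [abs_le]
            exact ⟨by exact_mod_cast h2.1, by exact_mod_cast h2.2⟩
        rw [abs_mul, abs_of_pos hδ]
        calc δ * |(v i : ℝ)| ≤ δ * (k / δ) :=
              mul_le_mul_of_nonneg_left (h3.trans (Int.floor_le _)) hδ.le
          _ = k := by field_simp
      · show δ * (v i : ℝ) = 0
        have h2 := hv i
        rw [if_pos hi, Finset.mem_singleton] at h2
        rw [h2, Int.cast_zero, mul_zero]
      · funext i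
        show ⌊δ * (v i : ℝ) / δ⌋ = v i
        rw [mul_div_cancel_left₀ _ hδ.ne', Int.floor_intCast]
    have h2 : (boxD n k H' j).card ≤ (cell δ '' exB n k).ncard := by
      rw [← Set.ncard_coe_finset]
      exact Set.ncard_le_ncard h1 hfin
    have h3 : (boxD n k H j).card ≤ 3 ^ n * (boxD n k H' j).card := by
      unfold boxD
      rw [Fintype.card_piFinset, Fintype.card_piFinset]
      have h2 : (3 : ℕ) ^ n = ∏ _i : Fin n, 3 := by simp
      rw [h2, ← Finset.prod_mul_distrib]
      refine Finset.prod_le_prod' fun i _ => ?_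
      split_ifs
      · simp
      · rw [Int.card_Icc, Int.card_Icc]
        omega
    have h4 : (boxD n k H j).card ≤ 3 ^ n * (cell δ '' exB n k).ncard :=
      h3.trans (Nat.mul_le_mul_left _ h2)
    exact_mod_cast h4
  · intro x hx
    have h1 := hcells ⟨x, hx, rfl⟩
    rw [Finset.mem_coe, Finset.mem_biUnion] at h1
    obtain ⟨j, hj, h2⟩ := h1
    exact ⟨_, Finset.mem_image.2 ⟨j, hj, rfl⟩, h2⟩

/-- structured at arbitrarily small scales -/
def Asymp {n : ℕ} (B : Set (EuclideanSpace ℝ (Fin n))) : Prop :=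
  ∀ η : ℝ, 0 < η → ∃ᶠ δ : ℝ in 𝓝[>] 0,
    Str (δ ^ (-η)) (δ ^ (-η)) (δ ^ (-η) * ((cell δ '' B).ncard : ℝ)) δ B

theorem exB_asymp (n k : ℕ) : Asymp (exB n k) := by
  intro η hη
  refine Eventually.frequently ?_
  filter_upwards [eventually_small, eventually_log (Real.log (2 ^ n) / η),
    eventually_log (Real.log (3 ^ n) / η), eventually_log (Real.log (k + 1) / η)] with
    δ h1 h2 h3 h4
  have hδ := h1.1
  have key : ∀ x : ℝ, 0 < x → Real.log x / η < Real.log (1 / δ) → x ≤ δ ^ (-η) := by
    intro x hx h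
    rw [div_lt_iff₀ hη, one_div, Real.log_inv] at h
    rw [← Real.log_le_log_iff hx (Real.rpow_pos_of_pos hδ _), Real.log_rpow hδ]
    linarith
  refine (exB_str2 n k hδ).mono (key _ (by positivity) h2) ?_ ?_
  · have := key _ (by positivity) h4
    linarith
  · exact mul_le_mul_of_nonneg_right (key _ (by positivity) h3) (Nat.cast_nonneg _)

/-- lower bound for the dimension of structured sets -/
theorem asymp_dim (n k : ℕ) {B : Set (EuclideanSpace ℝ (Fin n))} (hB : Bornology.IsBounded B)
    (hP : HasProgressions (k + 1) B) (hA : Asymp B) :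
    (((n : ℝ) - n / (k + 1) : ℝ) : EReal) ≤ upperMinkowski B := by
  refine le_of_forall_lt fun x hx => ?_
  obtain ⟨y, hxy, hy⟩ := EReal.lt_iff_exists_real_btwn.mp hx
  refine lt_of_lt_of_le hxy ?_
  have hy' : y < (n : ℝ) - n / (k + 1) := by exact_mod_cast hy
  obtain ⟨η, hη, h⟩ := dim_structured n k (n - y) (by
    have h1 : (n : ℝ) / (k + 1) < n - y := by linarith
    rwa [div_lt_iff₀ (by positivity)] at h1)
  have h1 := h B hB hP (hA η hη)
  rwa [sub_sub_cancel] at h1

end Pool.Agent.V11295.StrCov
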