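import Pool.Agent.Y342.SK.EtfMain
import Pool.Agent.H114R2.Design
import Pool.Agent.Y341.Had.Tower

/-!
# Regular Hadamard matrices of order `(q + 1) ^ 2` from cores of orders `q` and `q + 2`

If `Q` is a core of order `q` and `S` is a core of order `q + 2`, one of them symmetric and the
other one skew, then there is a Hadamard matrix of order `(q + 1) ^ 2` all of whose row sums are
`q + 1`.
-/

set_option autoImplicit false

namespace Pool.Agent.V11295.TwinMenon

open Finset Matrix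
open Pool.Agent.Y342.SK (IsCoreG IsCore Sg)

/-- the sum of the products of two rows of the core of twin type -/
theorem sixteen {ι κ : Type} [Fintype ι] [Fintype κ] (a a' d d' : ι → ℤ) (b b' e e' : κ → ℤ) :
    ∑ z : ι × κ, (a z.1 * b z.2 + e z.2 - d z.1 + d z.1 * e z.2) *
        (a' z.1 * b' z.2 + e' z.2 - d' z.1 + d' z.1 * e' z.2) =
      (∑ x, a x * a' x) * (∑ y, b y * b' y) + (∑ x, a x) * (∑ y, b y * e' y)
      - (∑ x, a x * d' x) * (∑ y, b y) + (∑ x, a x * d' x) * (∑ y, b y * e' y)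
      + (∑ x, a' x) * (∑ y, b' y * e y) + (∑ _x : ι, (1 : ℤ)) * (∑ y, e y * e' y)
      - (∑ x, d' x) * (∑ y, e y) + (∑ x, d' x) * (∑ y, e y * e' y)
      - (∑ x, a' x * d x) * (∑ y, b' y) - (∑ x, d x) * (∑ y, e' y)
      + (∑ x, d x * d' x) * (∑ _y : κ, (1 : ℤ)) - (∑ x, d x * d' x) * (∑ y, e' y)
      + (∑ x, a' x * d x) * (∑ y, b' y * e y) + (∑ x, d x) * (∑ y, e y * e' y)
      - (∑ x, d x * d' x) * (∑ y, e y) + (∑ x, d x * d' x) * (∑ y, e y * e' y) := by
  rw [Fintype.sum_prod_type]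
  simp only [Finset.sum_mul_sum, ← Finset.sum_add_distrib, ← Finset.sum_sub_distrib]
  refine Finset.sum_congr rfl fun x _ => Finset.sum_congr rfl fun y _ => ?_
  ring

theorem four {ι κ : Type} [Fintype ι] [Fintype κ] (a d : ι → ℤ) (b e g : κ → ℤ) :
    ∑ z : ι × κ, g z.2 * (a z.1 * b z.2 + e z.2 - d z.1 + d z.1 * e z.2) =
      (∑ x, a x) * (∑ y, g y * b y) + (∑ _x : ι, (1 : ℤ)) * (∑ y, g y * e y)
      - (∑ x, d x) * (∑ y, g y) + (∑ x, d x) * (∑ y, g y * e y) := by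
  rw [Fintype.sum_prod_type]
  simp only [Finset.sum_mul_sum, ← Finset.sum_add_distrib, ← Finset.sum_sub_distrib]
  refine Finset.sum_congr rfl fun x _ => Finset.sum_congr rfl fun y _ => ?_
  ring

section
variable {ι κ : Type} [Fintype ι] [DecidableEq ι] [Fintype κ] [DecidableEq κ]

/-- the core of twin type -/
def M (Q : ι → ι → ℤ) (S : κ → κ → ℤ) (p r : ι × κ) : ℤ :=
  Q p.1 r.1 * S p.2 r.2 + (if p.2 = r.2 then 1 else 0) - (if p.1 = r.1 then 1 else 0) +
    (if p.1 = r.1 then 1 else 0) * (if p.2 = r.2 then 1 else 0)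

theorem M_sg {e e' : ℤ} {Q : ι → ι → ℤ} {S : κ → κ → ℤ} (hQ : IsCoreG e Q) (hS : IsCoreG e' S)
    (p r : ι × κ) : M Q S p r = 1 ∨ M Q S p r = -1 := by
  unfold M
  by_cases h1 : p.1 = r.1 <;> by_cases h2 : p.2 = r.2
  · rw [h1, h2, hQ.diag]; simp
  · rw [h1, hQ.diag, if_neg h2]; simp
  · rw [h2, hS.diag, if_neg h1]; simp
  · rw [if_neg h1, if_neg h2]
    have a := hQ.sign _ _ h1
    have b := hS.sign _ _ h2
    have := a.mul b
    rcases this with h | h
    · left; rw [h]; norm_num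
    · right; rw [h]; norm_num

theorem M_row {e e' : ℤ} {Q : ι → ι → ℤ} {S : κ → κ → ℤ} (hQ : IsCoreG e Q) (hS : IsCoreG e' S)
    (hc : Fintype.card κ = Fintype.card ι + 2) (g : κ → ℤ) (hg : ∑ k, g k = 1) (p : ι × κ) :
    ∑ r : ι × κ, g r.2 * M Q S p r = (Fintype.card ι + 1) * g p.2 - 1 := by
  have := four (Q p.1) (fun j => if p.1 = j then (1 : ℤ) else 0) (S p.2)
    (fun l => if p.2 = l then (1 : ℤ) else 0) g
  unfold M
  beta_reduce at this
  rw [this, hQ.row]
  simp [hg]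
  ring

theorem M_sum {e e' : ℤ} {Q : ι → ι → ℤ} {S : κ → κ → ℤ} (hQ : IsCoreG e Q) (hS : IsCoreG e' S)
    (hc : Fintype.card κ = Fintype.card ι + 2) (p : ι × κ) :
    ∑ r : ι × κ, M Q S p r = - 1 := by
  have := four (Q p.1) (fun j => if p.1 = j then (1 : ℤ) else 0) (S p.2)
    (fun l => if p.2 = l then (1 : ℤ) else 0) (fun _ => 1)
  unfold M
  simp only [one_mul] at this
  rw [this, hQ.row]
  simp [hc]

theorem M_mul {e : ℤ} {Q : ι → ι → ℤ} {S : κ → κ → ℤ} (hQ : IsCoreG e Q) (hS : IsCoreG (-e) S)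
    (he : e * e = 1)
    (hc : Fintype.card κ = Fintype.card ι + 2) (p p' : ι × κ) :
    ∑ r : ι × κ, M Q S p r * M Q S p' r =
      (if p = p' then ((Fintype.card ι : ℤ) + 1) ^ 2 else 0) - 1 := by
  have := sixteen (Q p.1) (Q p'.1) (fun j => if p.1 = j then (1 : ℤ) else 0)
    (fun j => if p'.1 = j then (1 : ℤ) else 0) (S p.2) (S p'.2)
    (fun l => if p.2 = l then (1 : ℤ) else 0) (fun l => if p'.2 = l then (1 : ℤ) else 0)
  unfold M
  beta_reduce at this
  rw [this, hQ.row, hQ.row, hS.row, hS.row, hQ.mul, hS.mul]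
  have h1 : Q p'.1 p.1 = e * Q p.1 p'.1 := hQ.sym _ _
  have h2 : S p'.2 p.2 = -e * S p.2 p'.2 := hS.sym _ _
  have h3 : Q p'.1 p.1 * S p'.2 p.2 = - (Q p.1 p'.1 * S p.2 p'.2) := by
    rw [h1, h2]
    linear_combination (- (Q p.1 p'.1 * S p.2 p'.2)) * he
  simp only [mul_ite, mul_one, mul_zero, Finset.sum_ite_eq, Finset.mem_univ, if_true,
    Finset.sum_const, Finset.card_univ, smul_eq_mul, nsmul_eq_mul, hc]
  have hp : (p = p') ↔ (p.1 = p'.1 ∧ p.2 = p'.2) := Prod.ext_iff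
  by_cases e1 : p.1 = p'.1 <;> by_cases e2 : p.2 = p'.2
  · have h5 : p = p' := hp.2 ⟨e1, e2⟩
    subst h5
    simp [hQ.diag]
    ring
  · have h5 : ¬ p = p' := fun h => e2 (hp.1 h).2
    have e2' : ¬ p'.2 = p.2 := fun h => e2 h.symm
    simp only [e1, e2, h5, if_true, if_false, hQ.diag]
    push_cast
    ring
  · have h5 : ¬ p = p' := fun h => e1 (hp.1 h).1
    have e1' : ¬ p'.1 = p.1 := fun h => e1 h.symm
    simp only [e1, e2, h5, if_true, if_false, hS.diag]
    push_cast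
    ring
  · have h5 : ¬ p = p' := fun h => e2 (hp.1 h).2
    have e1' : ¬ p'.1 = p.1 := fun h => e1 h.symm
    have e2' : ¬ p'.2 = p.2 := fun h => e2 h.symm
    simp only [e1, e2, h5, if_false]
    linear_combination h3

/-- the regular Hadamard matrix -/
def R (Q : ι → ι → ℤ) (S : κ → κ → ℤ) (g : κ → ℤ) : Option (ι × κ) → Option (ι × κ) → ℤ
  | none, none => 1
  | none, some r => g r.2
  | some p, none => g p.2
  | some p, some r => g p.2 * g r.2 * M Q S p r

theorem R_sg {e e' : ℤ} {Q : ι → ι → ℤ} {S : κ → κ → ℤ} (hQ : IsCoreG e Q) (hS : IsCoreG e' S)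
    {g : κ → ℤ} (hg : ∀ k, g k = 1 ∨ g k = -1) (p r : Option (ι × κ)) :
    R Q S g p r = 1 ∨ R Q S g p r = -1 := by
  rcases p with _ | p <;> rcases r with _ | r
  · left; rfl
  · exact hg _
  · exact hg _
  · change g p.2 * g r.2 * M Q S p r = 1 ∨ g p.2 * g r.2 * M Q S p r = -1
    rcases hg p.2 with h1 | h1 <;> rcases hg r.2 with h2 | h2 <;>
      rcases M_sg hQ hS p r with h3 | h3 <;> rw [h1, h2, h3] <;> norm_num

theorem R_row {e e' : ℤ} {Q : ι → ι → ℤ} {S : κ → κ → ℤ} (hQ : IsCoreG e Q) (hS : IsCoreG e' S)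
    (hc : Fintype.card κ = Fintype.card ι + 2)
    {g : κ → ℤ} (hg : ∀ k, g k = 1 ∨ g k = -1) (hg1 : ∑ k, g k = 1) (p : Option (ι × κ)) :
    ∑ r, R Q S g p r = (Fintype.card ι : ℤ) + 1 := by
  rw [Fintype.sum_option]
  rcases p with _ | p
  · change 1 + ∑ r : ι × κ, g r.2 = _
    rw [Fintype.sum_prod_type]
    simp only [hg1]
    simp
    ring
  · change g p.2 + ∑ r : ι × κ, g p.2 * g r.2 * M Q S p r = _
    have h1 : ∑ r : ι × κ, g p.2 * g r.2 * M Q S p r = g p.2 * ∑ r : ι × κ, g r.2 * M Q S p r := by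
      rw [Finset.mul_sum]
      exact Finset.sum_congr rfl fun r _ => by ring
    rw [h1, M_row hQ hS hc g hg1]
    have h2 : g p.2 * g p.2 = 1 := by rcases hg p.2 with h | h <;> rw [h] <;> norm_num
    linear_combination ((Fintype.card ι : ℤ) + 1) * h2

theorem R_mul {e : ℤ} {Q : ι → ι → ℤ} {S : κ → κ → ℤ} (hQ : IsCoreG e Q) (hS : IsCoreG (-e) S)
    (he : e * e = 1)
    (hc : Fintype.card κ = Fintype.card ι + 2)
    {g : κ → ℤ} (hg : ∀ k, g k = 1 ∨ g k = -1) (p p' : Option (ι × κ)) :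
    ∑ r, R Q S g p r * R Q S g p' r = if p = p' then ((Fintype.card ι : ℤ) + 1) ^ 2 else 0 := by
  have hg2 : ∀ k, g k * g k = 1 := by
    intro k
    rcases hg k with h | h <;> rw [h] <;> norm_num
  have hM := M_sum hQ hS hc
  have hmix : ∀ p : ι × κ, (1 : ℤ) * g p.2 + ∑ r : ι × κ, g r.2 * (g p.2 * g r.2 * M Q S p r) = 0 := by
    intro p
    have h1 : ∑ r : ι × κ, g r.2 * (g p.2 * g r.2 * M Q S p r) = g p.2 * ∑ r : ι × κ, M Q S p r := by
      rw [Finset.mul_sum]
      refine Finset.sum_congr rfl fun r _ => ?_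
      linear_combination (g p.2 * M Q S p r) * hg2 r.2
    rw [h1, hM]
    ring
  rw [Fintype.sum_option]
  rcases p with _ | p <;> rcases p' with _ | p'
  · change (1 : ℤ) * 1 + ∑ r : ι × κ, g r.2 * g r.2 = _
    simp only [hg2]
    rw [if_pos trivial]
    simp [Fintype.card_prod, hc]
    ring
  · rw [if_neg (by simp)]
    exact hmix p'
  · rw [if_neg (by simp)]
    change g p.2 * 1 + ∑ r : ι × κ, g p.2 * g r.2 * M Q S p r * g r.2 = 0
    have := hmix p
    rw [← this]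
    congr 1
    · ring
    · exact Finset.sum_congr rfl fun r _ => by ring
  · change g p.2 * g p'.2 + ∑ r : ι × κ, g p.2 * g r.2 * M Q S p r * (g p'.2 * g r.2 * M Q S p' r) = _
    have h1 : ∑ r : ι × κ, g p.2 * g r.2 * M Q S p r * (g p'.2 * g r.2 * M Q S p' r) =
        g p.2 * g p'.2 * ∑ r : ι × κ, M Q S p r * M Q S p' r := by
      rw [Finset.mul_sum]
      refine Finset.sum_congr rfl fun r _ => ?_
      linear_combination (g p.2 * g p'.2 * M Q S p r * M Q S p' r) * hg2 r.2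
    rw [h1, M_mul hQ hS he hc]
    by_cases h : p = p'
    · subst h
      rw [if_pos rfl, if_pos rfl]
      linear_combination ((Fintype.card ι : ℤ) + 1) ^ 2 * hg2 p.2
    · rw [if_neg h, if_neg (by simpa using h)]
      ring

end

/-- a regular Hadamard matrix of order `4 u ^ 2` from a symmetric and a skew core of orders
`2 u - 1` and `2 u + 1` -/
theorem regular {u : ℕ} (hu : 1 < u) {e : ℤ} (he : e * e = 1)
    {Q : Fin (2 * u - 1) → Fin (2 * u - 1) → ℤ} (hQ : IsCoreG e Q)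
    {S : Fin (2 * u + 1) → Fin (2 * u + 1) → ℤ} (hS : IsCoreG (-e) S) :
    ∃ X : Matrix (Fin (4 * u ^ 2)) (Fin (4 * u ^ 2)) ℤ, (∀ i j, X i j = 1 ∨ X i j = -1) ∧
      (∀ i, ∑ j, X i j = - (2 * u : ℤ)) ∧ X * Xᵀ = ((4 * u ^ 2 : ℕ) : ℤ) • 1 := by
  have hc : Fintype.card (Fin (2 * u + 1)) = Fintype.card (Fin (2 * u - 1)) + 2 := by
    simp only [Fintype.card_fin]; omega
  have hci : ((Fintype.card (Fin (2 * u - 1)) : ℕ) : ℤ) + 1 = 2 * u := by
    rw [Fintype.card_fin]
    have : (2 * u - 1) + 1 = 2 * u := by omega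
    exact_mod_cast this
  let g : Fin (2 * u + 1) → ℤ := fun k => (-1) ^ (k : ℕ)
  have hg : ∀ k, g k = 1 ∨ g k = -1 := fun k => neg_one_pow_eq_or ℤ _
  have hg1 : ∑ k, g k = 1 := by
    have := Fin.sum_neg_one_pow ℤ (2 * u + 1)
    rw [if_neg (by simp)] at this
    exact this
  have hcard : Fintype.card (Option (Fin (2 * u - 1) × Fin (2 * u + 1))) = 4 * u ^ 2 := by
    rw [Fintype.card_option, Fintype.card_prod, Fintype.card_fin, Fintype.card_fin]
    obtain ⟨w, rfl⟩ : ∃ w, u = w + 1 := ⟨u - 1, by omega⟩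
    have : 2 * (w + 1) - 1 = 2 * w + 1 := by omega
    rw [this]; ring
  let f : Fin (4 * u ^ 2) ≃ Option (Fin (2 * u - 1) × Fin (2 * u + 1)) :=
    (Fintype.equivFinOfCardEq hcard).symm
  let X : Matrix (Fin (4 * u ^ 2)) (Fin (4 * u ^ 2)) ℤ :=
    Matrix.of fun i j => - R Q S g (f i) (f j)
  have hX : ∀ i j, X i j = 1 ∨ X i j = -1 := by
    intro i j
    change - R Q S g (f i) (f j) = 1 ∨ - R Q S g (f i) (f j) = -1
    rcases R_sg hQ hS hg (f i) (f j) with h | h <;> rw [h] <;> norm_num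
  have hrow : ∀ i, ∑ j, X i j = - (2 * u : ℤ) := by
    intro i
    change ∑ j, - R Q S g (f i) (f j) = _
    rw [Finset.sum_neg_distrib, Equiv.sum_comp f (fun r => R Q S g (f i) r),
      R_row hQ hS hc hg hg1, hci]
  have hmul : X * Xᵀ = ((4 * u ^ 2 : ℕ) : ℤ) • 1 := by
    ext i j
    rw [Matrix.mul_apply, Matrix.smul_apply, Matrix.one_apply]
    change ∑ k, (- R Q S g (f i) (f k)) * (- R Q S g (f j) (f k)) = _
    have h1 : ∑ k, (- R Q S g (f i) (f k)) * (- R Q S g (f j) (f k)) =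
        ∑ k, R Q S g (f i) (f k) * R Q S g (f j) (f k) :=
      Finset.sum_congr rfl fun k _ => by ring
    rw [h1, Equiv.sum_comp f (fun r => R Q S g (f i) r * R Q S g (f j) r),
      R_mul hQ hS he hc hg, hci]
    by_cases h : i = j
    · rw [if_pos h, if_pos (congrArg f h)]
      push_cast
      simp only [smul_eq_mul]
      ring
    · rw [if_neg h, if_neg fun h' => h (f.injective h')]
      simp
  exact ⟨X, hX, hrow, hmul⟩

/-- the Menon design of a regular Hadamard matrix -/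
theorem menon_of_regular {u : ℕ} (hu : 1 < u) {X : Matrix (Fin (4 * u ^ 2)) (Fin (4 * u ^ 2)) ℤ}
    (hX : ∀ i j, X i j = 1 ∨ X i j = -1) (hrow : ∀ i, ∑ j, X i j = - (2 * u : ℤ))
    (hmul : X * Xᵀ = ((4 * u ^ 2 : ℕ) : ℤ) • 1) :
    ∃ B : Fin (4 * u ^ 2) → Finset (Fin (4 * u ^ 2)),
      Pool.Agent.H114R2.IsSymDesign (4 * u ^ 2) (2 * u ^ 2 - u) (u ^ 2 - u) B := by
  have hN : 0 < 4 * u ^ 2 := by positivity
  obtain ⟨hrr, hcc⟩ := Pool.Agent.H114R2.had_rows hN hmul
  have hcol : ∀ j, ∑ i, X i j = - (2 * u : ℤ) := by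
    intro j
    have h1 : ∑ i, (∑ j', X i j') * X i j = 4 * u ^ 2 := by
      simp only [Finset.sum_mul]
      rw [Finset.sum_comm]
      simp only [hcc]
      simp
    simp only [hrow] at h1
    rw [← Finset.mul_sum] at h1
    have hu0 : (u : ℤ) ≠ 0 := by
      have : 0 < u := by omega
      exact_mod_cast this.ne'
    have h2 : (-(2 * (u : ℤ))) * (∑ i, X i j) = (-(2 * (u : ℤ))) * (-(2 * u)) := by
      rw [h1]; ring
    exact mul_left_cancel₀ (by simpa using hu0) h2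
  have hle : u ≤ u ^ 2 := Nat.le_self_pow (by norm_num) u
  have hlt : u < u ^ 2 := by nlinarith
  refine ⟨_, Pool.Agent.H114R2.design_of_matrix X hX (-(2 * u : ℤ)) 0 hrow hcol
    (fun i i' h => by rw [hrr, if_neg h]) (fun j j' h => by rw [hcc, if_neg h]) ?_ ?_ ?_ ?_⟩
  · have h3 : u ≤ 2 * u ^ 2 := by omega
    push_cast [Nat.cast_sub h3]
    ring
  · push_cast [Nat.cast_sub hle]
    ring
  · have : 0 < u := by omega
    omega
  · omega

/-- Menon and Hadamard designs from a symmetric and a skew core of orders `2 u - 1`, `2 u + 1` -/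
theorem menon {u : ℕ} (hu : 1 < u) {e : ℤ} (he : e * e = 1)
    {Q : Fin (2 * u - 1) → Fin (2 * u - 1) → ℤ} (hQ : IsCoreG e Q)
    {S : Fin (2 * u + 1) → Fin (2 * u + 1) → ℤ} (hS : IsCoreG (-e) S) :
    (∃ B : Fin (4 * u ^ 2) → Finset (Fin (4 * u ^ 2)),
      Pool.Agent.H114R2.IsSymDesign (4 * u ^ 2) (2 * u ^ 2 - u) (u ^ 2 - u) B) ∧
    Pool.Agent.H108R3.Had.HasHad (4 * u ^ 2) := by
  obtain ⟨X, hX, hrow, hmul⟩ := regular hu he hQ hS
  exact ⟨menon_of_regular hu hX hrow hmul, X, hX, hmul⟩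

/-- the core of a conference matrix, symmetric or skew -/
theorem core_of_conf {v : ℕ} {e : ℤ} (he : e * e = 1) {C : Fin (v + 1) → Fin (v + 1) → ℤ}
    (hd : ∀ i, C i i = 0) (hs : ∀ i j, i ≠ j → C i j = 1 ∨ C i j = -1)
    (hsym : ∀ i j, C j i = e * C i j)
    (hm : ∀ i j, ∑ k, C i k * C j k = if i = j then (v : ℤ) else 0) :
    ∃ B : Fin v → Fin v → ℤ, IsCoreG e B := by
  have h0 : ∀ x : Fin v, C 0 x.succ = 1 ∨ C 0 x.succ = -1 :=
    fun x => hs _ _ (Fin.succ_ne_zero x).symm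
  have h02 : ∀ x : Fin v, C 0 x.succ * C 0 x.succ = 1 := by
    intro x
    rcases h0 x with h | h <;> rw [h] <;> norm_num
  refine ⟨fun x y => C 0 x.succ * C 0 y.succ * C x.succ y.succ, ?_, ?_, ?_, ?_, ?_⟩
  · intro x
    simp only [hd, mul_zero]
  · intro x y hxy
    have h3 := hs _ _ fun h' => hxy (Fin.succ_injective _ h')
    change C 0 x.succ * C 0 y.succ * C x.succ y.succ = 1 ∨
      C 0 x.succ * C 0 y.succ * C x.succ y.succ = -1
    rcases h0 x with h1 | h1 <;> rcases h0 y with h2 | h2 <;> rcases h3 with h3 | h3 <;>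
      rw [h1, h2, h3] <;> norm_num
  · intro x y
    rw [hsym x.succ y.succ]; ring
  · intro x
    have h1 := hm x.succ 0
    rw [if_neg (Fin.succ_ne_zero x), Fin.sum_univ_succ, hd, mul_zero, zero_add] at h1
    have h2 : ∑ y : Fin v, C 0 x.succ * C 0 y.succ * C x.succ y.succ =
        C 0 x.succ * ∑ y : Fin v, C x.succ y.succ * C 0 y.succ := by
      rw [Finset.mul_sum]
      exact Finset.sum_congr rfl fun y _ => by ring
    rw [h2, h1, mul_zero]
  · intro x y
    have h1 := hm x.succ y.succ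
    rw [Fin.sum_univ_succ, hsym 0 x.succ, hsym 0 y.succ] at h1
    have h2 : ∑ z : Fin v, C 0 x.succ * C 0 z.succ * C x.succ z.succ *
        (C 0 y.succ * C 0 z.succ * C y.succ z.succ) =
        C 0 x.succ * C 0 y.succ * ∑ z : Fin v, C x.succ z.succ * C y.succ z.succ := by
      rw [Finset.mul_sum]
      refine Finset.sum_congr rfl fun z _ => ?_
      linear_combination (C 0 x.succ * C 0 y.succ * C x.succ z.succ * C y.succ z.succ) * h02 z
    have h3 : ∑ z : Fin v, C x.succ z.succ * C y.succ z.succ =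
        (if x = y then (v : ℤ) else 0) - C 0 x.succ * C 0 y.succ := by
      by_cases hxy : x = y
      · rw [if_pos (congrArg _ hxy)] at h1
        rw [if_pos hxy]
        linear_combination h1 - (C 0 x.succ * C 0 y.succ) * he
      · rw [if_neg fun h' => hxy (Fin.succ_injective _ h')] at h1
        rw [if_neg hxy]
        linear_combination h1 - (C 0 x.succ * C 0 y.succ) * he
    rw [h2, h3, Fintype.card_fin]
    by_cases hxy : x = y
    · subst hxy
      rw [if_pos rfl]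
      linear_combination ((v : ℤ) - 1 - C 0 x.succ * C 0 x.succ) * h02 x
    · rw [if_neg hxy]
      linear_combination (- (C 0 x.succ * C 0 x.succ)) * h02 y - h02 x

end Pool.Agent.V11295.TwinMenon
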